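import Mathlib
import Pool.Agent.H48.Q1.RefType
import Pool.Agent.H5.FM.Iface
import Pool.Agent.Q1.M5.Defs

set_option autoImplicit false
open Finset

/-! # Diamond digitisation of rectilinear polygons with collars (route W, top part): definitions

`P : PType` in the frame of the square lattice with real lines `x`, `y`. Every line `i` is replaced by
two lines (`2 i`, `2 i + 1`, at distance `τ` on both sides); the cell `(a, b)` of this *doubled grid* is a
bulk cell (`a`, `b` odd: cell `(a / 2, b / 2)`), an edge cell (one of `a`, `b` even) or a vertex cell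
(both even: vertex `(a / 2, b / 2)`). `Mm Q o` = collared polyomino: the sides `s` of `Q` with `o s` are
pushed out, the other sides are pushed in. `Dq` = diamonds (cells of the tile frame) whose centres are in
the collared polyomino. -/

namespace Pool.Agent.H5.C3

open Pool.Agent.H75.Perc (dir dir_cases)
open Pool.Agent.Q1.M4 (Cell Good IsSide nextSide tail head Adj4 Conn4 PType pt Reg Om)
open Pool.Agent.H48.Q1 (fl fl_spec fl_eq fl_iff fl_step)
open Pool.Agent.H21.FM (Shape)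

/-! ### The collared polyomino on the doubled grid -/

section collar
variable (Q : Finset Cell) (o : Cell → ℤ → Prop)

/-- the edge cell between the cells `(i, j - 1)` and `(i, j)` is inside -/
def Hz (i j : ℤ) : Prop :=
  ((i, j) ∈ Q ∧ (i, j - 1) ∈ Q) ∨ ((i, j) ∈ Q ∧ (i, j - 1) ∉ Q ∧ o (i, j) 0) ∨
    ((i, j - 1) ∈ Q ∧ (i, j) ∉ Q ∧ o (i, j - 1) 2)

/-- the edge cell between the cells `(i - 1, j)` and `(i, j)` is inside -/
def Ve (i j : ℤ) : Prop :=
  ((i, j) ∈ Q ∧ (i - 1, j) ∈ Q) ∨ ((i - 1, j) ∈ Q ∧ (i, j) ∉ Q ∧ o (i - 1, j) 1) ∨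
    ((i, j) ∈ Q ∧ (i - 1, j) ∉ Q ∧ o (i, j) 3)

/-- the vertex cell at the vertex `(i, j)` is inside: all four cells are in `Q`, or the side which
starts at `(i, j)` is pushed out -/
def Vx (i j : ℤ) : Prop :=
  ((i, j) ∈ Q ∧ (i - 1, j) ∈ Q ∧ (i - 1, j - 1) ∈ Q ∧ (i, j - 1) ∈ Q) ∨
  ((i, j) ∈ Q ∧ (i, j - 1) ∉ Q ∧ o (i, j) 0) ∨
  ((i - 1, j) ∈ Q ∧ (i, j) ∉ Q ∧ o (i - 1, j) 1) ∨
  ((i - 1, j - 1) ∈ Q ∧ (i - 1, j) ∉ Q ∧ o (i - 1, j - 1) 2) ∨
  ((i, j - 1) ∈ Q ∧ (i - 1, j - 1) ∉ Q ∧ o (i, j - 1) 3)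

/-- the cell `r` of the doubled grid is inside -/
def Mm (r : ℤ × ℤ) : Prop :=
  if r.1 % 2 = 1 then
    if r.2 % 2 = 1 then (r.1 / 2, r.2 / 2) ∈ Q else Hz Q o (r.1 / 2) (r.2 / 2)
  else if r.2 % 2 = 1 then Ve Q o (r.1 / 2) (r.2 / 2) else Vx Q o (r.1 / 2) (r.2 / 2)

lemma Mm_oo (i j : ℤ) : Mm Q o (2 * i + 1, 2 * j + 1) ↔ (i, j) ∈ Q := by
  unfold Mm
  simp only
  rw [if_pos (by omega), if_pos (by omega), show (2 * i + 1) / 2 = i by omega,
    show (2 * j + 1) / 2 = j by omega]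

lemma Mm_oe (i j : ℤ) : Mm Q o (2 * i + 1, 2 * j) ↔ Hz Q o i j := by
  unfold Mm
  simp only
  rw [if_pos (by omega), if_neg (by omega), show (2 * i + 1) / 2 = i by omega,
    show (2 * j) / 2 = j by omega]

lemma Mm_eo (i j : ℤ) : Mm Q o (2 * i, 2 * j + 1) ↔ Ve Q o i j := by
  unfold Mm
  simp only
  rw [if_neg (by omega), if_pos (by omega), show (2 * i) / 2 = i by omega,
    show (2 * j + 1) / 2 = j by omega]

lemma Mm_ee (i j : ℤ) : Mm Q o (2 * i, 2 * j) ↔ Vx Q o i j := by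
  unfold Mm
  simp only
  rw [if_neg (by omega), if_neg (by omega), show (2 * i) / 2 = i by omega,
    show (2 * j) / 2 = j by omega]

end collar

/-! ### Diamonds -/

/-- centre of the cell `c` of the tile frame, in the lattice frame -/
def ctr (c : Cell) : ℤ × ℤ := (c.1 - c.2, c.1 + c.2 + 1)

/-- the cell with a given centre -/
def cel (p : ℤ × ℤ) : Cell := ((p.1 + p.2 - 1) / 2, (p.2 - p.1 - 1) / 2)

lemma cel_ctr (c : Cell) : cel (ctr c) = c := by
  unfold cel ctr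
  refine Prod.ext ?_ ?_ <;> simp only <;> omega

lemma ctr_cel {p : ℤ × ℤ} (h : (p.1 + p.2) % 2 = 1) : ctr (cel p) = p := by
  unfold cel ctr
  refine Prod.ext ?_ ?_ <;> simp only <;> omega

lemma ctr_odd (c : Cell) : ((ctr c).1 + (ctr c).2) % 2 = 1 := by unfold ctr; simp only; omega

lemma ctr_inj {c d : Cell} (h : ctr c = ctr d) : c = d := by
  rw [← cel_ctr c, h, cel_ctr]

/-- The point `p` is inside. `lx a`, `ly b` = first column (row) of the cell `a` (`b`) of the doubled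
grid. -/
def Ins (Q : Finset Cell) (o : Cell → ℤ → Prop) (lx ly : ℤ → ℤ) (p : ℤ × ℤ) : Prop :=
  Mm Q o (fl lx p.1, fl ly p.2)

open Classical in
/-- **The diamond polyomino** (tile frame). -/
noncomputable def Dq (Q : Finset Cell) (o : Cell → ℤ → Prop) (lx ly : ℤ → ℤ) : Finset Cell :=
  (((Q.biUnion fun c => Icc (2 * c.1) (2 * c.1 + 2) ×ˢ Icc (2 * c.2) (2 * c.2 + 2)).biUnion
    fun r => Ico (lx r.1) (lx (r.1 + 1)) ×ˢ Ico (ly r.2) (ly (r.2 + 1))).filter
      fun p => (p.1 + p.2) % 2 = 1 ∧ Ins Q o lx ly p).image cel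

lemma Mm_near {Q : Finset Cell} {o : Cell → ℤ → Prop} {r : ℤ × ℤ} (h : Mm Q o r) :
    ∃ c ∈ Q, r ∈ Icc (2 * c.1) (2 * c.1 + 2) ×ˢ Icc (2 * c.2) (2 * c.2 + 2) := by
  obtain ⟨a, b⟩ := r
  obtain ⟨i, hi⟩ := Int.even_or_odd' a
  obtain ⟨j, hj⟩ := Int.even_or_odd' b
  have key : ∀ c ∈ Q, 2 * c.1 ≤ a → a ≤ 2 * c.1 + 2 → 2 * c.2 ≤ b → b ≤ 2 * c.2 + 2 →
      ∃ c ∈ Q, (a, b) ∈ Icc (2 * c.1) (2 * c.1 + 2) ×ˢ Icc (2 * c.2) (2 * c.2 + 2) :=
    fun c hc h1 h2 h3 h4 => ⟨c, hc, mem_product.2 ⟨mem_Icc.2 ⟨h1, h2⟩, mem_Icc.2 ⟨h3, h4⟩⟩⟩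
  rcases hi with rfl | rfl <;> rcases hj with rfl | rfl
  · rw [Mm_ee] at h
    rcases h with ⟨h, -⟩ | ⟨h, -⟩ | ⟨h, -⟩ | ⟨h, -⟩ | ⟨h, -⟩ <;>
      exact key _ h (by simp only; omega) (by simp only; omega) (by simp only; omega)
        (by simp only; omega)
  · rw [Mm_eo] at h
    rcases h with ⟨h, -⟩ | ⟨h, -⟩ | ⟨h, -⟩ <;>
      exact key _ h (by simp only; omega) (by simp only; omega) (by simp only; omega)
        (by simp only; omega)
  · rw [Mm_oe] at h
    rcases h with ⟨h, -⟩ | ⟨h, -⟩ | ⟨h, -⟩ <;>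
      exact key _ h (by simp only; omega) (by simp only; omega) (by simp only; omega)
        (by simp only; omega)
  · rw [Mm_oo] at h
    exact key _ h (by simp only; omega) (by simp only; omega) (by simp only; omega)
      (by simp only; omega)

open Classical in
lemma mem_Dq {Q : Finset Cell} {o : Cell → ℤ → Prop} {lx ly : ℤ → ℤ} (hx : StrictMono lx)
    (hy : StrictMono ly) {c : Cell} : c ∈ Dq Q o lx ly ↔ Ins Q o lx ly (ctr c) := by
  unfold Dq
  rw [mem_image]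
  constructor
  · rintro ⟨p, hp, rfl⟩
    rw [mem_filter] at hp
    rw [ctr_cel hp.2.1]
    exact hp.2.2
  · intro h
    refine ⟨ctr c, mem_filter.2 ⟨?_, ctr_odd c, h⟩, cel_ctr c⟩
    obtain ⟨d, hd, hr⟩ := Mm_near h
    rw [mem_biUnion]
    refine ⟨(fl lx (ctr c).1, fl ly (ctr c).2), mem_biUnion.2 ⟨d, hd, hr⟩, ?_⟩
    rw [mem_product, mem_Ico, mem_Ico]
    exact ⟨fl_spec hx _, fl_spec hy _⟩

/-! ### Pushed sides and labels -/

/-- the sides `n < N` of the walk with `O n` are pushed out -/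
def oOf (P : PType) (O : ℕ → Prop) (c : Cell) (k : ℤ) : Prop :=
  ∃ n < P.N, (P.side n).1 = c ∧ ((P.side n).2 - k) % 4 = 0 ∧ O n

/-- the even one of two numbers -/
def ev (a b : ℤ) : ℤ := if a % 2 = 0 then a else b

/-- **Element** of a pair of points: edge (doubled midpoint) or vertex (doubled) of the grid between
them. -/
noncomputable def elm (lx ly : ℤ → ℤ) (p q : ℤ × ℤ) : ℤ × ℤ :=
  (ev (fl lx p.1) (fl lx q.1), ev (fl ly p.2) (fl ly q.2))

/-- Element of a side of the diamond polyomino. -/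
noncomputable def eS (lx ly : ℤ → ℤ) (s : Cell × ℤ) : ℤ × ℤ :=
  elm lx ly (ctr s.1) (ctr (s.1 + dir (s.2 - 1)))

/-- Labels along the boundary walk: `A n` at the vertex `n`; a side `n` with `A (n + 1) = A n + 1`
carries a mark. -/
structure Marks (P : PType) (A : ℕ → ℤ) : Prop where
  step : ∀ n, A (n + 1) = A n ∨ A (n + 1) = A n + 1
  per : ∀ n, A (n + P.N) = A n + 4

/-- the side `s` of the diamond polyomino may have the label `a` (modulo `4`) -/
def Lb (P : PType) (A : ℕ → ℤ) (lx ly : ℤ → ℤ) (s : Cell × ℤ) (a : ℤ) : Prop :=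
  (∃ n, eS lx ly s = P.vert n + P.vert n ∧ (A n - a) % 4 = 0) ∨
  (∃ n, eS lx ly s = P.vert n + P.vert (n + 1) ∧ ((A n - a) % 4 = 0 ∨ (A (n + 1) - a) % 4 = 0))

/-- gaps of the lines -/
def Gap (l : ℤ → ℤ) (L : ℤ) : Prop := ∀ a, l a + L ≤ l (a + 1)

lemma Gap.mono {l : ℤ → ℤ} {L : ℤ} (h : Gap l L) (hL : 0 < L) : StrictMono l :=
  strictMono_int_of_lt_succ fun a => by have := h a; omega

/-! ### The real lines -/

/-- `x` has gaps at least `g` -/
structure GapR (x : ℤ → ℝ) (g : ℝ) : Prop where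
  g0 : 0 < g
  gap : ∀ i, x i + g ≤ x (i + 1)

/-- the refinement by five: new lines at distances `κ`, `2 κ` from the old ones -/
noncomputable def l5 (x : ℤ → ℝ) (κ : ℝ) (a : ℤ) : ℝ :=
  if a % 5 = 0 then x (a / 5) else if a % 5 = 1 then x (a / 5) + κ
  else if a % 5 = 2 then x (a / 5) + 2 * κ
  else if a % 5 = 3 then x (a / 5 + 1) - 2 * κ else x (a / 5 + 1) - κ

/-- the doubled lines -/
noncomputable def l2 (x : ℤ → ℝ) (τ : ℝ) (a : ℤ) : ℝ :=
  if a % 2 = 0 then x (a / 2) - τ else x (a / 2) + τ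

/-- the integer lines at mesh `e` -/
noncomputable def lz (x : ℤ → ℝ) (e : ℝ) (a : ℤ) : ℤ := ⌈x a / e⌉

/-- the integer lines of the construction with parameter `κ`: collars `κ / 10`, mesh `κ / 1000` -/
noncomputable def LX (x : ℤ → ℝ) (κ : ℝ) : ℤ → ℤ := lz (l2 (l5 x κ) (κ / 10)) (κ / 1000)

/-- multiplication by five -/
def m5 (i : ℤ) : ℤ := 5 * i

lemma m5_mono : StrictMono m5 := fun i j h => by unfold m5; omega

/-- the refined type -/
noncomputable def P5 (P : PType) : PType := P.refine m5_mono m5_mono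

/-- the diamond polyomino with parameter `κ`; the sides `n` of `P5 P` with `O n` are pushed out -/
noncomputable def QD (P : PType) (x y : ℤ → ℝ) (O : ℕ → Prop) (κ : ℝ) : Finset Cell :=
  Dq (P5 P).Q (oOf (P5 P) O) (LX x κ) (LX y κ)

/-- closed side `n` of the polygon in the plane -/
def sdR (P : PType) (x y : ℤ → ℝ) (n : ℕ) : Set ℂ := segment ℝ (pt x y (P.vert n)) (pt x y (P.vert (n + 1)))

/-- union of the closed sides `n1 ≤ n < n2` -/
def arR (P : PType) (x y : ℤ → ℝ) (n1 n2 : ℕ) : Set ℂ := ⋃ n ∈ Set.Ico n1 n2, sdR P x y n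

end Pool.Agent.H5.C3
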