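import Mathlib
import Pool.Agent.H5.C3.Defs
import Pool.Agent.H19.Rado.Shape
import Pool.Agent.H14.FM.Pos
import Pool.Agent.H13.Q1.FourG
import Pool.Agent.H5.FM.Region

set_option autoImplicit false
open Finset Filter Topology

/-! # Route W, top part (W-F): the statements of the modules T1 - T8

`StShape` = deliverable of the groups W-D, W-E. T9: `StShape → StC3`. -/

namespace Pool.Agent.H5.C3

open Pool.Agent.H75.Perc (dir dir_cases Pr)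
open Pool.Agent.Q1.M4 (Cell Good IsSide nextSide tail head Adj4 Conn4 PType pt Reg Om)
open Pool.Agent.H21.FM (Shape qn)
open Pool.Agent.H5.FM (UpG LoG gr)
open Pool.Agent.H19.RH (Cht lam)
open Pool.Agent.H19.Rado (KConv)
open Pool.Agent.H13.Q1.Four (cardy)
open Pool.Agent.H14.FM (ic)
open Pool.Agent.Q1.M5 (App EL CI StC3)

/-- **Deliverable of W-D, W-E**: Cardy's formula for every shape of the tile frame. -/
def StShape : Prop := ∀ (S : Shape) (φ : ℂ → ℂ), Cht S.P ic ic φ →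
  Tendsto (fun h => qn S h) atTop (𝓝 (cardy (lam S.P ic ic S.m2 S.m3 S.m4 φ)))

/-! ### Combinatorics -/

/-- (T1) the collared polyomino and its complement are connected -/
def StConn : Prop := ∀ (Q : Finset Cell), Good Q → ∀ o : Cell → ℤ → Prop,
  Conn4 {r : ℤ × ℤ | Mm Q o r} ∧ Conn4 {r : ℤ × ℤ | ¬ Mm Q o r}

/-- (T2) the diamond polyomino is good -/
def StGood : Prop := ∀ (Q : Finset Cell), Good Q → ∀ (o : Cell → ℤ → Prop) (lx ly : ℤ → ℤ),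
  Gap lx 4 → Gap ly 4 → Good (Dq Q o lx ly)

/-- (T3, T4) the diamond polyomino with four marks -/
def StLab : Prop := ∀ (P : PType) (O : ℕ → Prop) (lx ly : ℤ → ℤ), Gap lx 16 → Gap ly 16 →
  ∀ A : ℕ → ℤ, Marks P A → ∃ S : Shape, S.P.Q = Dq P.Q (oOf P O) lx ly ∧
    (∀ i, i < S.m2 → Lb P A lx ly (S.P.side i) 0) ∧
    (∀ i, S.m2 ≤ i → i < S.m3 → Lb P A lx ly (S.P.side i) 1) ∧
    (∀ i, S.m3 ≤ i → i < S.P.m → Lb P A lx ly (S.P.side i) 2) ∧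
    (∀ i, S.P.m ≤ i → i < S.P.N → Lb P A lx ly (S.P.side i) 3)

/-! ### The two families of shapes -/

/-- sides of `P5 P` pushed out, upper bound: all sides except `[5 n1 - 1, 5 n2 + 1)` and
`[5 m - 1, 5 N + 1)` -/
def OU (n1 n2 m : ℕ) (n : ℕ) : Prop := (1 ≤ n ∧ n + 1 < 5 * n1) ∨ (5 * n2 + 1 ≤ n ∧ n + 1 < 5 * m)

/-- sides of `P5 P` pushed out, lower bound: `[5 n1 + 1, 5 n2 - 1)` and `[5 m + 1, 5 N - 1)` -/
def OL (N n1 n2 m : ℕ) (n : ℕ) : Prop := (5 * n1 + 1 ≤ n ∧ n + 1 < 5 * n2) ∨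
  (5 * m + 1 ≤ n ∧ n + 1 < 5 * N)

/-- labels with four marks `a < b < c < d < N'`, label `s` at the vertex `0` -/
def mk4 (N' a b c d : ℕ) (s : ℤ) (n : ℕ) : ℤ := 4 * ((n / N' : ℕ) : ℤ) + s +
  (if a < n % N' then 1 else 0) + (if b < n % N' then 1 else 0) + (if c < n % N' then 1 else 0) +
  (if d < n % N' then 1 else 0)

/-- labels, upper bound -/
def AU (N n1 n2 m : ℕ) : ℕ → ℤ := mk4 (5 * N) 1 (5 * n1 - 2) (5 * n2 + 1) (5 * m - 2) (-1)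

/-- labels, lower bound -/
def AL (N n1 n2 m : ℕ) : ℕ → ℤ := mk4 (5 * N) (5 * n1 + 1) (5 * n2 - 2) (5 * m + 1) (5 * N - 2) 0

/-- the shape `S` is the diamond polyomino of `P5 P` with parameter `κ` and its arcs have the labels
`0, 1, 2, 3` of `A` -/
structure IsD (P : PType) (x y : ℤ → ℝ) (O : ℕ → Prop) (A : ℕ → ℤ) (κ : ℝ) (S : Shape) : Prop where
  Q : S.P.Q = QD P x y O κ
  l0 : ∀ i, i < S.m2 → Lb (P5 P) A (LX x κ) (LX y κ) (S.P.side i) 0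
  l1 : ∀ i, S.m2 ≤ i → i < S.m3 → Lb (P5 P) A (LX x κ) (LX y κ) (S.P.side i) 1
  l2 : ∀ i, S.m3 ≤ i → i < S.P.m → Lb (P5 P) A (LX x κ) (LX y κ) (S.P.side i) 2
  l3 : ∀ i, S.P.m ≤ i → i < S.P.N → Lb (P5 P) A (LX x κ) (LX y κ) (S.P.side i) 3

/-- shape for the upper bound -/
def IsU (P : PType) (x y : ℤ → ℝ) (n1 n2 : ℕ) (κ : ℝ) (S : Shape) : Prop :=
  IsD P x y (OU n1 n2 P.m) (AU P.N n1 n2 P.m) κ S

/-- shape for the lower bound -/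
def IsL (P : PType) (x y : ℤ → ℝ) (n1 n2 : ℕ) (κ : ℝ) (S : Shape) : Prop :=
  IsD P x y (OL P.N n1 n2 P.m) (AL P.N n1 n2 P.m) κ S

/-! ### Geometry -/

/-- (T5) position of the shapes -/
def StPos : Prop := ∀ (P : PType) (x y : ℤ → ℝ) (g : ℝ), GapR x g → GapR y g → ∀ n1 n2 : ℕ,
  0 < n1 → n1 < n2 → n2 < P.m → ∃ κ0 > 0, ∀ κ, 0 < κ → κ < κ0 → ∀ S : Shape,
    (IsU P x y n1 n2 κ S → ∃ (ρ : ℝ) (N2 N4 : Set ℂ), UpG S (κ / 1000) 0 (Om P.Q x y)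
      (arR P x y n1 n2) (arR P x y P.m P.N) ρ N2 N4) ∧
    (IsL P x y n1 n2 κ S → ∃ (ρ : ℝ) (N2 N4 : Set ℂ), LoG S (κ / 1000) 0 (Om P.Q x y)
      (arR P x y n1 n2) (arR P x y P.m P.N) ρ N2 N4)

/-- (T6) kernel convergence -/
def StKer : Prop := ∀ (P : PType) (x y : ℤ → ℝ) (g : ℝ), GapR x g → GapR y g →
  ∀ (O : ℕ → ℕ → Prop) (κ : ℕ → ℝ), (∀ n, 0 < κ n) → Tendsto κ atTop (𝓝 0) →
  ∀ S : ℕ → Shape, (∀ n, (S n).P.Q = QD P x y (O n) (κ n)) →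
    KConv atTop (fun n => Om (S n).P.Q (gr (κ n / 1000)) (gr (κ n / 1000)))
      ((fun z : ℂ => (1 + Complex.I) * z) ⁻¹' Om P.Q x y)

/-- (T7) convergence of the cross ratios -/
def StLam : Prop := ∀ (P : PType) (x y : ℤ → ℝ) (g : ℝ), GapR x g → GapR y g → ∀ n1 n2 : ℕ,
  0 < n1 → n1 < n2 → n2 < P.m → ∀ φ : ℂ → ℂ, Cht P x y φ → ∀ κ : ℕ → ℝ, (∀ n, 0 < κ n) →
  Tendsto κ atTop (𝓝 0) → ∀ (S : ℕ → Shape) (ψ : ℕ → ℂ → ℂ), (∀ n, Cht (S n).P ic ic (ψ n)) →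
  (∀ n, IsU P x y n1 n2 (κ n) (S n) ∨ IsL P x y n1 n2 (κ n) (S n)) →
  Tendsto (fun n => lam (S n).P ic ic (S n).m2 (S n).m3 (S n).m4 (ψ n)) atTop
    (𝓝 (lam P x y n1 n2 P.m φ))

/-! ### Discrete comparison -/

/-- (T8) upper bound -/
def StCIU : Prop := ∀ (P : PType) (x y : ℤ → ℝ) (n1 n2 : ℕ), StrictMono x → StrictMono y → 0 < n1 →
  n1 < n2 → n2 < P.m → ∀ (S : Shape) (e ρ : ℝ) (N2 N4 : Set ℂ), UpG S e 0 (Om P.Q x y)
    (arR P x y n1 n2) (arR P x y P.m P.N) ρ N2 N4 → ∀ q : ℝ, Tendsto (fun h => qn S h) atTop (𝓝 q) →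
  ∀ (R : ℕ → ℝ) (X Y : ℕ → ℤ → ℤ), App x y R X Y → ∀ ε > 0, ∀ᶠ j in atTop,
    Pr (EL P (X j) (Y j)) (CI P (X j) (Y j) n1 n2) ≤ 1 - q + ε

/-- (T8) lower bound -/
def StCIL : Prop := ∀ (P : PType) (x y : ℤ → ℝ) (n1 n2 : ℕ), StrictMono x → StrictMono y → 0 < n1 →
  n1 < n2 → n2 < P.m → ∀ (S : Shape) (e ρ : ℝ) (N2 N4 : Set ℂ), LoG S e 0 (Om P.Q x y)
    (arR P x y n1 n2) (arR P x y P.m P.N) ρ N2 N4 → ∀ q : ℝ, Tendsto (fun h => qn S h) atTop (𝓝 q) →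
  ∀ (R : ℕ → ℝ) (X Y : ℕ → ℤ → ℤ), App x y R X Y → ∀ ε > 0, ∀ᶠ j in atTop,
    1 - q - ε ≤ Pr (EL P (X j) (Y j)) (CI P (X j) (Y j) n1 n2)

/-- (T9) the statement of the whole part -/
def StTop : Prop := StShape → StC3

end Pool.Agent.H5.C3
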