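import Mathlib
import Pool.Agent.H5.C3.Stm

set_option autoImplicit false
open Finset Filter Topology

/-! # Route W, top part: generic shapes (interface with W-D, W-E)

`Gen Q`: a maximal horizontal segment inside does not join two reflex corners; so the chord which goes
left from a reflex corner on a right side ends in the interior of a vertical wall. Every shape has a
generic *shear* at every fine scale `M`: the cells `c` with `(⌊c.1/M⌋, ⌊(c.2 - ⌊c.1/M⌋)/M⌋)` in `Q`. -/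

namespace Pool.Agent.H5.C3

open Pool.Agent.H75.Perc (dir dir_cases Pr)
open Pool.Agent.Q1.M4 (Cell Good IsSide nextSide tail head Adj4 Conn4 PType pt rect Reg Om)
open Pool.Agent.H21.FM (Shape qn)
open Pool.Agent.H5.FM (UpG LoG gr OnS)
open Pool.Agent.H19.RH (Cht lam)
open Pool.Agent.H13.Q1.Four (cardy)
open Pool.Agent.H14.FM (ic)
open Pool.Agent.Q1.M5 (App EL CI StC3)

/-- **Generic polyomino.** -/
def Gen (Q : Finset Cell) : Prop := ∀ a b y : ℤ, a < b →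
  (∀ x, a ≤ x → x < b → (x, y) ∈ Q ∧ (x, y - 1) ∈ Q) →
  ((a - 1, y) ∈ Q ↔ (a - 1, y - 1) ∈ Q) ∨ ((b, y) ∈ Q ↔ (b, y - 1) ∈ Q)

/-- **Deliverable of W-D, W-E** (final form): Cardy's formula for generic shapes of the tile frame,
along the multiples of some integer `M` which may depend on the error. -/
def StShapeG : Prop := ∀ S : Shape, Gen S.P.Q → ∀ φ : ℂ → ℂ, Cht S.P ic ic φ → ∀ ε > 0,
  ∃ M : ℕ, 0 < M ∧ ∀ᶠ h : ℕ in atTop,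
    |qn S (M * h) - cardy (lam S.P ic ic S.m2 S.m3 S.m4 φ)| ≤ ε

/-- `S'` divided by `M` is a perturbation of `S` by `δ`: it is a union of translates of the cells of
`S` by vectors of length `≤ δ` -/
structure Pert (S S' : Shape) (M : ℕ) (δ : ℝ) : Prop where
  M0 : 0 < M
  cell : ∀ z ∈ Reg S'.P.Q ic ic, ∃ c ∈ S.P.Q, ∃ v : ℂ, ‖v‖ ≤ δ ∧ z / M - v ∈ rect ic ic c ∧
    ∀ u : ℂ, u / M - v ∈ interior (rect ic ic c) → u ∈ Om S'.P.Q ic ic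
  com : ∀ z, z ∉ Om S'.P.Q ic ic → ∃ w, w ∉ Om S.P.Q ic ic ∧ ‖z / M - w‖ ≤ δ
  l0 : ∀ i, i < S'.m2 → ∀ z, OnS 1 (S'.P.side i) z →
    ∃ j, j < S.m2 ∧ ∃ w, OnS 1 (S.P.side j) w ∧ ‖z / M - w‖ ≤ δ
  l1 : ∀ i, S'.m2 ≤ i → i < S'.m3 → ∀ z, OnS 1 (S'.P.side i) z →
    ∃ j, (S.m2 ≤ j ∧ j < S.m3) ∧ ∃ w, OnS 1 (S.P.side j) w ∧ ‖z / M - w‖ ≤ δ
  l2 : ∀ i, S'.m3 ≤ i → i < S'.m4 → ∀ z, OnS 1 (S'.P.side i) z →
    ∃ j, (S.m3 ≤ j ∧ j < S.m4) ∧ ∃ w, OnS 1 (S.P.side j) w ∧ ‖z / M - w‖ ≤ δ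
  l3 : ∀ i, S'.m4 ≤ i → i < S'.N → ∀ z, OnS 1 (S'.P.side i) z →
    ∃ j, (S.m4 ≤ j ∧ j < S.N) ∧ ∃ w, OnS 1 (S.P.side j) w ∧ ‖z / M - w‖ ≤ δ

/-- (T10) every shape has generic perturbations -/
def StGen : Prop := ∀ S : Shape, ∃ C : ℝ, ∀ᶠ M : ℕ in atTop, ∃ S' : Shape, Gen S'.P.Q ∧
  Pert S S' M (C / M)

/-- (T11) the positions are stable -/
def StPert : Prop := ∀ (S : Shape) (e : ℝ) (D A B : Set ℂ) (ρ : ℝ) (N2 N4 : Set ℂ),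
  (UpG S e 0 D A B ρ N2 N4 → ∃ δ > 0, ∃ (ρ' : ℝ) (N2' N4' : Set ℂ), ∀ (S' : Shape) (M : ℕ),
    Pert S S' M δ → UpG S' (e / M) 0 D A B ρ' N2' N4') ∧
  (LoG S e 0 D A B ρ N2 N4 → ∃ δ > 0, ∃ (ρ' : ℝ) (N2' N4' : Set ℂ), ∀ (S' : Shape) (M : ℕ),
    Pert S S' M δ → LoG S' (e / M) 0 D A B ρ' N2' N4')

/-- (T12) the cross ratio is stable -/
def StPertLam : Prop := ∀ (S : Shape) (φ : ℂ → ℂ), Cht S.P ic ic φ → ∀ (M : ℕ → ℕ) (δ : ℕ → ℝ),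
  Tendsto δ atTop (𝓝 0) → ∀ (S' : ℕ → Shape) (ψ : ℕ → ℂ → ℂ), (∀ n, Cht (S' n).P ic ic (ψ n)) →
  (∀ n, Pert S (S' n) (M n) (δ n)) →
  Tendsto (fun n => lam (S' n).P ic ic (S' n).m2 (S' n).m3 (S' n).m4 (ψ n)) atTop
    (𝓝 (lam S.P ic ic S.m2 S.m3 S.m4 φ))

/-- (T8G) upper bound, with scales in the multiples of `M` -/
def StCIUG : Prop := ∀ (P : PType) (x y : ℤ → ℝ) (n1 n2 : ℕ), StrictMono x → StrictMono y → 0 < n1 →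
  n1 < n2 → n2 < P.m → ∀ (S : Shape) (e ρ : ℝ) (N2 N4 : Set ℂ), UpG S e 0 (Om P.Q x y)
    (arR P x y n1 n2) (arR P x y P.m P.N) ρ N2 N4 → ∀ (M : ℕ) (q : ℝ), 0 < M →
  (∀ᶠ h : ℕ in atTop, q ≤ qn S (M * h)) →
  ∀ (R : ℕ → ℝ) (X Y : ℕ → ℤ → ℤ), App x y R X Y → ∀ᶠ j in atTop,
    Pr (EL P (X j) (Y j)) (CI P (X j) (Y j) n1 n2) ≤ 1 - q

/-- (T8G) lower bound, with scales in the multiples of `M` -/
def StCILG : Prop := ∀ (P : PType) (x y : ℤ → ℝ) (n1 n2 : ℕ), StrictMono x → StrictMono y → 0 < n1 →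
  n1 < n2 → n2 < P.m → ∀ (S : Shape) (e ρ : ℝ) (N2 N4 : Set ℂ), LoG S e 0 (Om P.Q x y)
    (arR P x y n1 n2) (arR P x y P.m P.N) ρ N2 N4 → ∀ (M : ℕ) (q : ℝ), 0 < M →
  (∀ᶠ h : ℕ in atTop, qn S (M * h) ≤ q) →
  ∀ (R : ℕ → ℝ) (X Y : ℕ → ℤ → ℤ), App x y R X Y → ∀ᶠ j in atTop,
    1 - q ≤ Pr (EL P (X j) (Y j)) (CI P (X j) (Y j) n1 n2)

/-- (T9) the statement of the whole part, final form -/
def StTopG : Prop := StShapeG → StC3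

end Pool.Agent.H5.C3
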