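import Mathlib
import Pool.Agent.H5.C3.Defs
import Pool.Agent.Q1.M4.Walk

set_option autoImplicit false
open Finset

/-! # T3: elements of the boundary of the diamond polyomino -/

namespace Pool.Agent.H5.C3

open Pool.Agent.H75.Perc (dir dir_cases)
open Pool.Agent.Q1.M4 (Cell Good IsSide nextSide tail head Adj4 Conn4 PType Eqv tail_inj side_cells
  lab lab_eq_tail lab_inj dir_congr)
open Pool.Agent.H48.Q1 (fl fl_spec fl_eq fl_iff fl_step)

/-! ### The walk of a type -/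

section walk
variable (P : PType)

lemma el_eq (n : ℕ) : P.vert n + P.vert (n + 1) = lab (P.side n) := by
  rw [P.vert_succ, lab_eq_tail, ← add_assoc]
  rfl

variable {P}

lemma tail_congr {s t : Cell × ℤ} (h : Eqv s t) : tail s = tail t := by
  obtain ⟨c, k⟩ := s
  obtain ⟨d, l⟩ := t
  obtain ⟨h1, h2⟩ := h
  simp only at h1 h2
  subst h1
  have : k % 4 = l % 4 := by omega
  unfold tail
  simp only [this]

lemma lab_congr {s t : Cell × ℤ} (h : Eqv s t) : lab s = lab t := by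
  rw [lab_eq_tail, lab_eq_tail, tail_congr h, dir_congr h.2]

lemma exists_idx {s : Cell × ℤ} (h : IsSide P.Q s) : ∃ n < P.N, Eqv (P.side n) s := P.all s h

/-- horizontal boundary edge, cell above -/
lemma idx0 {i j : ℤ} (h1 : (i, j) ∈ P.Q) (h2 : (i, j - 1) ∉ P.Q) :
    ∃ n < P.N, Eqv (P.side n) ((i, j), 0) := by
  apply exists_idx
  refine ⟨h1, ?_⟩
  have : dir ((0 : ℤ) - 1) = (0, -1) := by decide
  simp only [this, Prod.mk_add_mk, add_zero]
  simpa [sub_eq_add_neg] using h2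

/-- vertical boundary edge, cell on the left -/
lemma idx1 {i j : ℤ} (h1 : (i - 1, j) ∈ P.Q) (h2 : (i, j) ∉ P.Q) :
    ∃ n < P.N, Eqv (P.side n) ((i - 1, j), 1) := by
  apply exists_idx
  refine ⟨h1, ?_⟩
  have : dir ((1 : ℤ) - 1) = (1, 0) := by decide
  simp only [this, Prod.mk_add_mk, add_zero, sub_add_cancel]
  exact h2

/-- horizontal boundary edge, cell below -/
lemma idx2 {i j : ℤ} (h1 : (i, j - 1) ∈ P.Q) (h2 : (i, j) ∉ P.Q) :
    ∃ n < P.N, Eqv (P.side n) ((i, j - 1), 2) := by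
  apply exists_idx
  refine ⟨h1, ?_⟩
  have : dir ((2 : ℤ) - 1) = (0, 1) := by decide
  simp only [this, Prod.mk_add_mk, add_zero, sub_add_cancel]
  exact h2

/-- vertical boundary edge, cell on the right -/
lemma idx3 {i j : ℤ} (h1 : (i, j) ∈ P.Q) (h2 : (i - 1, j) ∉ P.Q) :
    ∃ n < P.N, Eqv (P.side n) ((i, j), 3) := by
  apply exists_idx
  refine ⟨h1, ?_⟩
  have : dir ((3 : ℤ) - 1) = (-1, 0) := by decide
  simp only [this, Prod.mk_add_mk, add_zero]
  simpa [sub_eq_add_neg] using h2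

lemma vert_of {n : ℕ} {s : Cell × ℤ} (h : Eqv (P.side n) s) : P.vert n = tail s := tail_congr h

lemma el_of {n : ℕ} {s : Cell × ℤ} (h : Eqv (P.side n) s) : P.vert n + P.vert (n + 1) = lab s := by
  rw [el_eq, lab_congr h]

lemma vert_succ_of {n : ℕ} {s : Cell × ℤ} (h : Eqv (P.side n) s) :
    P.vert (n + 1) = tail s + dir s.2 := by
  rw [P.vert_succ, vert_of h, dir_congr h.2]

/-- a mixed vertex is a vertex of the walk -/
lemma exists_vert {i j : ℤ} (h1 : ¬ ((i, j) ∈ P.Q ∧ (i - 1, j) ∈ P.Q ∧ (i - 1, j - 1) ∈ P.Q ∧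
    (i, j - 1) ∈ P.Q)) (h2 : ¬ ((i, j) ∉ P.Q ∧ (i - 1, j) ∉ P.Q ∧ (i - 1, j - 1) ∉ P.Q ∧
    (i, j - 1) ∉ P.Q)) : ∃ n < P.N, P.vert n = (i, j) := by
  have key : ((i, j) ∈ P.Q ∧ (i, j - 1) ∉ P.Q) ∨ ((i - 1, j) ∈ P.Q ∧ (i, j) ∉ P.Q) ∨
      ((i - 1, j - 1) ∈ P.Q ∧ (i - 1, j) ∉ P.Q) ∨ ((i, j - 1) ∈ P.Q ∧ (i - 1, j - 1) ∉ P.Q) := by
    by_contra hc
    tauto
  rcases key with ⟨a, b⟩ | ⟨a, b⟩ | ⟨a, b⟩ | ⟨a, b⟩
  · obtain ⟨n, hn, h⟩ := idx0 a b
    refine ⟨n, hn, ?_⟩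
    rw [vert_of h]
    unfold tail
    simp
  · obtain ⟨n, hn, h⟩ := idx1 a b
    refine ⟨n, hn, ?_⟩
    rw [vert_of h]
    unfold tail
    simp
  · obtain ⟨n, hn, h⟩ := idx2 (i := i - 1) (j := j) a b
    refine ⟨n, hn, ?_⟩
    rw [vert_of h]
    unfold tail
    simp
  · obtain ⟨n, hn, h⟩ := idx3 (i := i) (j := j - 1) a b
    refine ⟨n, hn, ?_⟩
    rw [vert_of h]
    unfold tail
    simp

/-! ### Periodicity and uniqueness of the indices -/

lemma side_add_mul (n q : ℕ) : P.side (n + q * P.N) = ((P.side n).1, (P.side n).2 + 4 * q) := by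
  induction q with
  | zero => simp
  | succ q ih =>
    rw [Nat.succ_mul, ← add_assoc, P.side_add_N, ih]
    refine Prod.ext rfl ?_
    push_cast
    ring

lemma eqv_mod (n : ℕ) : Eqv (P.side n) (P.side (n % P.N)) := by
  have h := side_add_mul (P := P) (n % P.N) (n / P.N)
  rw [Nat.mod_add_div'] at h
  rw [h]
  exact ⟨rfl, by simp only; omega⟩

lemma N_pos (P : PType) : 0 < P.N := by
  have := P.hm0; have := P.hmN; omega

lemma idx_inj {n n' : ℕ} (h : Eqv (P.side n) (P.side n')) : n % P.N = n' % P.N := by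
  have h1 := (eqv_mod n).symm.trans (h.trans (eqv_mod n'))
  exact P.inj _ (Nat.mod_lt _ (N_pos P)) _ (Nat.mod_lt _ (N_pos P)) h1.1 h1.2

lemma vert_inj {n n' : ℕ} (h : P.vert n = P.vert n') : n % P.N = n' % P.N :=
  idx_inj (tail_inj P.good (P.isSide_side n) (P.isSide_side n') h)

lemma el_inj {n n' : ℕ} (h : P.vert n + P.vert (n + 1) = P.vert n' + P.vert (n' + 1)) :
    n % P.N = n' % P.N := by
  rw [el_eq, el_eq] at h
  exact idx_inj (lab_inj (P.isSide_side n) (P.isSide_side n') h)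

variable {A : ℕ → ℤ}

lemma Marks.add_mul (hA : Marks P A) (n q : ℕ) : A (n + q * P.N) = A n + 4 * q := by
  induction q with
  | zero => simp
  | succ q ih =>
    rw [Nat.succ_mul, ← add_assoc, hA.per, ih]
    push_cast
    ring

lemma Marks.mod (hA : Marks P A) {n n' : ℕ} (h : n % P.N = n' % P.N) : (A n - A n') % 4 = 0 := by
  have h1 := hA.add_mul (n % P.N) (n / P.N)
  have h2 := hA.add_mul (n' % P.N) (n' / P.N)
  rw [Nat.mod_add_div'] at h1 h2
  rw [h1, h2, h]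
  omega

lemma Marks.mod_succ (hA : Marks P A) {n n' : ℕ} (h : n % P.N = n' % P.N) :
    (A (n + 1) - A (n' + 1)) % 4 = 0 :=
  hA.mod (by rw [Nat.add_mod, h, ← Nat.add_mod])

lemma Marks.diff (hA : Marks P A) {n n' : ℕ} (h : n % P.N = n' % P.N) :
    A (n + 1) = A n ↔ A (n' + 1) = A n' := by
  have h1 := hA.mod h
  have h2 := hA.mod_succ h
  rcases hA.step n with a | a <;> rcases hA.step n' with b | b <;> omega

end walk

end Pool.Agent.H5.C3
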