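import Mathlib
import Pool.Agent.H5.C3.Elem

set_option autoImplicit false
open Finset

/-! # T3: classification of the boundary sides of the diamond polyomino -/

namespace Pool.Agent.H5.C3

open Pool.Agent.H75.Perc (dir dir_cases)
open Pool.Agent.Q1.M4 (Cell Good IsSide nextSide tail head Adj4 Conn4 PType Eqv tail_inj side_cells
  lab lab_eq_tail lab_inj dir_congr)
open Pool.Agent.H48.Q1 (fl fl_spec fl_eq fl_iff fl_step)

/-! ### One coordinate -/

section one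
variable {l : ℤ → ℤ}

/-- the first coordinate of a fibre -/
lemma fl_up (hl : StrictMono l) {x : ℤ} (h : fl l (x + 1) ≠ fl l x) :
    fl l (x + 1) = fl l x + 1 ∧ x + 1 = l (fl l x + 1) := by
  have h1 := (fl_step hl x).resolve_left h
  have h2 := fl_spec hl x
  have h3 := fl_spec hl (x + 1)
  rw [h1] at h3
  exact ⟨h1, by omega⟩

/-- no two steps in a short window -/
lemma fl_two {L : ℤ} (hl : Gap l L) (hL : 3 ≤ L) (x : ℤ) :
    fl l (x + 1) = fl l x ∨ fl l (x + 2) = fl l (x + 1) := by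
  have hm := hl.mono (by omega)
  by_contra hc
  push Not at hc
  have h1 := fl_up hm hc.1
  have h2 := fl_up hm (x := x + 1) (by rw [show x + 1 + 1 = x + 2 by ring]; exact hc.2)
  have h3 := hl (fl l x + 1)
  rw [h1.1] at h2
  omega

end one

/-! ### Pairs of points -/

/-- `q` is a diagonal neighbour of `p` -/
def Dg (p q : ℤ × ℤ) : Prop := (q.1 = p.1 + 1 ∨ q.1 = p.1 - 1) ∧ (q.2 = p.2 + 1 ∨ q.2 = p.2 - 1)

section cls
variable {Q : Finset Cell} {o : Cell → ℤ → Prop} {lx ly : ℤ → ℤ} {p q : ℤ × ℤ}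

/-- horizontal boundary edge -/
structure ClH (Q : Finset Cell) (o : Cell → ℤ → Prop) (lx ly : ℤ → ℤ) (p q : ℤ × ℤ) (i j : ℤ) :
    Prop where
  el : elm lx ly p q = (2 * i + 1, 2 * j)
  px : fl lx p.1 = 2 * i + 1
  qx : fl lx q.1 = 2 * i + 1
  ab : ((i, j) ∈ Q ∧ (i, j - 1) ∉ Q ∧ q.2 = p.2 - 1 ∧
      ((o (i, j) 0 ∧ p.2 = ly (2 * j)) ∨ (¬ o (i, j) 0 ∧ p.2 = ly (2 * j + 1)))) ∨
    ((i, j - 1) ∈ Q ∧ (i, j) ∉ Q ∧ q.2 = p.2 + 1 ∧
      ((o (i, j - 1) 2 ∧ p.2 + 1 = ly (2 * j + 1)) ∨ (¬ o (i, j - 1) 2 ∧ p.2 + 1 = ly (2 * j))))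

/-- vertical boundary edge -/
structure ClV (Q : Finset Cell) (o : Cell → ℤ → Prop) (lx ly : ℤ → ℤ) (p q : ℤ × ℤ) (i j : ℤ) :
    Prop where
  el : elm lx ly p q = (2 * i, 2 * j + 1)
  py : fl ly p.2 = 2 * j + 1
  qy : fl ly q.2 = 2 * j + 1
  ab : ((i - 1, j) ∈ Q ∧ (i, j) ∉ Q ∧ q.1 = p.1 + 1 ∧
      ((o (i - 1, j) 1 ∧ p.1 + 1 = lx (2 * i + 1)) ∨ (¬ o (i - 1, j) 1 ∧ p.1 + 1 = lx (2 * i)))) ∨
    ((i, j) ∈ Q ∧ (i - 1, j) ∉ Q ∧ q.1 = p.1 - 1 ∧
      ((o (i, j) 3 ∧ p.1 = lx (2 * i)) ∨ (¬ o (i, j) 3 ∧ p.1 = lx (2 * i + 1))))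

/-- boundary vertex -/
structure ClX (Q : Finset Cell) (lx ly : ℤ → ℤ) (p q : ℤ × ℤ) (i j : ℤ) : Prop where
  el : elm lx ly p q = (2 * i, 2 * j)
  n1 : ¬ ((i, j) ∈ Q ∧ (i - 1, j) ∈ Q ∧ (i - 1, j - 1) ∈ Q ∧ (i, j - 1) ∈ Q)
  n2 : ¬ ((i, j) ∉ Q ∧ (i - 1, j) ∉ Q ∧ (i - 1, j - 1) ∉ Q ∧ (i, j - 1) ∉ Q)

/-- the columns of two neighbours -/
lemma col_cases (hx : StrictMono lx) {x x' : ℤ} (h : x' = x + 1 ∨ x' = x - 1) :
    fl lx x' = fl lx x ∨ (fl lx x' = fl lx x + 1 ∧ x' = x + 1 ∧ x' = lx (fl lx x + 1)) ∨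
      (fl lx x' = fl lx x - 1 ∧ x' = x - 1 ∧ x = lx (fl lx x)) := by
  rcases h with rfl | rfl
  · by_cases h : fl lx (x + 1) = fl lx x
    · exact Or.inl h
    · have := fl_up hx h
      exact Or.inr (Or.inl ⟨this.1, rfl, this.2⟩)
  · by_cases h : fl lx (x - 1) = fl lx x
    · exact Or.inl h
    · have := fl_up hx (x := x - 1) (by rw [sub_add_cancel]; exact fun e => h e.symm)
      rw [sub_add_cancel] at this
      refine Or.inr (Or.inr ⟨by omega, rfl, ?_⟩)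
      rw [this.1]
      exact this.2

lemma Mm_block1 {i j : ℤ} (h : (i, j) ∈ Q ∧ (i - 1, j) ∈ Q ∧ (i - 1, j - 1) ∈ Q ∧ (i, j - 1) ∈ Q)
    {a b : ℤ} (ha : 2 * i - 1 ≤ a) (ha' : a ≤ 2 * i + 1) (hb : 2 * j - 1 ≤ b) (hb' : b ≤ 2 * j + 1) :
    Mm Q o (a, b) := by
  obtain ⟨h1, h2, h3, h4⟩ := h
  have hA : a = 2 * (i - 1) + 1 ∨ a = 2 * i ∨ a = 2 * i + 1 := by omega
  have hB : b = 2 * (j - 1) + 1 ∨ b = 2 * j ∨ b = 2 * j + 1 := by omega
  rcases hA with rfl | rfl | rfl <;> rcases hB with rfl | rfl | rfl <;>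
  simp only [Mm_oo, Mm_oe, Mm_eo, Mm_ee, Hz, Ve, Vx] <;> tauto

lemma Mm_block0 {i j : ℤ} (h : (i, j) ∉ Q ∧ (i - 1, j) ∉ Q ∧ (i - 1, j - 1) ∉ Q ∧ (i, j - 1) ∉ Q)
    {a b : ℤ} (ha : 2 * i - 1 ≤ a) (ha' : a ≤ 2 * i + 1) (hb : 2 * j - 1 ≤ b) (hb' : b ≤ 2 * j + 1) :
    ¬ Mm Q o (a, b) := by
  obtain ⟨h1, h2, h3, h4⟩ := h
  have hA : a = 2 * (i - 1) + 1 ∨ a = 2 * i ∨ a = 2 * i + 1 := by omega
  have hB : b = 2 * (j - 1) + 1 ∨ b = 2 * j ∨ b = 2 * j + 1 := by omega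
  rcases hA with rfl | rfl | rfl <;> rcases hB with rfl | rfl | rfl <;>
  simp only [Mm_oo, Mm_oe, Mm_eo, Mm_ee, Hz, Ve, Vx] <;> tauto

/-- **Classification.** -/
theorem cls (hx : StrictMono lx) (hy : StrictMono ly) (hd : Dg p q) (hp : Ins Q o lx ly p)
    (hq : ¬ Ins Q o lx ly q) : (∃ i j, ClH Q o lx ly p q i j) ∨ (∃ i j, ClV Q o lx ly p q i j) ∨
      ∃ i j, ClX Q lx ly p q i j := by
  obtain ⟨hd1, hd2⟩ := hd
  have cx := col_cases hx hd1
  have cy := col_cases hy hd2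
  unfold Ins at hp hq
  obtain ⟨a, ha⟩ : ∃ a, fl lx p.1 = a := ⟨_, rfl⟩
  obtain ⟨b, hb⟩ : ∃ b, fl ly p.2 = b := ⟨_, rfl⟩
  obtain ⟨a', ha'⟩ : ∃ a, fl lx q.1 = a := ⟨_, rfl⟩
  obtain ⟨b', hb'⟩ : ∃ b, fl ly q.2 = b := ⟨_, rfl⟩
  rw [ha, ha'] at cx
  rw [hb, hb'] at cy
  rw [ha, hb] at hp
  rw [ha', hb'] at hq
  have hel : elm lx ly p q = (ev a a', ev b b') := by unfold elm; rw [ha, hb, ha', hb']
  -- parities
  by_cases hax : a % 2 = 1 ∧ a' % 2 = 1
  · -- same odd column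
    have haa : a' = a := by omega
    subst haa
    obtain ⟨i, rfl⟩ : ∃ i, a' = 2 * i + 1 := ⟨a' / 2, by omega⟩
    have e1 : ev (2 * i + 1) (2 * i + 1) = 2 * i + 1 := by unfold ev; split_ifs <;> rfl
    by_cases hby : b % 2 = 1 ∧ b' % 2 = 1
    · exfalso
      have : b' = b := by omega
      rw [this] at hq
      exact hq hp
    · left
      rcases cy with h | ⟨h1, h2, h3⟩ | ⟨h1, h2, h3⟩
      · exfalso; rw [h] at hq; exact hq hp
      · -- `q` above `p`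
        subst h1
        rcases Int.emod_two_eq_zero_or_one b with hb0 | hb1
        · obtain ⟨j, rfl⟩ : ∃ j, b = 2 * j := ⟨b / 2, by omega⟩
          rw [Mm_oe] at hp
          rw [Mm_oo] at hq
          refine ⟨i, j, ?_, ha, ha', ?_⟩
          · rw [hel, e1]; unfold ev; rw [if_pos (by omega)]
          · right
            unfold Hz at hp
            refine ⟨by tauto, hq, h2, Or.inl ⟨by tauto, ?_⟩⟩
            rw [← h2]; exact h3
        · obtain ⟨j, rfl⟩ : ∃ j, b = 2 * (j - 1) + 1 := ⟨b / 2 + 1, by omega⟩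
          rw [show 2 * (j - 1) + 1 + 1 = 2 * j by ring] at hq hel h3
          rw [Mm_oo] at hp
          rw [Mm_oe] at hq
          refine ⟨i, j, ?_, ha, ha', ?_⟩
          · rw [hel, e1]; unfold ev; rw [if_neg (by omega)]
          · right
            unfold Hz at hq
            refine ⟨hp, by tauto, h2, Or.inr ⟨by tauto, ?_⟩⟩
            rw [← h2]; exact h3
      · -- `q` below `p`
        subst h1
        rcases Int.emod_two_eq_zero_or_one b with hb0 | hb1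
        · obtain ⟨j, rfl⟩ : ∃ j, b = 2 * j := ⟨b / 2, by omega⟩
          rw [show 2 * j - 1 = 2 * (j - 1) + 1 by ring] at hq hel
          rw [Mm_oe] at hp
          rw [Mm_oo] at hq
          refine ⟨i, j, ?_, ha, ha', ?_⟩
          · rw [hel, e1]; unfold ev; rw [if_pos (by omega)]
          · left
            unfold Hz at hp
            refine ⟨by tauto, hq, h2, Or.inl ⟨by tauto, h3⟩⟩
        · obtain ⟨j, rfl⟩ : ∃ j, b = 2 * j + 1 := ⟨b / 2, by omega⟩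
          rw [show 2 * j + 1 - 1 = 2 * j by ring] at hq hel
          rw [Mm_oo] at hp
          rw [Mm_oe] at hq
          refine ⟨i, j, ?_, ha, ha', ?_⟩
          · rw [hel, e1]; unfold ev; rw [if_neg (by omega)]
          · left
            unfold Hz at hq
            refine ⟨hp, by tauto, h2, Or.inr ⟨by tauto, h3⟩⟩
  · by_cases hby : b % 2 = 1 ∧ b' % 2 = 1
    · right; left
      have hbb : b' = b := by omega
      subst hbb
      obtain ⟨j, rfl⟩ : ∃ j, b' = 2 * j + 1 := ⟨b' / 2, by omega⟩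
      have e1 : ev (2 * j + 1) (2 * j + 1) = 2 * j + 1 := by unfold ev; split_ifs <;> rfl
      rcases cx with h | ⟨h1, h2, h3⟩ | ⟨h1, h2, h3⟩
      · exfalso; rw [h] at hq; exact hq hp
      · -- `q` right of `p`
        subst h1
        rcases Int.emod_two_eq_zero_or_one a with hb0 | hb1
        · obtain ⟨i, rfl⟩ : ∃ i, a = 2 * i := ⟨a / 2, by omega⟩
          rw [Mm_eo] at hp
          rw [Mm_oo] at hq
          refine ⟨i, j, ?_, hb, hb', ?_⟩
          · rw [hel, e1]; unfold ev; rw [if_pos (by omega)]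
          · left
            unfold Ve at hp
            refine ⟨by tauto, hq, h2, Or.inl ⟨by tauto, ?_⟩⟩
            rw [← h2]; exact h3
        · obtain ⟨i, rfl⟩ : ∃ i, a = 2 * (i - 1) + 1 := ⟨a / 2 + 1, by omega⟩
          rw [show 2 * (i - 1) + 1 + 1 = 2 * i by ring] at hq hel h3
          rw [Mm_oo] at hp
          rw [Mm_eo] at hq
          refine ⟨i, j, ?_, hb, hb', ?_⟩
          · rw [hel, e1]; unfold ev; rw [if_neg (by omega)]
          · left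
            unfold Ve at hq
            refine ⟨hp, by tauto, h2, Or.inr ⟨by tauto, ?_⟩⟩
            rw [← h2]; exact h3
      · -- `q` left of `p`
        subst h1
        rcases Int.emod_two_eq_zero_or_one a with hb0 | hb1
        · obtain ⟨i, rfl⟩ : ∃ i, a = 2 * i := ⟨a / 2, by omega⟩
          rw [show 2 * i - 1 = 2 * (i - 1) + 1 by ring] at hq hel
          rw [Mm_eo] at hp
          rw [Mm_oo] at hq
          refine ⟨i, j, ?_, hb, hb', ?_⟩
          · rw [hel, e1]; unfold ev; rw [if_pos (by omega)]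
          · right
            unfold Ve at hp
            refine ⟨by tauto, hq, h2, Or.inl ⟨by tauto, h3⟩⟩
        · obtain ⟨i, rfl⟩ : ∃ i, a = 2 * i + 1 := ⟨a / 2, by omega⟩
          rw [show 2 * i + 1 - 1 = 2 * i by ring] at hq hel
          rw [Mm_oo] at hp
          rw [Mm_eo] at hq
          refine ⟨i, j, ?_, hb, hb', ?_⟩
          · rw [hel, e1]; unfold ev; rw [if_neg (by omega)]
          · right
            unfold Ve at hq
            refine ⟨hp, by tauto, h2, Or.inr ⟨by tauto, h3⟩⟩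
    · right; right
      obtain ⟨i, hi⟩ : ∃ i, ev a a' = 2 * i := by
        refine ⟨ev a a' / 2, ?_⟩
        unfold ev
        split_ifs <;> omega
      obtain ⟨j, hj⟩ : ∃ j, ev b b' = 2 * j := by
        refine ⟨ev b b' / 2, ?_⟩
        unfold ev
        split_ifs <;> omega
      have r1 : 2 * i - 1 ≤ a ∧ a ≤ 2 * i + 1 ∧ 2 * i - 1 ≤ a' ∧ a' ≤ 2 * i + 1 := by
        unfold ev at hi
        split_ifs at hi <;> omega
      have r2 : 2 * j - 1 ≤ b ∧ b ≤ 2 * j + 1 ∧ 2 * j - 1 ≤ b' ∧ b' ≤ 2 * j + 1 := by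
        unfold ev at hj
        split_ifs at hj <;> omega
      refine ⟨i, j, by rw [hel, hi, hj], fun h => ?_, fun h => ?_⟩
      · exact hq (Mm_block1 h r1.2.2.1 r1.2.2.2 r2.2.2.1 r2.2.2.2)
      · exact Mm_block0 h r1.1 r1.2.1 r2.1 r2.2.1 hp

end cls

end Pool.Agent.H5.C3
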