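import Mathlib
import Pool.Agent.H5.C3.Cls

set_option autoImplicit false
open Finset

/-! # T3: labels of the boundary sides of the diamond polyomino: definitions and statement -/

namespace Pool.Agent.H5.C3

open Pool.Agent.H75.Perc (dir dir_cases)
open Pool.Agent.Q1.M4 (Cell Good IsSide nextSide tail head Adj4 Conn4 PType Eqv tail_inj side_cells
  lab lab_eq_tail lab_inj dir_congr)
open Pool.Agent.H48.Q1 (fl fl_spec fl_eq fl_iff fl_step)

/-- first number `≥ a` with `· + b` odd -/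
def fx (a b : ℤ) : ℤ := a + (a + b + 1) % 2

open Classical in
/-- lowest row over a horizontal edge below the cell `c` -/
noncomputable def b0 (o : Cell → ℤ → Prop) (ly : ℤ → ℤ) (c : Cell) : ℤ :=
  if o c 0 then ly (2 * c.2) else ly (2 * c.2 + 1)

open Classical in
/-- last column left of the right edge of the cell `c` -/
noncomputable def b1 (o : Cell → ℤ → Prop) (lx : ℤ → ℤ) (c : Cell) : ℤ :=
  if o c 1 then lx (2 * c.1 + 3) - 1 else lx (2 * c.1 + 2) - 1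

open Classical in
/-- last row below the upper edge of the cell `c` -/
noncomputable def b2 (o : Cell → ℤ → Prop) (ly : ℤ → ℤ) (c : Cell) : ℤ :=
  if o c 2 then ly (2 * c.2 + 3) - 1 else ly (2 * c.2 + 2) - 1

open Classical in
/-- first column right of the left edge of the cell `c` -/
noncomputable def b3 (o : Cell → ℤ → Prop) (lx : ℤ → ℤ) (c : Cell) : ℤ :=
  if o c 3 then lx (2 * c.1) else lx (2 * c.1 + 1)

/-- **Tip**: centre of the diamond at which the label changes at the side `s` of `P` -/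
noncomputable def tip (o : Cell → ℤ → Prop) (lx ly : ℤ → ℤ) (s : Cell × ℤ) : ℤ × ℤ :=
  if s.2 % 4 = 0 then (fx (lx (2 * s.1.1 + 1) + 6) (b0 o ly s.1), b0 o ly s.1)
  else if s.2 % 4 = 1 then (b1 o lx s.1, fx (ly (2 * s.1.2 + 1) + 6) (b1 o lx s.1))
  else if s.2 % 4 = 2 then (fx (lx (2 * s.1.1 + 1) + 6) (b2 o ly s.1), b2 o ly s.1)
  else (b3 o lx s.1, fx (ly (2 * s.1.2 + 1) + 6) (b3 o lx s.1))

/-- the side `σ` of the diamond polyomino at the side `s` of `P` is before the tip `T` or starts it -/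
def Bef (s : Cell × ℤ) (T : ℤ × ℤ) (σ : Cell × ℤ) : Prop :=
  if s.2 % 4 = 0 then (ctr σ.1).1 < T.1 ∨ ((ctr σ.1).1 = T.1 ∧ σ.2 % 4 = 3)
  else if s.2 % 4 = 1 then (ctr σ.1).2 < T.2 ∨ ((ctr σ.1).2 = T.2 ∧ σ.2 % 4 = 0)
  else if s.2 % 4 = 2 then T.1 < (ctr σ.1).1 ∨ ((ctr σ.1).1 = T.1 ∧ σ.2 % 4 = 1)
  else T.2 < (ctr σ.1).2 ∨ ((ctr σ.1).2 = T.2 ∧ σ.2 % 4 = 2)

section
variable (P : PType) (o : Cell → ℤ → Prop) (A : ℕ → ℤ) (lx ly : ℤ → ℤ)

/-- **The label** `m` (modulo `4`) of the side `σ`. -/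
def LabS (σ : Cell × ℤ) (m : ℤ) : Prop :=
  (∃ n, eS lx ly σ = P.vert n + P.vert n ∧ (A n - m) % 4 = 0) ∨
  (∃ n, eS lx ly σ = P.vert n + P.vert (n + 1) ∧ (A n - m) % 4 = 0 ∧
    (A (n + 1) = A n ∨ Bef (P.side n) (tip o lx ly (P.side n)) σ)) ∨
  (∃ n, eS lx ly σ = P.vert n + P.vert (n + 1) ∧ (A (n + 1) - m) % 4 = 0 ∧
    (A (n + 1) = A n ∨ ¬ Bef (P.side n) (tip o lx ly (P.side n)) σ))

/-- the tip side of the side `n` of `P` -/
noncomputable def tipS (n : ℕ) : Cell × ℤ := (cel (tip o lx ly (P.side n)), (P.side n).2 - 1)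

/-- `σ` is the tip side of a marked side of `P` -/
def IsTip (σ : Cell × ℤ) : Prop := ∃ n, A (n + 1) = A n + 1 ∧ Eqv σ (tipS P o lx ly n)

end

/-- **Statement of T3** (for every type, every `o`, every marking). -/
structure StepSt (P : PType) (o : Cell → ℤ → Prop) (A : ℕ → ℤ) (lx ly : ℤ → ℤ) : Prop where
  ex : ∀ σ, IsSide (Dq P.Q o lx ly) σ → ∃ m, LabS P o A lx ly σ m
  lb : ∀ σ m, LabS P o A lx ly σ m → Lb P A lx ly σ m
  step : ∀ σ m, IsSide (Dq P.Q o lx ly) σ → LabS P o A lx ly σ m →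
    (¬ IsTip P o A lx ly σ ∧ LabS P o A lx ly (nextSide (Dq P.Q o lx ly) σ) m) ∨
    (IsTip P o A lx ly σ ∧ nextSide (Dq P.Q o lx ly) σ = (σ.1, σ.2 + 1) ∧
      LabS P o A lx ly (nextSide (Dq P.Q o lx ly) σ) (m + 1))
  side : ∀ n, IsSide (Dq P.Q o lx ly) (tipS P o lx ly n)
  inj : ∀ n n', Eqv (tipS P o lx ly n) (tipS P o lx ly n') → n % P.N = n' % P.N

/-- T3 -/
def StStep : Prop := ∀ (P : PType) (o : Cell → ℤ → Prop) (lx ly : ℤ → ℤ), Gap lx 16 → Gap ly 16 →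
  ∀ A : ℕ → ℤ, Marks P A → StepSt P o A lx ly

end Pool.Agent.H5.C3
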