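import Mathlib
import Pool.Agent.H5.C3.Step

set_option autoImplicit false
open Finset

/-! # T3, proof: moves, windows -/

namespace Pool.Agent.H5.C3

open Pool.Agent.H75.Perc (dir dir_cases)
open Pool.Agent.Q1.M4 (Cell Good IsSide nextSide tail head Adj4 Conn4 PType Eqv tail_inj side_cells
  lab lab_eq_tail lab_inj dir_congr)
open Pool.Agent.H48.Q1 (fl fl_spec fl_eq fl_iff fl_step)

lemma fx_spec (a b : ℤ) : a ≤ fx a b ∧ fx a b ≤ a + 1 ∧ (fx a b + b) % 2 = 1 := by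
  unfold fx
  refine ⟨?_, ?_, ?_⟩ <;> omega

/-- outer point of a side -/
def cq (σ : Cell × ℤ) : ℤ × ℤ := ctr (σ.1 + dir (σ.2 - 1))

lemma ctr_add (c : Cell) (k : ℤ) : ctr (c + dir k) =
    ((ctr c).1 + ((dir k).1 - (dir k).2), (ctr c).2 + ((dir k).1 + (dir k).2)) := by
  unfold ctr
  refine Prod.ext ?_ ?_ <;> simp only [Prod.fst_add, Prod.snd_add] <;> ring

lemma cq_val (σ : Cell × ℤ) :
    (σ.2 % 4 = 0 ∧ (cq σ).1 = (ctr σ.1).1 + 1 ∧ (cq σ).2 = (ctr σ.1).2 - 1) ∨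
    (σ.2 % 4 = 1 ∧ (cq σ).1 = (ctr σ.1).1 + 1 ∧ (cq σ).2 = (ctr σ.1).2 + 1) ∨
    (σ.2 % 4 = 2 ∧ (cq σ).1 = (ctr σ.1).1 - 1 ∧ (cq σ).2 = (ctr σ.1).2 + 1) ∨
    (σ.2 % 4 = 3 ∧ (cq σ).1 = (ctr σ.1).1 - 1 ∧ (cq σ).2 = (ctr σ.1).2 - 1) := by
  unfold cq
  rw [ctr_add]
  rcases dir_cases (σ.2 - 1) with ⟨h, e⟩ | ⟨h, e⟩ | ⟨h, e⟩ | ⟨h, e⟩ <;> rw [e] <;> simp only
  · right; left; refine ⟨by omega, by ring, by ring⟩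
  · right; right; left; refine ⟨by omega, by ring, by ring⟩
  · right; right; right; refine ⟨by omega, by ring, by ring⟩
  · left; refine ⟨by omega, by ring, by ring⟩

lemma Dg_cq (σ : Cell × ℤ) : Dg (ctr σ.1) (cq σ) := by
  unfold Dg
  rcases cq_val σ with h | h | h | h <;> omega

/-- positions of a diagonal step -/
lemma ctr_dir (c : Cell) (k : ℤ) :
    (k % 4 = 0 ∧ (ctr (c + dir k)).1 = (ctr c).1 + 1 ∧ (ctr (c + dir k)).2 = (ctr c).2 + 1) ∨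
    (k % 4 = 1 ∧ (ctr (c + dir k)).1 = (ctr c).1 - 1 ∧ (ctr (c + dir k)).2 = (ctr c).2 + 1) ∨
    (k % 4 = 2 ∧ (ctr (c + dir k)).1 = (ctr c).1 - 1 ∧ (ctr (c + dir k)).2 = (ctr c).2 - 1) ∨
    (k % 4 = 3 ∧ (ctr (c + dir k)).1 = (ctr c).1 + 1 ∧ (ctr (c + dir k)).2 = (ctr c).2 - 1) := by
  rw [ctr_add]
  rcases dir_cases k with ⟨h, e⟩ | ⟨h, e⟩ | ⟨h, e⟩ | ⟨h, e⟩ <;> rw [e] <;> simp only
  · left; refine ⟨by omega, by ring, by ring⟩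
  · right; left; refine ⟨by omega, by ring, by ring⟩
  · right; right; left; refine ⟨by omega, by ring, by ring⟩
  · right; right; right; refine ⟨by omega, by ring, by ring⟩

/-- the three moves -/
lemma next_cases (D : Finset Cell) (σ : Cell × ℤ) :
    nextSide D σ = (σ.1, σ.2 + 1) ∨ nextSide D σ = (σ.1 + dir σ.2, σ.2) ∨
      nextSide D σ = (σ.1 + dir σ.2 + dir (σ.2 - 1), σ.2 - 1) := by
  unfold nextSide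
  split_ifs
  · right; right; rfl
  · right; left; rfl
  · left; rfl

/-- the moves in coordinates: `t` = `0` (convex), `1` (straight), `2` (reflex) -/
lemma next_val (D : Finset Cell) (σ τ : Cell × ℤ) (hτ : τ = nextSide D σ) :
    (τ = (σ.1, σ.2 + 1) ∧ (ctr τ.1).1 = (ctr σ.1).1 ∧ (ctr τ.1).2 = (ctr σ.1).2) ∨
    (τ.2 = σ.2 ∧
      ((σ.2 % 4 = 0 ∧ (ctr τ.1).1 = (ctr σ.1).1 + 1 ∧ (ctr τ.1).2 = (ctr σ.1).2 + 1) ∨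
       (σ.2 % 4 = 1 ∧ (ctr τ.1).1 = (ctr σ.1).1 - 1 ∧ (ctr τ.1).2 = (ctr σ.1).2 + 1) ∨
       (σ.2 % 4 = 2 ∧ (ctr τ.1).1 = (ctr σ.1).1 - 1 ∧ (ctr τ.1).2 = (ctr σ.1).2 - 1) ∨
       (σ.2 % 4 = 3 ∧ (ctr τ.1).1 = (ctr σ.1).1 + 1 ∧ (ctr τ.1).2 = (ctr σ.1).2 - 1))) ∨
    (τ.2 = σ.2 - 1 ∧
      ((σ.2 % 4 = 0 ∧ (ctr τ.1).1 = (ctr σ.1).1 + 2 ∧ (ctr τ.1).2 = (ctr σ.1).2) ∨
       (σ.2 % 4 = 1 ∧ (ctr τ.1).1 = (ctr σ.1).1 ∧ (ctr τ.1).2 = (ctr σ.1).2 + 2) ∨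
       (σ.2 % 4 = 2 ∧ (ctr τ.1).1 = (ctr σ.1).1 - 2 ∧ (ctr τ.1).2 = (ctr σ.1).2) ∨
       (σ.2 % 4 = 3 ∧ (ctr τ.1).1 = (ctr σ.1).1 ∧ (ctr τ.1).2 = (ctr σ.1).2 - 2))) := by
  rcases next_cases D σ with h | h | h
  · left
    rw [hτ, h]
    exact ⟨rfl, rfl, rfl⟩
  · right; left
    rw [hτ, h]
    refine ⟨rfl, ?_⟩
    rcases ctr_dir σ.1 σ.2 with h1 | h1 | h1 | h1
    · exact Or.inl h1
    · exact Or.inr (Or.inl h1)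
    · exact Or.inr (Or.inr (Or.inl h1))
    · exact Or.inr (Or.inr (Or.inr h1))
  · right; right
    rw [hτ, h]
    refine ⟨rfl, ?_⟩
    simp only
    have h2 := ctr_dir (σ.1 + dir σ.2) (σ.2 - 1)
    rcases ctr_dir σ.1 σ.2 with h1 | h1 | h1 | h1
    · left; refine ⟨h1.1, ?_, ?_⟩ <;> omega
    · right; left; refine ⟨h1.1, ?_, ?_⟩ <;> omega
    · right; right; left; refine ⟨h1.1, ?_, ?_⟩ <;> omega
    · right; right; right; refine ⟨h1.1, ?_, ?_⟩ <;> omega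

/-- the window of a step -/
lemma window (D : Finset Cell) (σ τ : Cell × ℤ) (hτ : τ = nextSide D σ) :
    (∃ w, (w ≤ (ctr σ.1).1 ∧ (ctr σ.1).1 ≤ w + 2) ∧ (w ≤ (cq σ).1 ∧ (cq σ).1 ≤ w + 2) ∧
      (w ≤ (ctr τ.1).1 ∧ (ctr τ.1).1 ≤ w + 2) ∧ (w ≤ (cq τ).1 ∧ (cq τ).1 ≤ w + 2)) ∧
    (∃ w, (w ≤ (ctr σ.1).2 ∧ (ctr σ.1).2 ≤ w + 2) ∧ (w ≤ (cq σ).2 ∧ (cq σ).2 ≤ w + 2) ∧
      (w ≤ (ctr τ.1).2 ∧ (ctr τ.1).2 ≤ w + 2) ∧ (w ≤ (cq τ).2 ∧ (cq τ).2 ≤ w + 2)) := by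
  have h1 := cq_val σ
  have h2 := cq_val τ
  have h3 := next_val D σ τ hτ
  have h4 : (τ.2 = σ.2 + 1 ∧ (ctr τ.1).1 = (ctr σ.1).1 ∧ (ctr τ.1).2 = (ctr σ.1).2) ∨
    (τ.2 = σ.2 ∧
      ((σ.2 % 4 = 0 ∧ (ctr τ.1).1 = (ctr σ.1).1 + 1 ∧ (ctr τ.1).2 = (ctr σ.1).2 + 1) ∨
       (σ.2 % 4 = 1 ∧ (ctr τ.1).1 = (ctr σ.1).1 - 1 ∧ (ctr τ.1).2 = (ctr σ.1).2 + 1) ∨
       (σ.2 % 4 = 2 ∧ (ctr τ.1).1 = (ctr σ.1).1 - 1 ∧ (ctr τ.1).2 = (ctr σ.1).2 - 1) ∨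
       (σ.2 % 4 = 3 ∧ (ctr τ.1).1 = (ctr σ.1).1 + 1 ∧ (ctr τ.1).2 = (ctr σ.1).2 - 1))) ∨
    (τ.2 = σ.2 - 1 ∧
      ((σ.2 % 4 = 0 ∧ (ctr τ.1).1 = (ctr σ.1).1 + 2 ∧ (ctr τ.1).2 = (ctr σ.1).2) ∨
       (σ.2 % 4 = 1 ∧ (ctr τ.1).1 = (ctr σ.1).1 ∧ (ctr τ.1).2 = (ctr σ.1).2 + 2) ∨
       (σ.2 % 4 = 2 ∧ (ctr τ.1).1 = (ctr σ.1).1 - 2 ∧ (ctr τ.1).2 = (ctr σ.1).2) ∨
       (σ.2 % 4 = 3 ∧ (ctr τ.1).1 = (ctr σ.1).1 ∧ (ctr τ.1).2 = (ctr σ.1).2 - 2))) := by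
    rcases h3 with h | h | h
    · exact Or.inl ⟨by rw [h.1], h.2⟩
    · exact Or.inr (Or.inl h)
    · exact Or.inr (Or.inr h)
  clear h3 hτ
  generalize (ctr σ.1).1 = x at *
  generalize (ctr σ.1).2 = y at *
  generalize (ctr τ.1).1 = x' at *
  generalize (ctr τ.1).2 = y' at *
  generalize (cq σ).1 = u at *
  generalize (cq σ).2 = v at *
  generalize (cq τ).1 = u' at *
  generalize (cq τ).2 = v' at *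
  generalize σ.2 = k at *
  generalize τ.2 = k' at *
  constructor
  · refine ⟨if k % 4 = 0 then x else if k % 4 = 2 then x - 2 else x - 1, ?_⟩
    split_ifs <;> omega
  · refine ⟨if k % 4 = 1 then y else if k % 4 = 3 then y - 2 else y - 1, ?_⟩
    split_ifs <;> omega

end Pool.Agent.H5.C3
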