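import Mathlib
import Pool.Agent.H5.C3.StepA

set_option autoImplicit false
open Finset

/-! # T3, proof: elements of consecutive sides -/

namespace Pool.Agent.H5.C3

open Pool.Agent.H75.Perc (dir dir_cases)
open Pool.Agent.Q1.M4 (Cell Good IsSide nextSide tail head Adj4 Conn4 PType Eqv tail_inj side_cells
  lab lab_eq_tail lab_inj dir_congr isSide_next)
open Pool.Agent.H48.Q1 (fl fl_spec fl_eq fl_iff fl_step)

/-- one coordinate of a window -/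
lemma win1 {l : ℤ → ℤ} {L : ℤ} (hl : Gap l L) (hL : 3 ≤ L) (w : ℤ) :
    (∀ t, w ≤ t → t ≤ w + 2 → fl l t = fl l w) ∨
    ∃ i s : ℤ, (s = 1 ∨ s = -1) ∧ ∀ t, w ≤ t → t ≤ w + 2 →
      (fl l t = 2 * i ∨ fl l t = 2 * i + s) ∧ l (2 * i) - 2 ≤ t ∧ t ≤ l (2 * i + 1) + 1 := by
  have hm := hl.mono (by omega)
  obtain ⟨a, ha⟩ : ∃ a, fl l w = a := ⟨_, rfl⟩
  have s0 := fl_spec hm w
  rw [ha] at s0
  have cases3 : ∀ t, w ≤ t → t ≤ w + 2 → t = w ∨ t = w + 1 ∨ t = w + 2 := fun t h1 h2 => by omega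
  by_cases h1 : fl l (w + 1) = fl l w
  · by_cases h2 : fl l (w + 2) = fl l (w + 1)
    · left
      intro t t1 t2
      rcases cases3 t t1 t2 with rfl | rfl | rfl
      · rfl
      · exact h1
      · rw [h2, h1]
    · right
      have h3 := fl_up hm (x := w + 1) (by rw [show w + 1 + 1 = w + 2 by ring]; exact h2)
      rw [show w + 1 + 1 = w + 2 by ring, h1, ha] at h3
      rw [ha] at h1
      have g1 := hl a
      have g2 := hl (a + 1)
      rcases Int.even_or_odd' a with ⟨i, hi | hi⟩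
      · refine ⟨i, 1, Or.inl rfl, fun t t1 t2 => ?_⟩
        subst hi
        rcases cases3 t t1 t2 with rfl | rfl | rfl
        · exact ⟨Or.inl ha, by omega, by omega⟩
        · exact ⟨Or.inl h1, by omega, by omega⟩
        · exact ⟨Or.inr h3.1, by omega, by omega⟩
      · refine ⟨i + 1, -1, Or.inr rfl, fun t t1 t2 => ?_⟩
        subst hi
        rw [show 2 * i + 1 + 1 = 2 * (i + 1) by ring] at h3 g2
        rcases cases3 t t1 t2 with rfl | rfl | rfl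
        · exact ⟨Or.inr (by rw [ha]; ring), by omega, by omega⟩
        · exact ⟨Or.inr (by rw [h1]; ring), by omega, by omega⟩
        · exact ⟨Or.inl h3.1, by omega, by omega⟩
  · right
    have h3 := fl_up hm h1
    have h2 : fl l (w + 2) = fl l (w + 1) := (fl_two hl hL w).resolve_left h1
    rw [h3.1, ha] at h2
    rw [ha] at h3
    have g1 := hl a
    have g2 := hl (a + 1)
    rcases Int.even_or_odd' a with ⟨i, hi | hi⟩
    · refine ⟨i, 1, Or.inl rfl, fun t t1 t2 => ?_⟩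
      subst hi
      rcases cases3 t t1 t2 with rfl | rfl | rfl
      · exact ⟨Or.inl ha, by omega, by omega⟩
      · exact ⟨Or.inr h3.1, by omega, by omega⟩
      · exact ⟨Or.inr h2, by omega, by omega⟩
    · refine ⟨i + 1, -1, Or.inr rfl, fun t t1 t2 => ?_⟩
      subst hi
      rw [show 2 * i + 1 + 1 = 2 * (i + 1) by ring] at h3 h2 g2
      rcases cases3 t t1 t2 with rfl | rfl | rfl
      · exact ⟨Or.inr (by rw [ha]; ring), by omega, by omega⟩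
      · exact ⟨Or.inl h3.1, by omega, by omega⟩
      · exact ⟨Or.inl h2, by omega, by omega⟩

lemma ev_self (a : ℤ) : ev a a = a := by unfold ev; split_ifs <;> rfl

lemma ev_two {i s a b : ℤ} (hs : s = 1 ∨ s = -1) (ha : a = 2 * i ∨ a = 2 * i + s)
    (hb : b = 2 * i ∨ b = 2 * i + s) (h : a ≠ b) : ev a b = 2 * i := by
  unfold ev
  split_ifs <;> omega

/-- the elements at the vertex `(i, j)` -/
def Star (i j : ℤ) (e : ℤ × ℤ) : Prop :=
  (e.1 = 2 * i ∧ e.2 = 2 * j) ∨ (e.1 = 2 * i + 1 ∧ e.2 = 2 * j) ∨ (e.1 = 2 * i - 1 ∧ e.2 = 2 * j) ∨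
    (e.1 = 2 * i ∧ e.2 = 2 * j + 1) ∨ (e.1 = 2 * i ∧ e.2 = 2 * j - 1)

/-- `p` is near the vertex `(i, j)` -/
def Near (lx ly : ℤ → ℤ) (i j : ℤ) (p : ℤ × ℤ) : Prop :=
  (lx (2 * i) - 2 ≤ p.1 ∧ p.1 ≤ lx (2 * i + 1) + 1) ∧ (ly (2 * j) - 2 ≤ p.2 ∧ p.2 ≤ ly (2 * j + 1) + 1)

section
variable {Q : Finset Cell} {o : Cell → ℤ → Prop} {lx ly : ℤ → ℤ}

lemma ins_of_side (hx : StrictMono lx) (hy : StrictMono ly) {σ : Cell × ℤ}
    (h : IsSide (Dq Q o lx ly) σ) : Ins Q o lx ly (ctr σ.1) ∧ ¬ Ins Q o lx ly (cq σ) :=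
  ⟨(mem_Dq hx hy).1 h.1, fun hc => h.2 ((mem_Dq hx hy).2 hc)⟩

lemma eS_eq (σ : Cell × ℤ) : eS lx ly σ = elm lx ly (ctr σ.1) (cq σ) := rfl

/-- **Elements of consecutive sides.** -/
theorem el_step (hx : Gap lx 16) (hy : Gap ly 16) {σ : Cell × ℤ} (h : IsSide (Dq Q o lx ly) σ) :
    eS lx ly σ = eS lx ly (nextSide (Dq Q o lx ly) σ) ∨ ∃ i j, Star i j (eS lx ly σ) ∧
      Star i j (eS lx ly (nextSide (Dq Q o lx ly) σ)) ∧ Near lx ly i j (ctr σ.1) ∧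
      Near lx ly i j (ctr (nextSide (Dq Q o lx ly) σ).1) := by
  have hmx := hx.mono (by norm_num)
  have hmy := hy.mono (by norm_num)
  obtain ⟨τ, hτ⟩ : ∃ τ, τ = nextSide (Dq Q o lx ly) σ := ⟨_, rfl⟩
  have hs2 : IsSide (Dq Q o lx ly) τ := by rw [hτ]; exact isSide_next h
  have i1 := ins_of_side hmx hmy h
  have i2 := ins_of_side hmx hmy hs2
  obtain ⟨⟨w, a1, a2, a3, a4⟩, ⟨w', b1, b2, b3, b4⟩⟩ := window _ _ _ hτ
  rw [← hτ, eS_eq, eS_eq]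
  have key : ∀ {p q : ℤ × ℤ}, Ins Q o lx ly p → ¬ Ins Q o lx ly q → fl lx p.1 = fl lx q.1 →
      fl ly p.2 ≠ fl ly q.2 := by
    intro p q hp hq h1 h2
    unfold Ins at hp hq
    rw [h1, h2] at hp
    exact hq hp
  rcases win1 hx (by norm_num) w with hA | ⟨i, s, hs, hA⟩ <;>
    rcases win1 hy (by norm_num) w' with hB | ⟨j, s', hs', hB⟩
  · -- no jump
    exact absurd (by rw [hB _ b1.1 b1.2, hB _ b2.1 b2.2])
      (key i1.1 i1.2 (by rw [hA _ a1.1 a1.2, hA _ a2.1 a2.2]))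
  · left
    have n1 := key i1.1 i1.2 (by rw [hA _ a1.1 a1.2, hA _ a2.1 a2.2])
    have n2 := key i2.1 i2.2 (by rw [hA _ a3.1 a3.2, hA _ a4.1 a4.2])
    unfold elm
    rw [hA _ a1.1 a1.2, hA _ a2.1 a2.2, hA _ a3.1 a3.2, hA _ a4.1 a4.2,
      ev_two hs' (hB _ b1.1 b1.2).1 (hB _ b2.1 b2.2).1 n1,
      ev_two hs' (hB _ b3.1 b3.2).1 (hB _ b4.1 b4.2).1 n2]
  · left
    have n1 : fl lx (ctr σ.1).1 ≠ fl lx (cq σ).1 := fun hc =>
      key i1.1 i1.2 hc (by rw [hB _ b1.1 b1.2, hB _ b2.1 b2.2])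
    have n2 : fl lx (ctr τ.1).1 ≠ fl lx (cq τ).1 := fun hc =>
      key i2.1 i2.2 hc (by rw [hB _ b3.1 b3.2, hB _ b4.1 b4.2])
    unfold elm
    rw [hB _ b1.1 b1.2, hB _ b2.1 b2.2, hB _ b3.1 b3.2, hB _ b4.1 b4.2,
      ev_two hs (hA _ a1.1 a1.2).1 (hA _ a2.1 a2.2).1 n1,
      ev_two hs (hA _ a3.1 a3.2).1 (hA _ a4.1 a4.2).1 n2]
  · right
    have st : ∀ {p q : ℤ × ℤ}, Ins Q o lx ly p → ¬ Ins Q o lx ly q →
        (w ≤ p.1 ∧ p.1 ≤ w + 2) → (w ≤ q.1 ∧ q.1 ≤ w + 2) → (w' ≤ p.2 ∧ p.2 ≤ w' + 2) →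
        (w' ≤ q.2 ∧ q.2 ≤ w' + 2) → Star i j (elm lx ly p q) := by
      intro p q hp hq c1 c2 c3 c4
      have d1 := (hA _ c1.1 c1.2).1
      have d2 := (hA _ c2.1 c2.2).1
      have d3 := (hB _ c3.1 c3.2).1
      have d4 := (hB _ c4.1 c4.2).1
      unfold elm Star
      simp only
      by_cases h1 : fl lx p.1 = fl lx q.1
      · have h2 := key hp hq h1
        rw [ev_two hs' d3 d4 h2, h1, ev_self]
        omega
      · rw [ev_two hs d1 d2 h1]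
        by_cases h2 : fl ly p.2 = fl ly q.2
        · rw [h2, ev_self]
          omega
        · rw [ev_two hs' d3 d4 h2]
          omega
    exact ⟨i, j, st i1.1 i1.2 a1 a2 b1 b2, st i2.1 i2.2 a3 a4 b3 b4,
      ⟨(hA _ a1.1 a1.2).2, (hB _ b1.1 b1.2).2⟩, ⟨(hA _ a3.1 a3.2).2, (hB _ b3.1 b3.2).2⟩⟩

end

end Pool.Agent.H5.C3
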