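import Mathlib
import Pool.Agent.H5.C3.StepB

set_option autoImplicit false
open Finset

/-! # T3, proof: sides at an edge, tips -/

namespace Pool.Agent.H5.C3

open Pool.Agent.H75.Perc (dir dir_cases)
open Pool.Agent.Q1.M4 (Cell Good IsSide nextSide tail head Adj4 Conn4 PType Eqv tail_inj side_cells
  lab lab_eq_tail lab_inj dir_congr isSide_next)
open Pool.Agent.H48.Q1 (fl fl_spec fl_eq fl_iff fl_step)

section
variable {P : PType} {o : Cell → ℤ → Prop} {lx ly : ℤ → ℤ}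

/-- the side `n` of the walk, in coordinates -/
lemma sd_cases (n : ℕ) : ∃ a b, (P.side n).1 = (a, b) ∧ (a, b) ∈ P.Q ∧
    (((P.side n).2 % 4 = 0 ∧ (a, b - 1) ∉ P.Q ∧ P.vert n = (a, b) ∧ P.vert (n + 1) = (a + 1, b)) ∨
    ((P.side n).2 % 4 = 1 ∧ (a + 1, b) ∉ P.Q ∧ P.vert n = (a + 1, b) ∧
      P.vert (n + 1) = (a + 1, b + 1)) ∨
    ((P.side n).2 % 4 = 2 ∧ (a, b + 1) ∉ P.Q ∧ P.vert n = (a + 1, b + 1) ∧
      P.vert (n + 1) = (a, b + 1)) ∨
    ((P.side n).2 % 4 = 3 ∧ (a - 1, b) ∉ P.Q ∧ P.vert n = (a, b + 1) ∧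
      P.vert (n + 1) = (a, b))) := by
  have h := P.isSide_side n
  have hv := P.vert_succ n
  have hv0 : P.vert n = tail (P.side n) := rfl
  obtain ⟨s, hs⟩ : ∃ s, P.side n = s := ⟨_, rfl⟩
  rw [hs] at h hv hv0 ⊢
  obtain ⟨⟨a, b⟩, k⟩ := s
  refine ⟨a, b, rfl, h.1, ?_⟩
  have h2 := h.2
  simp only at h2 ⊢
  rw [hv, hv0]
  unfold tail
  rcases dir_cases k with ⟨hk, e⟩ | ⟨hk, e⟩ | ⟨hk, e⟩ | ⟨hk, e⟩ <;>
  rcases dir_cases (k - 1) with ⟨hk', e'⟩ | ⟨hk', e'⟩ | ⟨hk', e'⟩ | ⟨hk', e'⟩ <;>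
  first
  | (exfalso; omega)
  | (rw [e'] at h2
     simp only [hk, e, Prod.mk_add_mk, add_zero, sub_eq_add_neg] at h2 ⊢
     simp
     simpa using h2)

/-- position of the sides at an edge -/
lemma edge_pos (hx : StrictMono lx) (hy : StrictMono ly) {σ : Cell × ℤ}
    (h : IsSide (Dq P.Q o lx ly) σ) {n : ℕ} (he : eS lx ly σ = P.vert n + P.vert (n + 1)) :
    ∃ a b, (P.side n).1 = (a, b) ∧
    (((P.side n).2 % 4 = 0 ∧ fl lx (ctr σ.1).1 = 2 * a + 1 ∧ (ctr σ.1).2 = b0 o ly (a, b) ∧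
      (cq σ).2 = (ctr σ.1).2 - 1) ∨
    ((P.side n).2 % 4 = 1 ∧ fl ly (ctr σ.1).2 = 2 * b + 1 ∧ (ctr σ.1).1 = b1 o lx (a, b) ∧
      (cq σ).1 = (ctr σ.1).1 + 1) ∨
    ((P.side n).2 % 4 = 2 ∧ fl lx (ctr σ.1).1 = 2 * a + 1 ∧ (ctr σ.1).2 = b2 o ly (a, b) ∧
      (cq σ).2 = (ctr σ.1).2 + 1) ∨
    ((P.side n).2 % 4 = 3 ∧ fl ly (ctr σ.1).2 = 2 * b + 1 ∧ (ctr σ.1).1 = b3 o lx (a, b) ∧
      (cq σ).1 = (ctr σ.1).1 - 1)) := by
  obtain ⟨a, b, hs, hab, hc⟩ := sd_cases (P := P) n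
  refine ⟨a, b, hs, ?_⟩
  have hi := ins_of_side hx hy h
  rw [eS_eq] at he
  rcases cls hx hy (Dg_cq σ) hi.1 hi.2 with ⟨i, j, hH⟩ | ⟨i, j, hV⟩ | ⟨i, j, hX⟩
  · have e := hH.el
    rw [he] at e
    have px := hH.px
    rcases hc with ⟨k, g, v, v'⟩ | ⟨k, g, v, v'⟩ | ⟨k, g, v, v'⟩ | ⟨k, g, v, v'⟩ <;>
      rw [v, v', Prod.mk_add_mk, Prod.mk.injEq] at e
    · obtain ⟨rfl, rfl⟩ : i = a ∧ j = b := by omega
      left
      refine ⟨k, px, ?_, ?_⟩
      · rcases hH.ab with ⟨-, -, -, h4⟩ | ⟨-, h4, -⟩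
        · unfold b0
          rcases h4 with ⟨h5, h6⟩ | ⟨h5, h6⟩
          · rw [if_pos h5]; exact h6
          · rw [if_neg h5]; exact h6
        · exact absurd hab h4
      · rcases hH.ab with ⟨-, -, h4, -⟩ | ⟨-, h4, -⟩
        · exact h4
        · exact absurd hab h4
    · exfalso; omega
    · obtain ⟨rfl, rfl⟩ : i = a ∧ j = b + 1 := by omega
      right; right; left
      have ab := hH.ab
      rw [show b + 1 - 1 = b by ring] at ab
      refine ⟨k, px, ?_, ?_⟩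
      · rcases ab with ⟨h4, -⟩ | ⟨-, -, -, h4⟩
        · exact absurd h4 g
        · unfold b2
          rcases h4 with ⟨h5, h6⟩ | ⟨h5, h6⟩
          · rw [if_pos h5]
            simp only
            rw [show 2 * b + 3 = 2 * (b + 1) + 1 by ring]
            omega
          · rw [if_neg h5]
            simp only
            rw [show 2 * b + 2 = 2 * (b + 1) by ring]
            omega
      · rcases ab with ⟨h4, -⟩ | ⟨-, -, h4, -⟩
        · exact absurd h4 g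
        · exact h4
    · exfalso; omega
  · have e := hV.el
    rw [he] at e
    have py := hV.py
    rcases hc with ⟨k, g, v, v'⟩ | ⟨k, g, v, v'⟩ | ⟨k, g, v, v'⟩ | ⟨k, g, v, v'⟩ <;>
      rw [v, v', Prod.mk_add_mk, Prod.mk.injEq] at e
    · exfalso; omega
    · obtain ⟨rfl, rfl⟩ : i = a + 1 ∧ j = b := by omega
      right; left
      have ab := hV.ab
      rw [show a + 1 - 1 = a by ring] at ab
      refine ⟨k, py, ?_, ?_⟩
      · rcases ab with ⟨-, -, -, h4⟩ | ⟨h4, -⟩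
        · unfold b1
          rcases h4 with ⟨h5, h6⟩ | ⟨h5, h6⟩
          · rw [if_pos h5]
            simp only
            rw [show 2 * a + 3 = 2 * (a + 1) + 1 by ring]
            omega
          · rw [if_neg h5]
            simp only
            rw [show 2 * a + 2 = 2 * (a + 1) by ring]
            omega
        · exact absurd h4 g
      · rcases ab with ⟨-, -, h4, -⟩ | ⟨h4, -⟩
        · exact h4
        · exact absurd h4 g
    · exfalso; omega
    · obtain ⟨rfl, rfl⟩ : i = a ∧ j = b := by omega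
      right; right; right
      refine ⟨k, py, ?_, ?_⟩
      · rcases hV.ab with ⟨-, h4, -⟩ | ⟨-, -, -, h4⟩
        · exact absurd hab h4
        · unfold b3
          rcases h4 with ⟨h5, h6⟩ | ⟨h5, h6⟩
          · rw [if_pos h5]; exact h6
          · rw [if_neg h5]; exact h6
      · rcases hV.ab with ⟨-, h4, -⟩ | ⟨-, -, h4, -⟩
        · exact absurd hab h4
        · exact h4
  · exfalso
    have e := hX.el
    rw [he] at e
    rcases hc with ⟨k, g, v, v'⟩ | ⟨k, g, v, v'⟩ | ⟨k, g, v, v'⟩ | ⟨k, g, v, v'⟩ <;>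
      rw [v, v', Prod.mk_add_mk, Prod.mk.injEq] at e <;> omega

/-- the element of a side is an edge or a vertex of the walk -/
lemma ex_el (hx : StrictMono lx) (hy : StrictMono ly) {σ : Cell × ℤ}
    (h : IsSide (Dq P.Q o lx ly) σ) : (∃ n, eS lx ly σ = P.vert n + P.vert n) ∨
      ∃ n, eS lx ly σ = P.vert n + P.vert (n + 1) := by
  have hi := ins_of_side hx hy h
  rw [eS_eq]
  rcases cls hx hy (Dg_cq σ) hi.1 hi.2 with ⟨i, j, hH⟩ | ⟨i, j, hV⟩ | ⟨i, j, hX⟩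
  · right
    rw [hH.el]
    rcases hH.ab with ⟨h1, h2, -⟩ | ⟨h1, h2, -⟩
    · obtain ⟨n, -, hn⟩ := idx0 h1 h2
      refine ⟨n, ?_⟩
      rw [el_of hn]
      unfold lab
      rw [show dir (((i, j), (0 : ℤ)).2 - 1) = (0, -1) from (by decide : dir ((0 : ℤ) - 1) = (0, -1))]
      refine Prod.ext ?_ ?_ <;> simp only [Prod.fst_add, Prod.snd_add] <;> ring
    · obtain ⟨n, -, hn⟩ := idx2 h1 h2
      refine ⟨n, ?_⟩
      rw [el_of hn]
      unfold lab
      rw [show dir (((i, j - 1), (2 : ℤ)).2 - 1) = (0, 1) from (by decide : dir ((2 : ℤ) - 1) = (0, 1))]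
      refine Prod.ext ?_ ?_ <;> simp only [Prod.fst_add, Prod.snd_add] <;> ring
  · right
    rw [hV.el]
    rcases hV.ab with ⟨h1, h2, -⟩ | ⟨h1, h2, -⟩
    · obtain ⟨n, -, hn⟩ := idx1 h1 h2
      refine ⟨n, ?_⟩
      rw [el_of hn]
      unfold lab
      rw [show dir (((i - 1, j), (1 : ℤ)).2 - 1) = (1, 0) from (by decide : dir ((1 : ℤ) - 1) = (1, 0))]
      refine Prod.ext ?_ ?_ <;> simp only [Prod.fst_add, Prod.snd_add] <;> ring
    · obtain ⟨n, -, hn⟩ := idx3 h1 h2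
      refine ⟨n, ?_⟩
      rw [el_of hn]
      unfold lab
      rw [show dir (((i, j), (3 : ℤ)).2 - 1) = (-1, 0) from (by decide : dir ((3 : ℤ) - 1) = (-1, 0))]
      refine Prod.ext ?_ ?_ <;> simp only [Prod.fst_add, Prod.snd_add] <;> ring
  · left
    obtain ⟨n, -, hn⟩ := exists_vert hX.n1 hX.n2
    refine ⟨n, ?_⟩
    rw [hX.el, hn]
    refine Prod.ext ?_ ?_ <;> simp only [Prod.fst_add, Prod.snd_add] <;> ring

end

end Pool.Agent.H5.C3
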