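import Mathlib
import Pool.Agent.H5.C3.StepC

set_option autoImplicit false
open Finset

/-! # T3, proof: labels near a vertex, tips -/

namespace Pool.Agent.H5.C3

open Pool.Agent.H75.Perc (dir dir_cases)
open Pool.Agent.Q1.M4 (Cell Good IsSide nextSide tail head Adj4 Conn4 PType Eqv tail_inj side_cells
  lab lab_eq_tail lab_inj dir_congr isSide_next)
open Pool.Agent.H48.Q1 (fl fl_spec fl_eq fl_iff fl_step)

section
variable {P : PType} {o : Cell → ℤ → Prop} {lx ly : ℤ → ℤ} {A : ℕ → ℤ}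

/-- the tip and the relation `Bef` in coordinates -/
lemma tip_cases (n : ℕ) (σ : Cell × ℤ) : ∃ a b, (P.side n).1 = (a, b) ∧ (a, b) ∈ P.Q ∧
    (((P.side n).2 % 4 = 0 ∧ (a, b - 1) ∉ P.Q ∧ P.vert n = (a, b) ∧ P.vert (n + 1) = (a + 1, b) ∧
      tip o lx ly (P.side n) = (fx (lx (2 * a + 1) + 6) (b0 o ly (a, b)), b0 o ly (a, b)) ∧
      (Bef (P.side n) (tip o lx ly (P.side n)) σ ↔
        (ctr σ.1).1 < (tip o lx ly (P.side n)).1 ∨
          ((ctr σ.1).1 = (tip o lx ly (P.side n)).1 ∧ σ.2 % 4 = 3))) ∨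
    ((P.side n).2 % 4 = 1 ∧ (a + 1, b) ∉ P.Q ∧ P.vert n = (a + 1, b) ∧
      P.vert (n + 1) = (a + 1, b + 1) ∧
      tip o lx ly (P.side n) = (b1 o lx (a, b), fx (ly (2 * b + 1) + 6) (b1 o lx (a, b))) ∧
      (Bef (P.side n) (tip o lx ly (P.side n)) σ ↔
        (ctr σ.1).2 < (tip o lx ly (P.side n)).2 ∨
          ((ctr σ.1).2 = (tip o lx ly (P.side n)).2 ∧ σ.2 % 4 = 0))) ∨
    ((P.side n).2 % 4 = 2 ∧ (a, b + 1) ∉ P.Q ∧ P.vert n = (a + 1, b + 1) ∧
      P.vert (n + 1) = (a, b + 1) ∧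
      tip o lx ly (P.side n) = (fx (lx (2 * a + 1) + 6) (b2 o ly (a, b)), b2 o ly (a, b)) ∧
      (Bef (P.side n) (tip o lx ly (P.side n)) σ ↔
        (tip o lx ly (P.side n)).1 < (ctr σ.1).1 ∨
          ((ctr σ.1).1 = (tip o lx ly (P.side n)).1 ∧ σ.2 % 4 = 1))) ∨
    ((P.side n).2 % 4 = 3 ∧ (a - 1, b) ∉ P.Q ∧ P.vert n = (a, b + 1) ∧
      P.vert (n + 1) = (a, b) ∧
      tip o lx ly (P.side n) = (b3 o lx (a, b), fx (ly (2 * b + 1) + 6) (b3 o lx (a, b))) ∧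
      (Bef (P.side n) (tip o lx ly (P.side n)) σ ↔
        (tip o lx ly (P.side n)).2 < (ctr σ.1).2 ∨
          ((ctr σ.1).2 = (tip o lx ly (P.side n)).2 ∧ σ.2 % 4 = 2)))) := by
  obtain ⟨a, b, hs, hab, hc⟩ := sd_cases (P := P) n
  refine ⟨a, b, hs, hab, ?_⟩
  rcases hc with ⟨k, g, v, v'⟩ | ⟨k, g, v, v'⟩ | ⟨k, g, v, v'⟩ | ⟨k, g, v, v'⟩
  · left
    refine ⟨k, g, v, v', ?_, ?_⟩
    · unfold tip; rw [if_pos k, hs]
    · unfold Bef; rw [if_pos k]
  · right; left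
    refine ⟨k, g, v, v', ?_, ?_⟩
    · unfold tip; rw [if_neg (by omega), if_pos k, hs]
    · unfold Bef; rw [if_neg (by omega), if_pos k]
  · right; right; left
    refine ⟨k, g, v, v', ?_, ?_⟩
    · unfold tip; rw [if_neg (by omega), if_neg (by omega), if_pos k, hs]
    · unfold Bef; rw [if_neg (by omega), if_neg (by omega), if_pos k]
  · right; right; right
    refine ⟨k, g, v, v', ?_, ?_⟩
    · unfold tip; rw [if_neg (by omega), if_neg (by omega), if_neg (by omega), hs]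
    · unfold Bef; rw [if_neg (by omega), if_neg (by omega), if_neg (by omega)]

lemma near_bef (hx : Gap lx 16) (hy : Gap ly 16) {i j : ℤ} {σ : Cell × ℤ}
    (hN : Near lx ly i j (ctr σ.1)) {n : ℕ} (hv : P.vert n = (i, j)) :
    Bef (P.side n) (tip o lx ly (P.side n)) σ := by
  obtain ⟨a, b, hs, hab, hc⟩ := tip_cases (P := P) (o := o) (lx := lx) (ly := ly) n σ
  obtain ⟨⟨h1, h2⟩, ⟨h3, h4⟩⟩ := hN
  rcases hc with ⟨k, g, v, v', ht, hb⟩ | ⟨k, g, v, v', ht, hb⟩ | ⟨k, g, v, v', ht, hb⟩ |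
      ⟨k, g, v, v', ht, hb⟩ <;> rw [hb, ht] <;> rw [v, Prod.mk.injEq] at hv <;>
    obtain ⟨rfl, rfl⟩ := hv <;> left <;> simp only
  · have := (fx_spec (lx (2 * a + 1) + 6) (b0 o ly (a, b))).1
    omega
  · have := (fx_spec (ly (2 * b + 1) + 6) (b1 o lx (a, b))).1
    omega
  · have := (fx_spec (lx (2 * a + 1) + 6) (b2 o ly (a, b))).2.1
    have h5 := hx (2 * a + 1)
    rw [show 2 * a + 1 + 1 = 2 * (a + 1) by ring] at h5
    omega
  · have := (fx_spec (ly (2 * b + 1) + 6) (b3 o lx (a, b))).2.1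
    have h5 := hy (2 * b + 1)
    rw [show 2 * b + 1 + 1 = 2 * (b + 1) by ring] at h5
    omega

lemma near_nbef (hx : Gap lx 16) (hy : Gap ly 16) {i j : ℤ} {σ : Cell × ℤ}
    (hN : Near lx ly i j (ctr σ.1)) {n : ℕ} (hv : P.vert (n + 1) = (i, j)) :
    ¬ Bef (P.side n) (tip o lx ly (P.side n)) σ := by
  obtain ⟨a, b, hs, hab, hc⟩ := tip_cases (P := P) (o := o) (lx := lx) (ly := ly) n σ
  obtain ⟨⟨h1, h2⟩, ⟨h3, h4⟩⟩ := hN
  rcases hc with ⟨k, g, v, v', ht, hb⟩ | ⟨k, g, v, v', ht, hb⟩ | ⟨k, g, v, v', ht, hb⟩ |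
      ⟨k, g, v, v', ht, hb⟩ <;> rw [hb, ht] <;> rw [v', Prod.mk.injEq] at hv <;>
    obtain ⟨rfl, rfl⟩ := hv <;> simp only
  · have := (fx_spec (lx (2 * a + 1) + 6) (b0 o ly (a, b))).2.1
    have h5 := hx (2 * a + 1)
    rw [show 2 * a + 1 + 1 = 2 * (a + 1) by ring] at h5
    omega
  · have := (fx_spec (ly (2 * b + 1) + 6) (b1 o lx (a, b))).2.1
    have h5 := hy (2 * b + 1)
    rw [show 2 * b + 1 + 1 = 2 * (b + 1) by ring] at h5
    omega
  · have := (fx_spec (lx (2 * a + 1) + 6) (b2 o ly (a, b))).1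
    omega
  · have := (fx_spec (ly (2 * b + 1) + 6) (b3 o lx (a, b))).1
    omega

lemma star_edge {i j : ℤ} {e : ℤ × ℤ} (hS : Star i j e) {n : ℕ}
    (he : e = P.vert n + P.vert (n + 1)) : P.vert n = (i, j) ∨ P.vert (n + 1) = (i, j) := by
  obtain ⟨a, b, hs, hab, hc⟩ := sd_cases (P := P) n
  unfold Star at hS
  rcases hc with ⟨k, g, v, v'⟩ | ⟨k, g, v, v'⟩ | ⟨k, g, v, v'⟩ | ⟨k, g, v, v'⟩ <;>
    rw [v, v', Prod.mk_add_mk] at he <;> rw [v, v', Prod.mk.injEq, Prod.mk.injEq] <;>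
    rw [he] at hS <;> simp only at hS <;> omega

lemma star_vert {i j : ℤ} {e : ℤ × ℤ} (hS : Star i j e) {n : ℕ}
    (he : e = P.vert n + P.vert n) : P.vert n = (i, j) := by
  unfold Star at hS
  rw [he] at hS
  obtain ⟨v, hv⟩ : ∃ v, P.vert n = v := ⟨_, rfl⟩
  obtain ⟨a, b⟩ := v
  rw [hv] at hS ⊢
  simp only [Prod.mk_add_mk] at hS
  rw [Prod.mk.injEq]
  omega

/-- **The label near a vertex.** -/
lemma lab_star (hA : Marks P A) (hx : Gap lx 16) (hy : Gap ly 16) {i j : ℤ} {σ : Cell × ℤ}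
    (hσ : IsSide (Dq P.Q o lx ly) σ) (hS : Star i j (eS lx ly σ)) (hN : Near lx ly i j (ctr σ.1))
    {n0 : ℕ} (h0 : P.vert n0 = (i, j)) {m : ℤ} :
    LabS P o A lx ly σ m ↔ (A n0 - m) % 4 = 0 := by
  constructor
  · rintro (⟨n, he, hm⟩ | ⟨n, he, hm, hb⟩ | ⟨n, he, hm, hb⟩)
    · have h1 := hA.mod (vert_inj ((star_vert hS he).trans h0.symm))
      omega
    · rcases star_edge hS he with h | h
      · have h1 := hA.mod (vert_inj (h.trans h0.symm))
        omega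
      · have h1 := hA.mod (vert_inj (h.trans h0.symm))
        have h2 := hb.resolve_right (near_nbef hx hy hN h)
        omega
    · rcases star_edge hS he with h | h
      · have h1 := hA.mod (vert_inj (h.trans h0.symm))
        have h2 := hb.resolve_right (fun hc => hc (near_bef hx hy hN h))
        omega
      · have h1 := hA.mod (vert_inj (h.trans h0.symm))
        omega
  · intro hm
    rcases ex_el (hx.mono (by norm_num)) (hy.mono (by norm_num)) hσ with ⟨n, he⟩ | ⟨n, he⟩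
    · have h1 := hA.mod (vert_inj ((star_vert hS he).trans h0.symm))
      exact Or.inl ⟨n, he, by omega⟩
    · rcases star_edge hS he with h | h
      · have h1 := hA.mod (vert_inj (h.trans h0.symm))
        exact Or.inr (Or.inl ⟨n, he, by omega, Or.inr (near_bef hx hy hN h)⟩)
      · have h1 := hA.mod (vert_inj (h.trans h0.symm))
        exact Or.inr (Or.inr ⟨n, he, by omega, Or.inr (near_nbef hx hy hN h)⟩)

/-- the vertex of a star is a vertex of the walk -/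
lemma exists_star (hx : StrictMono lx) (hy : StrictMono ly) {i j : ℤ} {σ : Cell × ℤ}
    (hσ : IsSide (Dq P.Q o lx ly) σ) (hS : Star i j (eS lx ly σ)) : ∃ n, P.vert n = (i, j) := by
  rcases ex_el hx hy hσ with ⟨n, he⟩ | ⟨n, he⟩
  · exact ⟨n, star_vert hS he⟩
  · rcases star_edge hS he with h | h
    · exact ⟨n, h⟩
    · exact ⟨n + 1, h⟩

end

end Pool.Agent.H5.C3
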