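import Mathlib
import Pool.Agent.H5.C3.StepD

set_option autoImplicit false
open Finset

/-! # T3, proof: the tip sides -/

namespace Pool.Agent.H5.C3

open Pool.Agent.H75.Perc (dir dir_cases)
open Pool.Agent.Q1.M4 (Cell Good IsSide nextSide tail head Adj4 Conn4 PType Eqv tail_inj side_cells
  lab lab_eq_tail lab_inj dir_congr isSide_next)
open Pool.Agent.H48.Q1 (fl fl_spec fl_eq fl_iff fl_step)

section rows
variable {Q : Finset Cell} {o : Cell → ℤ → Prop} {l : ℤ → ℤ} {a b : ℤ}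

lemma row0 (hl : Gap l 16) (h1 : (a, b) ∈ Q) (h2 : (a, b - 1) ∉ Q) :
    Mm Q o (2 * a + 1, fl l (b0 o l (a, b))) ∧ ¬ Mm Q o (2 * a + 1, fl l (b0 o l (a, b) - 1)) ∧
      ev (fl l (b0 o l (a, b))) (fl l (b0 o l (a, b) - 1)) = 2 * b := by
  have hm := hl.mono (by norm_num)
  have g0 := hl (2 * b)
  have g1 := hl (2 * b + 1)
  have g2 := hl (2 * b - 1)
  rw [sub_add_cancel] at g2
  unfold b0
  by_cases ho : o (a, b) 0
  · rw [if_pos ho]
    simp only
    rw [fl_eq hm (c := l (2 * b)) (a := 2 * b) le_rfl (by omega),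
      fl_eq hm (c := l (2 * b) - 1) (a := 2 * b - 1) (by omega) (by rw [sub_add_cancel]; omega)]
    refine ⟨?_, ?_, ?_⟩
    · rw [Mm_oe]; unfold Hz; tauto
    · rw [show 2 * b - 1 = 2 * (b - 1) + 1 by ring, Mm_oo]; exact h2
    · unfold ev; rw [if_pos (by omega)]
  · rw [if_neg ho]
    simp only
    rw [fl_eq hm (c := l (2 * b + 1)) (a := 2 * b + 1) le_rfl (by omega),
      fl_eq hm (c := l (2 * b + 1) - 1) (a := 2 * b) (by omega) (by omega)]
    refine ⟨?_, ?_, ?_⟩
    · rw [Mm_oo]; exact h1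
    · rw [Mm_oe]; unfold Hz; tauto
    · unfold ev; rw [if_neg (by omega)]

lemma row2 (hl : Gap l 16) (h1 : (a, b) ∈ Q) (h2 : (a, b + 1) ∉ Q) :
    Mm Q o (2 * a + 1, fl l (b2 o l (a, b))) ∧ ¬ Mm Q o (2 * a + 1, fl l (b2 o l (a, b) + 1)) ∧
      ev (fl l (b2 o l (a, b))) (fl l (b2 o l (a, b) + 1)) = 2 * b + 2 := by
  have hm := hl.mono (by norm_num)
  have g0 := hl (2 * b + 1)
  have g1 := hl (2 * b + 2)
  have g2 := hl (2 * b + 3)
  rw [show 2 * b + 1 + 1 = 2 * b + 2 by ring] at g0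
  rw [show 2 * b + 2 + 1 = 2 * b + 3 by ring] at g1
  unfold b2
  by_cases ho : o (a, b) 2
  · rw [if_pos ho]
    simp only
    rw [fl_eq hm (c := l (2 * b + 3) - 1) (a := 2 * b + 2) (by omega)
        (by rw [show 2 * b + 2 + 1 = 2 * b + 3 by ring]; omega),
      fl_eq hm (c := l (2 * b + 3) - 1 + 1) (a := 2 * b + 3) (by omega) (by omega)]
    refine ⟨?_, ?_, ?_⟩
    · rw [show 2 * b + 2 = 2 * (b + 1) by ring, Mm_oe]; unfold Hz
      rw [show b + 1 - 1 = b by ring]; tauto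
    · rw [show 2 * b + 3 = 2 * (b + 1) + 1 by ring, Mm_oo]; exact h2
    · unfold ev; rw [if_pos (by omega)]
  · rw [if_neg ho]
    simp only
    rw [fl_eq hm (c := l (2 * b + 2) - 1) (a := 2 * b + 1) (by omega)
        (by rw [show 2 * b + 1 + 1 = 2 * b + 2 by ring]; omega),
      fl_eq hm (c := l (2 * b + 2) - 1 + 1) (a := 2 * b + 2) (by omega)
        (by rw [show 2 * b + 2 + 1 = 2 * b + 3 by ring]; omega)]
    refine ⟨?_, ?_, ?_⟩
    · rw [Mm_oo]; exact h1
    · rw [show 2 * b + 2 = 2 * (b + 1) by ring, Mm_oe]; unfold Hz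
      rw [show b + 1 - 1 = b by ring]; tauto
    · unfold ev; rw [if_neg (by omega)]

lemma row1 (hl : Gap l 16) (h1 : (a, b) ∈ Q) (h2 : (a + 1, b) ∉ Q) :
    Mm Q o (fl l (b1 o l (a, b)), 2 * b + 1) ∧ ¬ Mm Q o (fl l (b1 o l (a, b) + 1), 2 * b + 1) ∧
      ev (fl l (b1 o l (a, b))) (fl l (b1 o l (a, b) + 1)) = 2 * a + 2 := by
  have hm := hl.mono (by norm_num)
  have g0 := hl (2 * a + 1)
  have g1 := hl (2 * a + 2)
  have g2 := hl (2 * a + 3)
  rw [show 2 * a + 1 + 1 = 2 * a + 2 by ring] at g0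
  rw [show 2 * a + 2 + 1 = 2 * a + 3 by ring] at g1
  unfold b1
  by_cases ho : o (a, b) 1
  · rw [if_pos ho]
    simp only
    rw [fl_eq hm (c := l (2 * a + 3) - 1) (a := 2 * a + 2) (by omega)
        (by rw [show 2 * a + 2 + 1 = 2 * a + 3 by ring]; omega),
      fl_eq hm (c := l (2 * a + 3) - 1 + 1) (a := 2 * a + 3) (by omega) (by omega)]
    refine ⟨?_, ?_, ?_⟩
    · rw [show 2 * a + 2 = 2 * (a + 1) by ring, Mm_eo]; unfold Ve
      rw [show a + 1 - 1 = a by ring]; tauto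
    · rw [show 2 * a + 3 = 2 * (a + 1) + 1 by ring, Mm_oo]; exact h2
    · unfold ev; rw [if_pos (by omega)]
  · rw [if_neg ho]
    simp only
    rw [fl_eq hm (c := l (2 * a + 2) - 1) (a := 2 * a + 1) (by omega)
        (by rw [show 2 * a + 1 + 1 = 2 * a + 2 by ring]; omega),
      fl_eq hm (c := l (2 * a + 2) - 1 + 1) (a := 2 * a + 2) (by omega)
        (by rw [show 2 * a + 2 + 1 = 2 * a + 3 by ring]; omega)]
    refine ⟨?_, ?_, ?_⟩
    · rw [Mm_oo]; exact h1
    · rw [show 2 * a + 2 = 2 * (a + 1) by ring, Mm_eo]; unfold Ve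
      rw [show a + 1 - 1 = a by ring]; tauto
    · unfold ev; rw [if_neg (by omega)]

lemma row3 (hl : Gap l 16) (h1 : (a, b) ∈ Q) (h2 : (a - 1, b) ∉ Q) :
    Mm Q o (fl l (b3 o l (a, b)), 2 * b + 1) ∧ ¬ Mm Q o (fl l (b3 o l (a, b) - 1), 2 * b + 1) ∧
      ev (fl l (b3 o l (a, b))) (fl l (b3 o l (a, b) - 1)) = 2 * a := by
  have hm := hl.mono (by norm_num)
  have g0 := hl (2 * a)
  have g1 := hl (2 * a + 1)
  have g2 := hl (2 * a - 1)
  rw [sub_add_cancel] at g2
  unfold b3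
  by_cases ho : o (a, b) 3
  · rw [if_pos ho]
    simp only
    rw [fl_eq hm (c := l (2 * a)) (a := 2 * a) le_rfl (by omega),
      fl_eq hm (c := l (2 * a) - 1) (a := 2 * a - 1) (by omega) (by rw [sub_add_cancel]; omega)]
    refine ⟨?_, ?_, ?_⟩
    · rw [Mm_eo]; unfold Ve; tauto
    · rw [show 2 * a - 1 = 2 * (a - 1) + 1 by ring, Mm_oo]; exact h2
    · unfold ev; rw [if_pos (by omega)]
  · rw [if_neg ho]
    simp only
    rw [fl_eq hm (c := l (2 * a + 1)) (a := 2 * a + 1) le_rfl (by omega),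
      fl_eq hm (c := l (2 * a + 1) - 1) (a := 2 * a) (by omega) (by omega)]
    refine ⟨?_, ?_, ?_⟩
    · rw [Mm_oo]; exact h1
    · rw [Mm_eo]; unfold Ve; tauto
    · unfold ev; rw [if_neg (by omega)]

/-- the positions around the middle of an edge -/
lemma fl_mid (hl : Gap l 16) {x : ℤ} (h1 : l (2 * a + 1) + 5 ≤ x) (h2 : x ≤ l (2 * a + 1) + 8) :
    fl l x = 2 * a + 1 := by
  have g1 := hl (2 * a + 1)
  exact fl_eq (hl.mono (by norm_num)) (by omega) (by omega)

end rows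

section
variable {P : PType} {o : Cell → ℤ → Prop} {lx ly : ℤ → ℤ} {A : ℕ → ℤ}

/-- **The tip sides.** -/
lemma tipS_facts (hx : Gap lx 16) (hy : Gap ly 16) (n : ℕ) :
    IsSide (Dq P.Q o lx ly) (tipS P o lx ly n) ∧
    eS lx ly (tipS P o lx ly n) = P.vert n + P.vert (n + 1) ∧
    ctr (tipS P o lx ly n).1 = tip o lx ly (P.side n) ∧
    Bef (P.side n) (tip o lx ly (P.side n)) (tipS P o lx ly n) := by
  have hmx := hx.mono (by norm_num)
  have hmy := hy.mono (by norm_num)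
  obtain ⟨a, b, hs, hab, hc⟩ := tip_cases (P := P) (o := o) (lx := lx) (ly := ly) n
    (tipS P o lx ly n)
  have hpar : ((tip o lx ly (P.side n)).1 + (tip o lx ly (P.side n)).2) % 2 = 1 := by
    rcases hc with ⟨k, g, v, v', ht, hb⟩ | ⟨k, g, v, v', ht, hb⟩ | ⟨k, g, v, v', ht, hb⟩ |
      ⟨k, g, v, v', ht, hb⟩ <;> rw [ht] <;> simp only
    · exact (fx_spec _ _).2.2
    · rw [add_comm]; exact (fx_spec _ _).2.2
    · exact (fx_spec _ _).2.2
    · rw [add_comm]; exact (fx_spec _ _).2.2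
  have hctr : ctr (tipS P o lx ly n).1 = tip o lx ly (P.side n) := ctr_cel hpar
  have h2 : (tipS P o lx ly n).2 = (P.side n).2 - 1 := rfl
  have hq := cq_val (tipS P o lx ly n)
  obtain ⟨q, hq'⟩ : ∃ q, cq (tipS P o lx ly n) = q := ⟨_, rfl⟩
  have goal : Ins P.Q o lx ly (tip o lx ly (P.side n)) ∧ ¬ Ins P.Q o lx ly q ∧
      elm lx ly (tip o lx ly (P.side n)) q = P.vert n + P.vert (n + 1) ∧
      Bef (P.side n) (tip o lx ly (P.side n)) (tipS P o lx ly n) := by
    rw [hq', hctr, h2] at hq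
    rcases hc with ⟨k, g, v, v', ht, hb⟩ | ⟨k, g, v, v', ht, hb⟩ | ⟨k, g, v, v', ht, hb⟩ |
      ⟨k, g, v, v', ht, hb⟩
    · obtain ⟨q1, q2⟩ : q.1 = (tip o lx ly (P.side n)).1 - 1 ∧
          q.2 = (tip o lx ly (P.side n)).2 - 1 := by omega
      have f := fx_spec (lx (2 * a + 1) + 6) (b0 o ly (a, b))
      have r := row0 (o := o) hy hab g
      refine ⟨?_, ?_, ?_, ?_⟩
      · rw [ht]; unfold Ins; simp only
        rw [fl_mid hx (a := a) (by omega) (by omega)]
        exact r.1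
      · unfold Ins; rw [q1, q2, ht]; simp only
        rw [fl_mid hx (a := a) (by omega) (by omega)]
        exact r.2.1
      · unfold elm; rw [q1, q2, ht]; simp only
        rw [fl_mid hx (a := a) (by omega) (by omega), fl_mid hx (a := a) (by omega) (by omega), ev_self, r.2.2, v, v',
          Prod.mk_add_mk, Prod.mk.injEq]
        omega
      · rw [hb, hctr, h2]; right; exact ⟨rfl, by omega⟩
    · obtain ⟨q1, q2⟩ : q.1 = (tip o lx ly (P.side n)).1 + 1 ∧
          q.2 = (tip o lx ly (P.side n)).2 - 1 := by omega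
      have f := fx_spec (ly (2 * b + 1) + 6) (b1 o lx (a, b))
      have r := row1 (o := o) hx hab g
      refine ⟨?_, ?_, ?_, ?_⟩
      · rw [ht]; unfold Ins; simp only
        rw [fl_mid hy (a := b) (by omega) (by omega)]
        exact r.1
      · unfold Ins; rw [q1, q2, ht]; simp only
        rw [fl_mid hy (a := b) (by omega) (by omega)]
        exact r.2.1
      · unfold elm; rw [q1, q2, ht]; simp only
        rw [fl_mid hy (a := b) (by omega) (by omega), fl_mid hy (a := b) (by omega) (by omega),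
          ev_self, r.2.2, v, v', Prod.mk_add_mk, Prod.mk.injEq]
        omega
      · rw [hb, hctr, h2]; right; exact ⟨rfl, by omega⟩
    · obtain ⟨q1, q2⟩ : q.1 = (tip o lx ly (P.side n)).1 + 1 ∧
          q.2 = (tip o lx ly (P.side n)).2 + 1 := by omega
      have f := fx_spec (lx (2 * a + 1) + 6) (b2 o ly (a, b))
      have r := row2 (o := o) hy hab g
      refine ⟨?_, ?_, ?_, ?_⟩
      · rw [ht]; unfold Ins; simp only
        rw [fl_mid hx (a := a) (by omega) (by omega)]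
        exact r.1
      · unfold Ins; rw [q1, q2, ht]; simp only
        rw [fl_mid hx (a := a) (by omega) (by omega)]
        exact r.2.1
      · unfold elm; rw [q1, q2, ht]; simp only
        rw [fl_mid hx (a := a) (by omega) (by omega), fl_mid hx (a := a) (by omega) (by omega), ev_self, r.2.2, v, v',
          Prod.mk_add_mk, Prod.mk.injEq]
        omega
      · rw [hb, hctr, h2]; right; exact ⟨rfl, by omega⟩
    · obtain ⟨q1, q2⟩ : q.1 = (tip o lx ly (P.side n)).1 - 1 ∧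
          q.2 = (tip o lx ly (P.side n)).2 + 1 := by omega
      have f := fx_spec (ly (2 * b + 1) + 6) (b3 o lx (a, b))
      have r := row3 (o := o) hx hab g
      refine ⟨?_, ?_, ?_, ?_⟩
      · rw [ht]; unfold Ins; simp only
        rw [fl_mid hy (a := b) (by omega) (by omega)]
        exact r.1
      · unfold Ins; rw [q1, q2, ht]; simp only
        rw [fl_mid hy (a := b) (by omega) (by omega)]
        exact r.2.1
      · unfold elm; rw [q1, q2, ht]; simp only
        rw [fl_mid hy (a := b) (by omega) (by omega), fl_mid hy (a := b) (by omega) (by omega),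
          ev_self, r.2.2, v, v', Prod.mk_add_mk, Prod.mk.injEq]
        omega
      · rw [hb, hctr, h2]; right; exact ⟨rfl, by omega⟩
  obtain ⟨g1, g2, g3, g4⟩ := goal
  refine ⟨⟨(mem_Dq hmx hmy).2 (by rw [hctr]; exact g1), fun hc' => ?_⟩, ?_, hctr, g4⟩
  · have := (mem_Dq hmx hmy).1 hc'
    exact g2 (by rw [← hq']; exact this)
  · rw [eS_eq, hctr, hq', g3]

end

end Pool.Agent.H5.C3
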