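import Mathlib
import Pool.Agent.H5.C3.StepE

set_option autoImplicit false
open Finset

/-! # T3: the step property of the labels -/

namespace Pool.Agent.H5.C3

open Pool.Agent.H75.Perc (dir dir_cases)
open Pool.Agent.Q1.M4 (Cell Good IsSide nextSide tail head Adj4 Conn4 PType Eqv tail_inj side_cells
  lab lab_eq_tail lab_inj dir_congr isSide_next)
open Pool.Agent.H48.Q1 (fl fl_spec fl_eq fl_iff fl_step)

section
variable {P : PType} {o : Cell → ℤ → Prop} {lx ly : ℤ → ℤ} {A : ℕ → ℤ}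

/-- **Zigzag along an edge.** -/
lemma zig (hx : Gap lx 16) (hy : Gap ly 16) {σ τ : Cell × ℤ} (hσ : IsSide (Dq P.Q o lx ly) σ)
    (hτ : τ = nextSide (Dq P.Q o lx ly) σ) {n : ℕ} (he : eS lx ly σ = P.vert n + P.vert (n + 1))
    (he' : eS lx ly τ = P.vert n + P.vert (n + 1)) :
    (τ = (σ.1, σ.2 + 1) ∧ Eqv σ (tipS P o lx ly n) ∧
      Bef (P.side n) (tip o lx ly (P.side n)) σ ∧ ¬ Bef (P.side n) (tip o lx ly (P.side n)) τ) ∨
    (¬ Eqv σ (tipS P o lx ly n) ∧
      (Bef (P.side n) (tip o lx ly (P.side n)) σ ↔ Bef (P.side n) (tip o lx ly (P.side n)) τ)) := by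
  have hmx := hx.mono (by norm_num)
  have hmy := hy.mono (by norm_num)
  have hs2 : IsSide (Dq P.Q o lx ly) τ := by rw [hτ]; exact isSide_next hσ
  obtain ⟨a, b, hs, e1⟩ := edge_pos hmx hmy hσ he
  obtain ⟨a', b', hs', e2⟩ := edge_pos hmx hmy hs2 he'
  obtain ⟨rfl, rfl⟩ : a = a' ∧ b = b' := by
    rw [hs] at hs'; exact ⟨congrArg Prod.fst hs', congrArg Prod.snd hs'⟩
  obtain ⟨a', b', hs', -, t1⟩ := tip_cases (P := P) (o := o) (lx := lx) (ly := ly) n σ
  obtain ⟨rfl, rfl⟩ : a = a' ∧ b = b' := by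
    rw [hs] at hs'; exact ⟨congrArg Prod.fst hs', congrArg Prod.snd hs'⟩
  obtain ⟨a', b', hs', -, t2⟩ := tip_cases (P := P) (o := o) (lx := lx) (ly := ly) n τ
  obtain ⟨rfl, rfl⟩ : a = a' ∧ b = b' := by
    rw [hs] at hs'; exact ⟨congrArg Prod.fst hs', congrArg Prod.snd hs'⟩
  have nv := next_val _ σ τ hτ
  have c1 := cq_val σ
  have c2 := cq_val τ
  have p1 := ctr_odd σ.1
  obtain ⟨T, hT⟩ : ∃ T, tip o lx ly (P.side n) = T := ⟨_, rfl⟩
  have htip : tipS P o lx ly n = (cel T, (P.side n).2 - 1) := by unfold tipS; rw [hT]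
  have eq_iff : Eqv σ (tipS P o lx ly n) ↔ (ctr σ.1).1 = T.1 ∧ (ctr σ.1).2 = T.2 ∧
      (σ.2 - ((P.side n).2 - 1)) % 4 = 0 := by
    have hc := (tipS_facts (P := P) (o := o) hx hy n).2.2.1
    rw [hT] at hc
    constructor
    · intro h
      have h1 : ctr σ.1 = T := by rw [h.1, hc]
      refine ⟨by rw [h1], by rw [h1], ?_⟩
      have := h.2
      rw [htip] at this
      exact this
    · rintro ⟨h1, h2, h3⟩
      refine ⟨ctr_inj ?_, ?_⟩
      · rw [hc]; exact Prod.ext h1 h2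
      · rw [htip]; exact h3
  rw [hT] at t1 t2 ⊢
  rw [eq_iff]
  rcases t1 with ⟨k, -, -, -, ht, hb⟩ | ⟨k, -, -, -, ht, hb⟩ | ⟨k, -, -, -, ht, hb⟩ |
    ⟨k, -, -, -, ht, hb⟩
  · rcases t2 with ⟨-, -, -, -, -, hb'⟩ | ⟨k', -⟩ | ⟨k', -⟩ | ⟨k', -⟩
    · obtain ⟨-, f1, f2⟩ := (e1.resolve_right (by omega)).2
      obtain ⟨-, f1', f2'⟩ := (e2.resolve_right (by omega)).2
      have f3 : T.2 = b0 o ly (a, b) := by rw [ht]
      have f4 : (T.1 + T.2) % 2 = 1 := by rw [ht]; exact (fx_spec _ _).2.2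
      rw [hb, hb']
      rcases nv with ⟨g1, g2, g3⟩ | g | g
      · by_cases hp : (ctr σ.1).1 = T.1
        · left
          have g4 : τ.2 = σ.2 + 1 := by rw [g1]
          exact ⟨g1, by omega, by omega, by omega⟩
        · right
          have g4 : τ.2 = σ.2 + 1 := by rw [g1]
          omega
      · omega
      · right
        omega
    · omega
    · omega
    · omega
  · rcases t2 with ⟨k', -⟩ | ⟨-, -, -, -, -, hb'⟩ | ⟨k', -⟩ | ⟨k', -⟩
    · omega
    · rcases e1 with ⟨h0, -⟩ | ⟨-, -, f1, f2⟩ | ⟨h0, -⟩ | ⟨h0, -⟩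
      · omega
      · rcases e2 with ⟨h0, -⟩ | ⟨-, -, f1', f2'⟩ | ⟨h0, -⟩ | ⟨h0, -⟩
        · omega
        · have f3 : T.1 = b1 o lx (a, b) := by rw [ht]
          have f4 : (T.1 + T.2) % 2 = 1 := by rw [ht, add_comm]; exact (fx_spec _ _).2.2
          rw [hb, hb']
          rcases nv with ⟨g1, g2, g3⟩ | g | g
          · by_cases hp : (ctr σ.1).2 = T.2
            · left
              have g4 : τ.2 = σ.2 + 1 := by rw [g1]
              exact ⟨g1, by omega, by omega, by omega⟩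
            · right
              have g4 : τ.2 = σ.2 + 1 := by rw [g1]
              omega
          · omega
          · right
            omega
        · omega
        · omega
      · omega
      · omega
    · omega
    · omega
  · rcases t2 with ⟨k', -⟩ | ⟨k', -⟩ | ⟨-, -, -, -, -, hb'⟩ | ⟨k', -⟩
    · omega
    · omega
    · rcases e1 with ⟨h0, -⟩ | ⟨h0, -⟩ | ⟨-, -, f1, f2⟩ | ⟨h0, -⟩
      · omega
      · omega
      · rcases e2 with ⟨h0, -⟩ | ⟨h0, -⟩ | ⟨-, -, f1', f2'⟩ | ⟨h0, -⟩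
        · omega
        · omega
        · have f3 : T.2 = b2 o ly (a, b) := by rw [ht]
          have f4 : (T.1 + T.2) % 2 = 1 := by rw [ht]; exact (fx_spec _ _).2.2
          rw [hb, hb']
          rcases nv with ⟨g1, g2, g3⟩ | g | g
          · by_cases hp : (ctr σ.1).1 = T.1
            · left
              have g4 : τ.2 = σ.2 + 1 := by rw [g1]
              exact ⟨g1, by omega, by omega, by omega⟩
            · right
              have g4 : τ.2 = σ.2 + 1 := by rw [g1]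
              omega
          · omega
          · right
            omega
        · omega
      · omega
    · omega
  · rcases t2 with ⟨k', -⟩ | ⟨k', -⟩ | ⟨k', -⟩ | ⟨-, -, -, -, -, hb'⟩
    · omega
    · omega
    · omega
    · rcases e1 with ⟨h0, -⟩ | ⟨h0, -⟩ | ⟨h0, -⟩ | ⟨-, -, f1, f2⟩
      · omega
      · omega
      · omega
      · rcases e2 with ⟨h0, -⟩ | ⟨h0, -⟩ | ⟨h0, -⟩ | ⟨-, -, f1', f2'⟩
        · omega
        · omega
        · omega
        · have f3 : T.1 = b3 o lx (a, b) := by rw [ht]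
          have f4 : (T.1 + T.2) % 2 = 1 := by rw [ht, add_comm]; exact (fx_spec _ _).2.2
          rw [hb, hb']
          rcases nv with ⟨g1, g2, g3⟩ | g | g
          · by_cases hp : (ctr σ.1).2 = T.2
            · left
              have g4 : τ.2 = σ.2 + 1 := by rw [g1]
              exact ⟨g1, by omega, by omega, by omega⟩
            · right
              have g4 : τ.2 = σ.2 + 1 := by rw [g1]
              omega
          · omega
          · right
            omega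

/-! ### Invariance -/

lemma tipS_eqv {n n' : ℕ} (h : n % P.N = n' % P.N) :
    Eqv (tipS P o lx ly n) (tipS P o lx ly n') := by
  have h1 : Eqv (P.side n) (P.side n') := by
    have g1 := eqv_mod (P := P) n
    have g2 := eqv_mod (P := P) n'
    rw [h] at g1
    exact g1.trans g2.symm
  unfold tipS
  refine ⟨?_, ?_⟩
  · simp only
    have : tip o lx ly (P.side n) = tip o lx ly (P.side n') := by
      have h2 : (P.side n).2 % 4 = (P.side n').2 % 4 := by have := h1.2; omega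
      unfold tip
      rw [h1.1, h2]
    rw [this]
  · have := h1.2
    simp only
    omega

lemma eS_eqv {σ σ' : Cell × ℤ} (h : Eqv σ σ') : eS lx ly σ = eS lx ly σ' := by
  unfold eS
  rw [h.1, dir_congr (show (σ.2 - 1 - (σ'.2 - 1)) % 4 = 0 by have := h.2; omega)]

lemma Bef_eqv {σ σ' : Cell × ℤ} (h : Eqv σ σ') (s : Cell × ℤ) (T : ℤ × ℤ) :
    Bef s T σ ↔ Bef s T σ' := by
  unfold Bef
  have : σ.2 % 4 = σ'.2 % 4 := by have := h.2; omega
  rw [h.1, this]

/-- a tip side lies at the edge of its index -/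
lemma IsTip.at (hx : Gap lx 16) (hy : Gap ly 16) {σ : Cell × ℤ} (h : IsTip P o A lx ly σ) :
    ∃ n, A (n + 1) = A n + 1 ∧ Eqv σ (tipS P o lx ly n) ∧ eS lx ly σ = P.vert n + P.vert (n + 1) ∧
      Bef (P.side n) (tip o lx ly (P.side n)) σ ∧ ctr σ.1 = tip o lx ly (P.side n) := by
  obtain ⟨n, h1, h2⟩ := h
  obtain ⟨f1, f2, f3, f4⟩ := tipS_facts (P := P) (o := o) hx hy n
  refine ⟨n, h1, h2, ?_, (Bef_eqv h2 _ _).2 f4, ?_⟩
  · rw [eS_eqv h2, f2]
  · rw [h2.1, f3]

lemma edge_ne_vert {n n' : ℕ} (h : P.vert n + P.vert n = P.vert n' + P.vert (n' + 1)) : False := by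
  obtain ⟨a, b, hs, hab, hc⟩ := sd_cases (P := P) n'
  obtain ⟨v, hv⟩ : ∃ v, P.vert n = v := ⟨_, rfl⟩
  obtain ⟨c, d⟩ := v
  rcases hc with ⟨k, g, v, v'⟩ | ⟨k, g, v, v'⟩ | ⟨k, g, v, v'⟩ | ⟨k, g, v, v'⟩ <;>
    rw [v, v', hv, Prod.mk_add_mk, Prod.mk_add_mk, Prod.mk.injEq] at h <;> omega

/-- a side near a vertex is no tip side -/
lemma not_tip_near (hx : Gap lx 16) (hy : Gap ly 16) {i j : ℤ} {σ : Cell × ℤ}
    (hS : Star i j (eS lx ly σ)) (hN : Near lx ly i j (ctr σ.1)) : ¬ IsTip P o A lx ly σ := by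
  intro h
  obtain ⟨n, h1, h2, h3, h4, h5⟩ := h.at hx hy
  rcases star_edge hS h3 with hv | hv
  · obtain ⟨a, b, hs, hab, hc⟩ := tip_cases (P := P) (o := o) (lx := lx) (ly := ly) n σ
    obtain ⟨⟨n1, n2⟩, ⟨n3, n4⟩⟩ := hN
    rw [h5] at n1 n2 n3 n4
    rcases hc with ⟨k, g, v, v', ht, hb⟩ | ⟨k, g, v, v', ht, hb⟩ | ⟨k, g, v, v', ht, hb⟩ |
        ⟨k, g, v, v', ht, hb⟩ <;> rw [ht] at n1 n2 n3 n4 <;> rw [v, Prod.mk.injEq] at hv <;>
      obtain ⟨rfl, rfl⟩ := hv <;> simp only at n1 n2 n3 n4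
    · have := (fx_spec (lx (2 * a + 1) + 6) (b0 o ly (a, b))).1
      omega
    · have := (fx_spec (ly (2 * b + 1) + 6) (b1 o lx (a, b))).1
      omega
    · have := (fx_spec (lx (2 * a + 1) + 6) (b2 o ly (a, b))).2.1
      have h5 := hx (2 * a + 1)
      rw [show 2 * a + 1 + 1 = 2 * (a + 1) by ring] at h5
      omega
    · have := (fx_spec (ly (2 * b + 1) + 6) (b3 o lx (a, b))).2.1
      have h5 := hy (2 * b + 1)
      rw [show 2 * b + 1 + 1 = 2 * (b + 1) by ring] at h5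
      omega
  · exact near_nbef hx hy hN hv h4

/-- **T3.** -/
theorem stepSt (P : PType) (o : Cell → ℤ → Prop) (lx ly : ℤ → ℤ) (hx : Gap lx 16) (hy : Gap ly 16)
    (A : ℕ → ℤ) (hA : Marks P A) : StepSt P o A lx ly := by
  have hmx := hx.mono (by norm_num)
  have hmy := hy.mono (by norm_num)
  refine ⟨?_, ?_, ?_, ?_, ?_⟩
  · -- existence
    intro σ hσ
    rcases ex_el hmx hmy hσ with ⟨n, he⟩ | ⟨n, he⟩
    · exact ⟨A n, Or.inl ⟨n, he, by simp⟩⟩
    · by_cases hb : Bef (P.side n) (tip o lx ly (P.side n)) σ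
      · exact ⟨A n, Or.inr (Or.inl ⟨n, he, by simp, Or.inr hb⟩)⟩
      · exact ⟨A (n + 1), Or.inr (Or.inr ⟨n, he, by simp, Or.inr hb⟩)⟩
  · -- the coarse label
    rintro σ m (⟨n, he, hm⟩ | ⟨n, he, hm, -⟩ | ⟨n, he, hm, -⟩)
    · exact Or.inl ⟨n, he, hm⟩
    · exact Or.inr ⟨n, he, Or.inl hm⟩
    · exact Or.inr ⟨n, he, Or.inr hm⟩
  · -- the step
    intro σ m hσ hm
    obtain ⟨τ, hτ⟩ : ∃ τ, τ = nextSide (Dq P.Q o lx ly) σ := ⟨_, rfl⟩
    have hs2 : IsSide (Dq P.Q o lx ly) τ := by rw [hτ]; exact isSide_next hσ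
    have hst := el_step hx hy hσ
    rw [← hτ] at hst ⊢
    rcases hst with he | ⟨i, j, S1, S2, N1, N2⟩
    · -- same element
      have edge : ∀ n, eS lx ly σ = P.vert n + P.vert (n + 1) →
          (((A n - m) % 4 = 0 ∧ (A (n + 1) = A n ∨ Bef (P.side n) (tip o lx ly (P.side n)) σ)) ∨
          ((A (n + 1) - m) % 4 = 0 ∧ (A (n + 1) = A n ∨
            ¬ Bef (P.side n) (tip o lx ly (P.side n)) σ))) →
          (¬ IsTip P o A lx ly σ ∧ LabS P o A lx ly τ m) ∨
          (IsTip P o A lx ly σ ∧ τ = (σ.1, σ.2 + 1) ∧ LabS P o A lx ly τ (m + 1)) := by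
        intro n hn hm
        have hn' : eS lx ly τ = P.vert n + P.vert (n + 1) := by rw [← he, hn]
        have tipn : IsTip P o A lx ly σ → A (n + 1) = A n + 1 ∧ Eqv σ (tipS P o lx ly n) := by
          intro h
          obtain ⟨n', h1, h2, h3, h4, h5⟩ := h.at hx hy
          have h6 : n' % P.N = n % P.N := el_inj (h3.symm.trans hn)
          have h7 := hA.diff h6
          refine ⟨?_, h2.trans (tipS_eqv h6)⟩
          rcases hA.step n with h | h
          · have := h7.2 h; omega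
          · exact h
        rcases zig hx hy hσ hτ hn hn' with ⟨z1, z2, z3, z4⟩ | ⟨z1, z2⟩
        · rcases hA.step n with h | h
          · left
            refine ⟨fun ht => by have := (tipn ht).1; omega, ?_⟩
            rcases hm with ⟨hm, -⟩ | ⟨hm, -⟩
            · exact Or.inr (Or.inl ⟨n, hn', hm, Or.inl h⟩)
            · exact Or.inr (Or.inr ⟨n, hn', hm, Or.inl h⟩)
          · right
            refine ⟨⟨n, h, z2⟩, z1, Or.inr (Or.inr ⟨n, hn', ?_, Or.inr z4⟩)⟩
            rcases hm with ⟨hm, -⟩ | ⟨hm, h' | h'⟩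
            · omega
            · omega
            · exact absurd z3 h'
        · left
          refine ⟨fun ht => z1 (tipn ht).2, ?_⟩
          rcases hm with ⟨hm, h' | h'⟩ | ⟨hm, h' | h'⟩
          · exact Or.inr (Or.inl ⟨n, hn', hm, Or.inl h'⟩)
          · exact Or.inr (Or.inl ⟨n, hn', hm, Or.inr (z2.1 h')⟩)
          · exact Or.inr (Or.inr ⟨n, hn', hm, Or.inl h'⟩)
          · exact Or.inr (Or.inr ⟨n, hn', hm, Or.inr (fun h => h' (z2.2 h))⟩)
      rcases hm with ⟨n, hn, hm⟩ | ⟨n, hn, hm, h'⟩ | ⟨n, hn, hm, h'⟩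
      · left
        refine ⟨?_, Or.inl ⟨n, by rw [← he, hn], hm⟩⟩
        intro h
        obtain ⟨n', -, -, h3, -⟩ := h.at hx hy
        exact edge_ne_vert (hn.symm.trans h3)
      · exact edge n hn (Or.inl ⟨hm, h'⟩)
      · exact edge n hn (Or.inr ⟨hm, h'⟩)
    · -- near a vertex
      obtain ⟨n0, h0⟩ := exists_star hmx hmy hσ S1
      left
      exact ⟨not_tip_near hx hy S1 N1,
        (lab_star hA hx hy hs2 S2 N2 h0).2 ((lab_star hA hx hy hσ S1 N1 h0).1 hm)⟩
  · exact fun n => (tipS_facts hx hy n).1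
  · intro n n' h
    have h1 := (tipS_facts (P := P) (o := o) hx hy n).2.1
    have h2 := (tipS_facts (P := P) (o := o) hx hy n').2.1
    rw [eS_eqv h] at h1
    exact el_inj (h1.symm.trans h2)

theorem stStep : StStep := fun P o lx ly hx hy A hA => stepSt P o lx ly hx hy A hA

end

end Pool.Agent.H5.C3
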