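import Mathlib
import Pool.Agent.H5.C3.StepF
import Pool.Agent.H5.C3.Stm
import Pool.Agent.H5.FM.Rfn3

set_option autoImplicit false
open Finset

/-! # T4: shapes from labels with a step property -/

namespace Pool.Agent.H5.C3

open Pool.Agent.H75.Perc (dir dir_cases)
open Pool.Agent.Q1.M4 (Cell Good IsSide nextSide tail head Adj4 Conn4 PType Eqv tail_inj side_cells
  lab lab_eq_tail lab_inj dir_congr isSide_next isSide_iter)
open Pool.Agent.H48.Q1 (fl fl_spec fl_eq fl_iff fl_step)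
open Pool.Agent.H21.FM (Shape)

section abstract
variable {D : Finset Cell} {Lab : Cell × ℤ → ℤ → Prop} {Tip : Cell × ℤ → Prop}

open Classical in
/-- **A shape from labels with a step property and four tips.** -/
theorem shape_of (hG : Good D)
    (hst : ∀ σ m, IsSide D σ → Lab σ m → (¬ Tip σ ∧ Lab (nextSide D σ) m) ∨
      (Tip σ ∧ nextSide D σ = (σ.1, σ.2 + 1) ∧ Lab (nextSide D σ) (m + 1)))
    (hTE : ∀ σ σ', Eqv σ σ' → Tip σ → Tip σ')
    (T : Finset (Cell × ℤ)) (hT4 : T.card = 4) (hTs : ∀ τ ∈ T, IsSide D τ) (hTT : ∀ τ ∈ T, Tip τ)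
    (hTi : ∀ τ ∈ T, ∀ τ' ∈ T, Eqv τ τ' → τ = τ')
    (hTa : ∀ σ, IsSide D σ → Tip σ → ∃ τ ∈ T, Eqv σ τ)
    (hex : ∀ σ, IsSide D σ → ∃ m, Lab σ m) :
    ∃ (S : Shape) (q : ℤ), S.P.Q = D ∧ q % 4 = 0 ∧ (∀ i, i < S.m2 → Lab (S.P.side i) q) ∧
      (∀ i, S.m2 ≤ i → i < S.m3 → Lab (S.P.side i) (q + 1)) ∧
      (∀ i, S.m3 ≤ i → i < S.P.m → Lab (S.P.side i) (q + 2)) ∧
      (∀ i, S.P.m ≤ i → i < S.P.N → Lab (S.P.side i) (q + 3)) := by
  obtain ⟨t, htT⟩ : T.Nonempty := Finset.card_pos.1 (by omega)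
  have ht := hTs t htT
  obtain ⟨N, hN3, hper, hall, hinj⟩ := Pool.Agent.Q1.M4.walk hG ht
  have hN : 0 < N := by omega
  obtain ⟨W, hWd⟩ : ∃ W : ℕ → Cell × ℤ, W = fun n => (nextSide D)^[n] t := ⟨_, rfl⟩
  have hW : ∀ n, (nextSide D)^[n] t = W n := fun n => by rw [hWd]
  have hWs : ∀ n, IsSide D (W n) := fun n => by rw [← hW]; exact isSide_iter ht n
  have hWsucc : ∀ n, W (n + 1) = nextSide D (W n) := fun n => by
    rw [← hW, ← hW, Function.iterate_succ_apply']
  obtain ⟨m0, hm0⟩ := hex t ht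
  -- the labels
  obtain ⟨f, hf⟩ : ∃ f : ℕ → ℤ, f = fun n => if Tip (W n) then 1 else 0 := ⟨_, rfl⟩
  have hfn : ∀ n, f n = if Tip (W n) then 1 else 0 := fun n => by rw [hf]
  obtain ⟨L, hL⟩ : ∃ L : ℕ → ℤ, L = fun n => m0 + ∑ j ∈ range n, f j := ⟨_, rfl⟩
  have hL0 : L 0 = m0 := by rw [hL]; simp
  have hLs : ∀ n, L (n + 1) = L n + f n := fun n => by rw [hL]; simp only [sum_range_succ]; ring
  have hLab : ∀ n, Lab (W n) (L n) := by
    intro n
    induction n with
    | zero => rw [hL0, ← hW]; exact hm0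
    | succ n ih =>
      rw [hLs, hWsucc, hfn]
      rcases hst _ _ (hWs n) ih with ⟨h1, h2⟩ | ⟨h1, -, h2⟩
      · rw [if_neg h1, add_zero]; exact h2
      · rw [if_pos h1]; exact h2
  have hstep : ∀ n, L (n + 1) = L n ∨ (L (n + 1) = L n + 1 ∧ (nextSide D)^[n + 1] t =
      (((nextSide D)^[n] t).1, ((nextSide D)^[n] t).2 + 1)) := by
    intro n
    rw [hLs, hfn, hW, hW, hWsucc]
    rcases hst _ _ (hWs n) (hLab n) with ⟨h1, h2⟩ | ⟨h1, h2, -⟩
    · left; rw [if_neg h1, add_zero]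
    · right; rw [if_pos h1]; exact ⟨rfl, h2⟩
  -- periodicity
  have hWN : ∀ n, Eqv (W (n + N)) (W n) := by
    intro n
    have h1 : W (n + N) = (nextSide D)^[n] ((nextSide D)^[N] t) := by
      rw [← hW, Function.iterate_add_apply]
    rw [h1, hper, ← hW]
    have h2 : Eqv ((t.1, t.2 + 4) : Cell × ℤ) t := ⟨rfl, by simp only; omega⟩
    exact h2.iter' n
  have hfN : ∀ n, f (n + N) = f n := by
    intro n
    rw [hfn, hfn]
    have : Tip (W (n + N)) ↔ Tip (W n) := ⟨hTE _ _ (hWN n), hTE _ _ (hWN n).symm⟩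
    by_cases h : Tip (W n)
    · rw [if_pos h, if_pos (this.2 h)]
    · rw [if_neg h, if_neg (fun h' => h (this.1 h'))]
  have hcount : ∑ j ∈ range N, f j = 4 := by
    have h1 : ∑ j ∈ range N, f j = (((range N).filter fun j => Tip (W j)).card : ℤ) := by
      rw [Finset.card_filter]
      push_cast
      exact Finset.sum_congr rfl fun j _ => hfn j
    rw [h1]
    have h2 : ((range N).filter fun j => Tip (W j)).card = T.card := by
      have hidx : ∀ τ ∈ T, ∃ j < N, Eqv (W j) τ := fun τ hτ => by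
        obtain ⟨j, hj, h⟩ := hall τ (hTs τ hτ)
        exact ⟨j, hj, by rw [← hW]; exact h⟩
      choose! J hJ1 hJ2 using hidx
      symm
      apply Finset.card_bij (fun τ _ => J τ)
      · intro τ hτ
        rw [mem_filter, mem_range]
        exact ⟨hJ1 τ hτ, hTE _ _ (hJ2 τ hτ).symm (hTT τ hτ)⟩
      · intro τ hτ τ' hτ' he
        have e1 := hJ2 τ hτ
        have e2 := hJ2 τ' hτ'
        rw [he] at e1
        exact hTi τ hτ τ' hτ' (e1.symm.trans e2)
      · intro j hj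
        rw [mem_filter, mem_range] at hj
        obtain ⟨τ, hτ, he⟩ := hTa _ (hWs j) hj.2
        refine ⟨τ, hτ, ?_⟩
        have e := (hJ2 τ hτ).trans he.symm
        rw [← hW, ← hW] at e
        exact hinj _ (hJ1 τ hτ) _ hj.1 e.1 e.2
    rw [h2, hT4]
    rfl
  have hLN : ∀ n, L (n + N) = L n + 4 := by
    intro n
    induction n with
    | zero => rw [zero_add, hL0, hL]; simp only; rw [hcount]
    | succ n ih => rw [show n + 1 + N = n + N + 1 by ring, hLs, ih, hLs, hfN]; ring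
  -- the shape
  obtain ⟨q, hq1, hq2⟩ : ∃ q : ℤ, L 0 < q ∧ q % 4 = 0 := ⟨4 * (|L 0| + 1), by
    have := le_abs_self (L 0); have := abs_nonneg (L 0); omega, by omega⟩
  obtain ⟨S, r, hQ, -, hs, l0, l1, l2, l3⟩ := H5.FM.exists_shape_lab hG ht hN hper hinj
    hstep hLN hq1
  refine ⟨S, q, hQ, hq2, fun i hi => ?_, fun i h1 h2 => ?_, fun i h1 h2 => ?_, fun i h1 h2 => ?_⟩
  · rw [hs, hW, ← l0 i hi]; exact hLab _
  · rw [hs, hW, ← l1 i h1 h2]; exact hLab _
  · rw [hs, hW, ← l2 i h1 h2]; exact hLab _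
  · rw [hs, hW, ← l3 i h1 h2]; exact hLab _

end abstract

/-- **T4.** -/
theorem stLab (hGood : StGood) (hStep : StStep) : StLab := by
  classical
  intro P O lx ly hx hy A hA
  obtain ⟨o, ho⟩ : ∃ o, oOf P O = o := ⟨_, rfl⟩
  rw [ho]
  have hS := hStep P o lx ly hx hy A hA
  have hG : Good (Dq P.Q o lx ly) := hGood P.Q P.good o lx ly (fun a => by have := hx a; omega)
    (fun a => by have := hy a; omega)
  -- the marked sides
  obtain ⟨F, hF⟩ : ∃ F : Finset ℕ, F = (range P.N).filter fun n => A (n + 1) = A n + 1 := ⟨_, rfl⟩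
  have hF4 : F.card = 4 := by
    have h1 : ∀ n, A n = A 0 + ((((range n).filter fun j => A (j + 1) = A j + 1).card : ℕ) : ℤ) := by
      intro n
      induction n with
      | zero => simp
      | succ n ih =>
        rw [range_add_one, filter_insert]
        rcases hA.step n with h | h
        · rw [if_neg (by omega), h, ih]
        · rw [if_pos h, card_insert_of_notMem (by simp), h]
          push_cast
          rw [ih]
          ring
    have h2 := h1 P.N
    have h3 := hA.per 0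
    rw [zero_add] at h3
    rw [hF]
    have : ((((range P.N).filter fun j => A (j + 1) = A j + 1).card : ℕ) : ℤ) = 4 := by omega
    exact_mod_cast this
  obtain ⟨S, q, hQ, hq, l0, l1, l2, l3⟩ := shape_of (Lab := LabS P o A lx ly)
    (Tip := IsTip P o A lx ly) hG hS.step
    (fun σ σ' h => by
      rintro ⟨n, h1, h2⟩
      exact ⟨n, h1, h.symm.trans h2⟩)
    (F.image (tipS P o lx ly)) (by
      rw [card_image_of_injOn, hF4]
      intro n hn n' hn' he
      rw [hF, coe_filter] at hn hn'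
      have h1 := hS.inj n n' (by rw [show tipS P o lx ly n = tipS P o lx ly n' from he]; exact Eqv.refl _)
      rwa [Nat.mod_eq_of_lt (mem_range.1 hn.1), Nat.mod_eq_of_lt (mem_range.1 hn'.1)] at h1)
    (by
      intro τ hτ
      rw [mem_image] at hτ
      obtain ⟨n, -, rfl⟩ := hτ
      exact hS.side n)
    (by
      intro τ hτ
      rw [mem_image] at hτ
      obtain ⟨n, hn, rfl⟩ := hτ
      rw [hF, mem_filter] at hn
      exact ⟨n, hn.2, Eqv.refl _⟩)
    (by
      intro τ hτ τ' hτ' he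
      rw [mem_image] at hτ hτ'
      obtain ⟨n, hn, rfl⟩ := hτ
      obtain ⟨n', hn', rfl⟩ := hτ'
      rw [hF, mem_filter, mem_range] at hn hn'
      have h1 := hS.inj n n' he
      rw [Nat.mod_eq_of_lt hn.1, Nat.mod_eq_of_lt hn'.1] at h1
      rw [h1])
    (by
      rintro σ - ⟨n, h1, h2⟩
      have hm : n % P.N % P.N = n % P.N := Nat.mod_mod _ _
      refine ⟨tipS P o lx ly (n % P.N), mem_image_of_mem _ ?_, h2.trans (tipS_eqv hm.symm)⟩
      rw [hF, mem_filter, mem_range]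
      refine ⟨Nat.mod_lt _ (N_pos P), ?_⟩
      have h3 := hA.diff (n := n % P.N) (n' := n) hm
      rcases hA.step (n % P.N) with h | h
      · have := h3.1 h; omega
      · exact h)
    hS.ex
  refine ⟨S, hQ, fun i hi => ?_, fun i h1 h2 => ?_, fun i h1 h2 => ?_, fun i h1 h2 => ?_⟩
  · rcases hS.lb _ _ (l0 i hi) with ⟨n, e, h⟩ | ⟨n, e, h⟩
    · exact Or.inl ⟨n, e, by omega⟩
    · exact Or.inr ⟨n, e, by omega⟩
  · rcases hS.lb _ _ (l1 i h1 h2) with ⟨n, e, h⟩ | ⟨n, e, h⟩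
    · exact Or.inl ⟨n, e, by omega⟩
    · exact Or.inr ⟨n, e, by omega⟩
  · rcases hS.lb _ _ (l2 i h1 h2) with ⟨n, e, h⟩ | ⟨n, e, h⟩
    · exact Or.inl ⟨n, e, by omega⟩
    · exact Or.inr ⟨n, e, by omega⟩
  · rcases hS.lb _ _ (l3 i h1 h2) with ⟨n, e, h⟩ | ⟨n, e, h⟩
    · exact Or.inl ⟨n, e, by omega⟩
    · exact Or.inr ⟨n, e, by omega⟩

end Pool.Agent.H5.C3
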