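import Mathlib
import Pool.Agent.H33.C3.Top
import Pool.Agent.H5.C3.Gen

set_option autoImplicit false
open Finset Filter Topology

/-! # T8G: the bounds of `CI` by the shapes, with scales in the multiples of `M` (helper33's proof) -/

namespace Pool.Agent.H5.C3

open Pool.Agent.H75.Perc (Pr)
open Pool.Agent.Q1.M4 (Cell Reg Om rect mem_rect mem_Om IsSide PType inV inRect pt frontier_Om
  closure_Om isOpen_Om isBounded_Om isBounded_Reg)
open Pool.Agent.Q1.M5 (sV sL WL EL TV CT CI App)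
open Pool.Agent.H57.FM (ps Cross PC ps_re ps_im)
open Pool.Agent.H19.RH (spt sidePt_spt)
open Pool.Agent.H5.FM (T0 OnS UpG LoG)
open Pool.Agent.H21.FM
open Pool.Agent.H79.FM (cc gz sh approx floor_top up_prob lo_prob)
open Pool.Agent.H33.C3 (exists_InK InK inv_tendsto near_of_app upG_near loG_near exists_gap Av Dt Ap
  Fat Near xr)

lemma cc_mul (M h : ℕ) (hM : 0 < M) (w : ℤ × ℤ) : (M : ℂ) * cc (M * h) w = cc h w := by
  have h0 : (M : ℝ) ≠ 0 := by positivity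
  unfold cc
  refine Complex.ext ?_ ?_
  · simp only [Complex.mul_re, Complex.natCast_re, Complex.natCast_im, zero_mul, sub_zero]
    push_cast
    rcases Nat.eq_zero_or_pos h with rfl | hh
    · simp
    · have : (h : ℝ) ≠ 0 := by positivity
      field_simp
  · simp only [Complex.mul_im, Complex.natCast_re, Complex.natCast_im, zero_mul, add_zero]
    push_cast
    rcases Nat.eq_zero_or_pos h with rfl | hh
    · simp
    · have : (h : ℝ) ≠ 0 := by positivity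
      field_simp

lemma T0_mul (M h : ℕ) (hM : 0 < M) (e : ℝ) (z1 : ℂ) (w : ℤ × ℤ) :
    T0 e z1 (cc (M * h) w) = T0 (e / M) z1 (cc h w) := by
  have h0 : (M : ℂ) ≠ 0 := by exact_mod_cast hM.ne'
  rw [← cc_mul M h hM w]
  unfold T0
  push_cast
  field_simp

lemma approxM {e : ℝ} (he : 0 < e) {M : ℕ} (hM : 0 < M) (z1 : ℂ) (B : ℝ) {η : ℝ} (hη : 0 < η) :
    ∀ᶠ δ in 𝓝[>] (0 : ℝ), 0 < δ ∧ δ < η ∧ 0 < M * ⌊e / M / δ⌋₊ ∧ ∀ w,
      (‖ps δ (w + sh z1 δ)‖ ≤ B ∨ ‖T0 e z1 (cc (M * ⌊e / M / δ⌋₊) w)‖ ≤ B) →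
      ‖T0 e z1 (cc (M * ⌊e / M / δ⌋₊) w) - ps δ (w + sh z1 δ)‖ ≤ η := by
  have he' : 0 < e / M := by positivity
  filter_upwards [approx he' z1 B hη] with δ hδ
  obtain ⟨h1, h2, h3, h4⟩ := hδ
  refine ⟨h1, h2, Nat.mul_pos hM h3, fun w hw => ?_⟩
  rw [T0_mul M _ hM] at hw ⊢
  exact h4 w hw

theorem stCIUG : StCIUG := by
  intro P x y n1 n2 hx hy h01 h12 h2m S e ρ N2 N4 U M q hM hq R X Y hA
  obtain ⟨K, hK⟩ := exists_InK P.Q 2
  have hK' : InK K P.Q := hK.mono (by omega)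
  have hρ := U.ρ0
  have he' : 0 < e / M := div_pos U.e0 (by exact_mod_cast hM)
  obtain ⟨M0, hM0⟩ := (isBounded_Om P.Q x y).exists_norm_le
  have hη : 0 < ρ / 2 / 7 := by positivity
  have hR := inv_tendsto hA.app.R_top
  have h1 := hR.eventually (approxM U.e0 hM 0 (M0 + 3 * (ρ / 16)) hη)
  have h2 := ((floor_top he').comp hR).eventually hq
  filter_upwards [near_of_app hx hy hA K (show (0 : ℝ) < ρ / 16 by positivity), h1, h2]
    with j H g1 g2
  obtain ⟨k1, k2, k3, k4⟩ := g1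
  have U' := upG_near H hx hy hK' U (by positivity) le_rfl
  have hb : Bornology.IsBounded (Reg P.Q (xr (R j) (X j)) (xr (R j) (Y j))) :=
    isBounded_Reg _ _ _
  have h3 := up_prob hb U' k3 k1 (sh 0 (1 / R j)) (η := ρ / 2 / 7) (by linarith)
    (fun w hw => k4 w (Or.inl (by
      obtain ⟨w0, h5, h6⟩ := H.om (by positivity) hx hy hK' hw
      have h7 := hM0 _ h5
      have e1 : ps (1 / R j) (w + sh 0 (1 / R j)) =
        (ps (1 / R j) (w + sh 0 (1 / R j)) - w0) + w0 := by ring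
      rw [e1]
      exact (norm_add_le _ _).trans (by linarith))))
  have h4 : Pr (EL P (X j) (Y j)) (CI P (X j) (Y j) n1 n2) ≤
      PC (Reg P.Q (xr (R j) (X j)) (xr (R j) (Y j))) (Av P (X j) (Y j) (1 / R j) n1 n2)
        (Av P (X j) (Y j) (1 / R j) P.m P.N) (1 / R j) := by
    apply Pool.Agent.H33.C3.Pr_CI_le hb k1
    · intro v hv
      exact (Pool.Agent.H33.C3.ps_mem_Reg H.R0).2 hv
    · intro n a1 a2 v hv
      exact ⟨n, a1, a2, v, hv, rfl⟩
    · rintro v ⟨n, a1, a2, hv⟩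
      exact ⟨n, a1, a2, v, hv, rfl⟩
  simp only [Function.comp_apply] at g2
  linarith

theorem stCILG : StCILG := by
  intro P x y n1 n2 hx hy h01 h12 h2m S e ρ N2 N4 U M' q hM' hq R X Y hA
  obtain ⟨K, hK⟩ := exists_InK P.Q 2
  have hρ := U.ρ0
  have he' : 0 < e / M' := div_pos U.e0 (by exact_mod_cast hM')
  have hmN := P.hmN
  have hIoo : ∀ᶠ κ in 𝓝[>] (0 : ℝ), κ ∈ Set.Ioo (0 : ℝ) (ρ / 16) :=
    Ioo_mem_nhdsGT (show (0 : ℝ) < ρ / 16 by positivity)
  obtain ⟨κ, ⟨hκ0, hκ1⟩, gx, gy⟩ := (hIoo.and ((exists_gap hx K).and (exists_gap hy K))).exists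
  obtain ⟨K1, hK1⟩ := (Pool.Agent.H79.FM.isBounded_Reg S.P.Q).exists_norm_le
  set M : ℝ := e * (2 * K1) with hMdef
  have hM : ∀ z ∈ Reg S.P.Q gz gz, ‖T0 e 0 z‖ ≤ M := by
    intro z hz
    unfold T0
    rw [add_zero, norm_mul, Complex.norm_real, Real.norm_of_nonneg U.e0.le, norm_mul]
    have h1 := hK1 z hz
    have h2 : ‖(1 : ℂ) + Complex.I‖ ≤ 2 := by
      refine (norm_add_le _ _).trans ?_
      rw [norm_one, Complex.norm_I]; norm_num
    have h3 : ‖(1 : ℂ) + Complex.I‖ * ‖z‖ ≤ 2 * K1 :=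
      mul_le_mul h2 h1 (norm_nonneg _) (by norm_num)
    exact mul_le_mul_of_nonneg_left h3 U.e0.le
  have hη : 0 < ρ / 2 / 7 := by positivity
  have hR := inv_tendsto hA.app.R_top
  have h1 := hR.eventually (approxM U.e0 hM' 0 M hη)
  have h2 := ((floor_top he').comp hR).eventually hq
  filter_upwards [near_of_app hx hy hA K hκ0, h1, h2, hR (Ioo_mem_nhdsGT hκ0)] with j H g1 g2 g3
  obtain ⟨k1, k2, k3, k4⟩ := g1
  have U' := loG_near H hx hy hK (by omega) le_rfl U hκ0 hκ1.le g3.2.le gx gy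
  have hb : Bornology.IsBounded (Dt P (R j) (X j) (Y j)) :=
    (isBounded_Reg _ _ _).thickening
  have h3 := lo_prob hb U' k3 k1 hη.le (sh 0 (1 / R j)) (η := ρ / 2 / 7) (by linarith)
    (fun w hw => k4 w (Or.inr (hM _ hw)))
  have h4 : PC (Dt P (R j) (X j) (Y j)) (Ap P (R j) (X j) (Y j) n1 n2)
      (Ap P (R j) (X j) (Y j) P.m P.N) (1 / R j) ≤
      Pr (EL P (X j) (Y j)) (CI P (X j) (Y j) n1 n2) := by
    apply Pool.Agent.H33.C3.le_Pr_CI H.hX H.hY H.gx H.gy (hK.mono (by omega)) hb k1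
    · intro v hv
      exact Pool.Agent.H33.C3.inV_of_near H.R0 hv
    · rintro v hv ⟨a, ha, hd⟩
      exact ha v hv hd
    · rintro v hv ⟨a, ha, hd⟩
      exact ha v hv hd
  simp only [Function.comp_apply] at g2
  linarith

end Pool.Agent.H5.C3
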