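import Mathlib
import Pool.Agent.H5.C3.Gen
import Pool.Agent.H57.W.Real

set_option autoImplicit false
open Finset Filter Topology

/-! # T9, part A: real lines with gaps, marks -/

namespace Pool.Agent.H5.C3

open Pool.Agent.H75.Perc (dir dir_cases Pr)
open Pool.Agent.Q1.M4 (Cell Good IsSide nextSide tail head Adj4 Conn4 PType pt rect Reg Om)
open Pool.Agent.H19.RH (Cht lam cc SS N_pos)

/-- replace the lines outside `[-K, K]` -/
noncomputable def xcl (x : ℤ → ℝ) (K : ℤ) (i : ℤ) : ℝ :=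
  x (max (-K) (min K i)) + ((i - max (-K) (min K i) : ℤ) : ℝ)

lemma xcl_eq (x : ℤ → ℝ) {K i : ℤ} (h : |i| ≤ K) : xcl x K i = x i := by
  rw [abs_le] at h
  unfold xcl
  rw [min_eq_right h.2, max_eq_right h.1]
  simp

lemma gapR_xcl {x : ℤ → ℝ} (hx : StrictMono x) {K : ℤ} (hK : 0 ≤ K) :
    ∃ g, GapR (xcl x K) g := by
  classical
  obtain ⟨g, hg, hg1⟩ : ∃ g : ℝ, 0 < g ∧ ∀ i ∈ Finset.Ico (-K) K, g ≤ x (i + 1) - x i := by
    by_cases hne : (Finset.Ico (-K) K).Nonempty
    · obtain ⟨i0, h0, h1⟩ := Finset.exists_min_image (Finset.Ico (-K) K)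
        (fun i => x (i + 1) - x i) hne
      exact ⟨x (i0 + 1) - x i0, sub_pos.2 (hx (by omega)), h1⟩
    · exact ⟨1, one_pos, fun i hi => absurd ⟨i, hi⟩ hne⟩
  refine ⟨min g 1, lt_min hg one_pos, fun i => ?_⟩
  unfold xcl
  rcases lt_or_ge i (-K) with h1 | h1
  · have e1 : max (-K) (min K i) = -K := by rw [min_eq_right (by omega), max_eq_left (by omega)]
    have e2 : max (-K) (min K (i + 1)) = -K := by
      rw [min_eq_right (by omega), max_eq_left (by omega)]
    rw [e1, e2]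
    push_cast
    have := min_le_right g 1
    linarith
  · rcases lt_or_ge i K with h2 | h2
    · have e1 : max (-K) (min K i) = i := by rw [min_eq_right (by omega), max_eq_right (by omega)]
      have e2 : max (-K) (min K (i + 1)) = i + 1 := by
        rw [min_eq_right (by omega), max_eq_right (by omega)]
      rw [e1, e2]
      have h3 := hg1 i (Finset.mem_Ico.2 ⟨h1, h2⟩)
      have h4 := min_le_left g 1
      push_cast
      linarith
    · have e1 : max (-K) (min K i) = K := by rw [min_eq_left (by omega), max_eq_right (by omega)]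
      have e2 : max (-K) (min K (i + 1)) = K := by
        rw [min_eq_left (by omega), max_eq_right (by omega)]
      rw [e1, e2]
      push_cast
      have := min_le_right g 1
      linarith

/-- a bound of the coordinates of a type -/
lemma exists_K (Q : Finset Cell) : ∃ K : ℤ, 0 ≤ K ∧ ∀ c ∈ Q, |c.1| + 1 ≤ K ∧ |c.2| + 1 ≤ K := by
  refine ⟨∑ c ∈ Q, (|c.1| + |c.2|) + 1, by positivity, fun c hc => ?_⟩
  have h := Finset.single_le_sum (f := fun c : Cell => |c.1| + |c.2|) (fun c _ => by positivity) hc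
  have h1 := abs_nonneg c.1
  have h2 := abs_nonneg c.2
  constructor <;> linarith

section
variable {P : PType} {x y x' y' : ℤ → ℝ} {K : ℤ}

lemma Om_congr (hK : ∀ c ∈ P.Q, |c.1| + 1 ≤ K ∧ |c.2| + 1 ≤ K) (hx : ∀ i, |i| ≤ K → x' i = x i)
    (hy : ∀ i, |i| ≤ K → y' i = y i) : Om P.Q x' y' = Om P.Q x y := by
  unfold Om
  congr 1
  ext z
  unfold Reg
  show (∃ c ∈ P.Q, z ∈ rect x' y' c) ↔ ∃ c ∈ P.Q, z ∈ rect x y c
  refine exists_congr fun c => and_congr_right fun hc => ?_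
  obtain ⟨k1, k2⟩ := hK c hc
  have h1 : |c.1| ≤ K := by omega
  have h2 : |c.2| ≤ K := by omega
  have h3 : |c.1 + 1| ≤ K := (abs_add_le c.1 1).trans (by rw [abs_one]; exact k1)
  have h4 : |c.2 + 1| ≤ K := (abs_add_le c.2 1).trans (by rw [abs_one]; exact k2)
  show ((x' c.1 ≤ z.re ∧ z.re ≤ x' (c.1 + 1)) ∧ (y' c.2 ≤ z.im ∧ z.im ≤ y' (c.2 + 1))) ↔
    ((x c.1 ≤ z.re ∧ z.re ≤ x (c.1 + 1)) ∧ (y c.2 ≤ z.im ∧ z.im ≤ y (c.2 + 1)))
  rw [hx _ h1, hx _ h3, hy _ h2, hy _ h4]

lemma pt_congr (hK : ∀ c ∈ P.Q, |c.1| + 1 ≤ K ∧ |c.2| + 1 ≤ K) (hx : ∀ i, |i| ≤ K → x' i = x i)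
    (hy : ∀ i, |i| ≤ K → y' i = y i) (n : ℕ) : pt x' y' (P.vert n) = pt x y (P.vert n) := by
  have hs := (P.isSide_side n).1
  obtain ⟨k1, k2⟩ := hK _ hs
  have h1 : |(P.side n).1.1| ≤ K := by omega
  have h2 : |(P.side n).1.2| ≤ K := by omega
  have h3 : |(P.side n).1.1 + 1| ≤ K := (abs_add_le _ 1).trans (by rw [abs_one]; exact k1)
  have h4 : |(P.side n).1.2 + 1| ≤ K := (abs_add_le _ 1).trans (by rw [abs_one]; exact k2)
  unfold pt PType.vert tail
  split_ifs
  · rw [hx _ h1, hy _ h2]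
  · simp only [Prod.fst_add, Prod.snd_add, add_zero]
    rw [hx _ h3, hy _ h2]
  · simp only [Prod.fst_add, Prod.snd_add]
    rw [hx _ h3, hy _ h4]
  · simp only [Prod.fst_add, Prod.snd_add, add_zero]
    rw [hx _ h1, hy _ h4]

lemma arR_congr (hK : ∀ c ∈ P.Q, |c.1| + 1 ≤ K ∧ |c.2| + 1 ≤ K) (hx : ∀ i, |i| ≤ K → x' i = x i)
    (hy : ∀ i, |i| ≤ K → y' i = y i) (n1 n2 : ℕ) : arR P x' y' n1 n2 = arR P x y n1 n2 := by
  unfold arR sdR
  simp only [pt_congr hK hx hy]

end

/-! ### Marks -/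

lemma marks_mk4 {P : PType} {a b c d : ℕ} {s : ℤ} (hab : a < b) (hbc : b < c) (hcd : c < d)
    (hd : d < P.N) : Marks P (mk4 P.N a b c d s) := by
  have hN : 0 < P.N := by omega
  constructor
  · intro n
    unfold mk4
    by_cases h : n % P.N + 1 < P.N
    · have h1 : (n + 1) % P.N = n % P.N + 1 := by
        rw [Nat.add_mod, Nat.mod_eq_of_lt (show 1 < P.N by omega), Nat.mod_eq_of_lt h]
      have h2 : (n + 1) / P.N = n / P.N := by
        rw [Nat.add_div_eq_of_add_mod_lt]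
        · rw [Nat.div_eq_of_lt (show 1 < P.N by omega)]
          rfl
        · rw [Nat.mod_eq_of_lt (show 1 < P.N by omega)]
          exact h
      rw [h1, h2]
      split_ifs <;> omega
    · have h0 := Nat.mod_lt n hN
      have h1 : (n + 1) % P.N = 0 := by
        have : n + 1 = P.N * (n / P.N + 1) := by
          have := Nat.div_add_mod n P.N
          rw [Nat.mul_add, Nat.mul_one]
          omega
        rw [this]
        exact Nat.mul_mod_right _ _
      have h2 : (n + 1) / P.N = n / P.N + 1 := by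
        have : n + 1 = P.N * (n / P.N + 1) := by
          have := Nat.div_add_mod n P.N
          rw [Nat.mul_add, Nat.mul_one]
          omega
        rw [this, Nat.mul_div_cancel_left _ hN]
      rw [h1, h2]
      push_cast
      split_ifs <;> omega
  · intro n
    unfold mk4
    rw [Nat.add_mod_right, Nat.add_div_right _ hN]
    push_cast
    ring

/-! ### The cross ratio lies in `(0, 1)` -/

lemma lam_mem {P : PType} {x y : ℤ → ℝ} {φ : ℂ → ℂ} (C : Cht P x y φ) {m2 m3 m4 : ℕ} (h1 : 0 < m2)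
    (h2 : m2 < m3) (h3 : m3 < m4) (h4 : m4 < P.N) : lam P x y m2 m3 m4 φ ∈ Set.Ioo (0 : ℝ) 1 := by
  have hN := N_pos P
  have s1 : P.N ∈ SS P := Finset.mem_Ico.2 ⟨le_rfl, by omega⟩
  have s2 : P.N + m2 ∈ SS P := Finset.mem_Ico.2 ⟨by omega, by omega⟩
  have s3 : P.N + m3 ∈ SS P := Finset.mem_Ico.2 ⟨by omega, by omega⟩
  have s4 : P.N + m4 ∈ SS P := Finset.mem_Ico.2 ⟨by omega, by omega⟩
  have l1 := (C.cc_lt s1 s2).2 (by omega)
  have l2 := (C.cc_lt s2 s3).2 (by omega)
  have l3 := (C.cc_lt s3 s4).2 (by omega)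
  unfold lam
  generalize cc P x y φ P.N = a at *
  generalize cc P x y φ (P.N + m2) = b at *
  generalize cc P x y φ (P.N + m3) = c at *
  generalize cc P x y φ (P.N + m4) = d at *
  have q1 : 0 < b - a := by linarith
  have q2 : 0 < d - c := by linarith
  have q3 : 0 < c - b := by linarith
  have q4 : 0 < (c - a) * (d - b) := mul_pos (by linarith) (by linarith)
  refine ⟨div_pos (mul_pos q1 q2) q4, ?_⟩
  rw [div_lt_one q4]
  nlinarith [mul_pos q1 q3, mul_pos q3 q3, mul_pos q3 q2]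

end Pool.Agent.H5.C3
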