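import Mathlib
import Pool.Agent.H5.C3.TopA
import Pool.Agent.H13.Q1.FourH

set_option autoImplicit false
open Finset Filter Topology

/-! # T9: `StShapeG → StC3` -/

namespace Pool.Agent.H5.C3

open Pool.Agent.H75.Perc (dir dir_cases Pr)
open Pool.Agent.Q1.M4 (Cell Good IsSide nextSide tail head Adj4 Conn4 PType pt rect Reg Om)
open Pool.Agent.H21.FM (Shape qn)
open Pool.Agent.H5.FM (UpG LoG gr OnS)
open Pool.Agent.H19.RH (Cht lam exists_cht)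
open Pool.Agent.H13.Q1.Four (cardy cardy_cont)
open Pool.Agent.H14.FM (ic)
open Pool.Agent.Q1.M5 (App EL CI StC3)

lemma ic_mono : StrictMono ic := fun i j h => by
  show (i : ℝ) < j
  exact_mod_cast h

lemma Pert.mono {S S' : Shape} {M : ℕ} {δ δ' : ℝ} (h : Pert S S' M δ) (hd : δ ≤ δ') :
    Pert S S' M δ' := by
  refine ⟨h.M0, fun z hz => ?_, fun z hz => ?_, fun i hi z hz => ?_, fun i hi hi' z hz => ?_,
    fun i hi hi' z hz => ?_, fun i hi hi' z hz => ?_⟩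
  · obtain ⟨c, hc, v, hv, h1, h2⟩ := h.cell z hz
    exact ⟨c, hc, v, hv.trans hd, h1, h2⟩
  · obtain ⟨w, hw, h1⟩ := h.com z hz
    exact ⟨w, hw, h1.trans hd⟩
  · obtain ⟨j, hj, w, hw, h1⟩ := h.l0 i hi z hz
    exact ⟨j, hj, w, hw, h1.trans hd⟩
  · obtain ⟨j, hj, w, hw, h1⟩ := h.l1 i hi hi' z hz
    exact ⟨j, hj, w, hw, h1.trans hd⟩
  · obtain ⟨j, hj, w, hw, h1⟩ := h.l2 i hi hi' z hz
    exact ⟨j, hj, w, hw, h1.trans hd⟩
  · obtain ⟨j, hj, w, hw, h1⟩ := h.l3 i hi hi' z hz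
    exact ⟨j, hj, w, hw, h1.trans hd⟩

/-- **Generic perturbation with a close cross ratio.** -/
lemma exists_gen (hGen : StGen) (hPL : StPertLam) (S : Shape) {φ : ℂ → ℂ}
    (hφ : Cht S.P ic ic φ) {δ ε : ℝ} (hδ : 0 < δ) (hε : 0 < ε) :
    ∃ (S' : Shape) (M : ℕ) (ψ : ℂ → ℂ), Gen S'.P.Q ∧ Pert S S' M δ ∧ Cht S'.P ic ic ψ ∧
      |lam S'.P ic ic S'.m2 S'.m3 S'.m4 ψ - lam S.P ic ic S.m2 S.m3 S.m4 φ| < ε := by
  obtain ⟨C, hC⟩ := hGen S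
  obtain ⟨K, hK⟩ := eventually_atTop.1 hC
  have hK' : ∀ n : ℕ, ∃ S' : Shape, Gen S'.P.Q ∧ Pert S S' (K + n) (C / ((K + n : ℕ) : ℝ)) :=
    fun n => hK (K + n) (Nat.le_add_right _ _)
  choose T hT1 hT2 using hK'
  have hch : ∀ n : ℕ, ∃ ψ, Cht (T n).P ic ic ψ := fun n => exists_cht _ ic_mono ic_mono
  choose ψ hψ using hch
  have htend : Tendsto (fun n : ℕ => ((K + n : ℕ) : ℝ)) atTop atTop :=
    tendsto_natCast_atTop_atTop.comp (tendsto_atTop_mono (fun n => Nat.le_add_left n K) tendsto_id)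
  have hd : Tendsto (fun n : ℕ => C / ((K + n : ℕ) : ℝ)) atTop (𝓝 0) := htend.const_div_atTop C
  have h1 := hPL S φ hφ (fun n => K + n) (fun n => C / ((K + n : ℕ) : ℝ)) hd
    T ψ hψ hT2
  have h2 := (Metric.tendsto_atTop.1 h1) ε hε
  obtain ⟨N1, hN1⟩ := h2
  obtain ⟨N2, hN2⟩ := eventually_atTop.1 (hd.eventually (eventually_le_nhds hδ))
  refine ⟨T (max N1 N2), K + max N1 N2, ψ (max N1 N2), hT1 _,
    (hT2 _).mono (hN2 _ (le_max_right _ _)), hψ _, ?_⟩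
  have := hN1 _ (le_max_left N1 N2)
  rwa [Real.dist_eq] at this

section
variable {P : PType} {x y : ℤ → ℝ} {g : ℝ} {n1 n2 : ℕ}

lemma exists_U (hLab : StLab) (hx : GapR x g) (hy : GapR y g) (h1 : 0 < n1) (h2 : n1 < n2)
    (h3 : n2 < P.m) {κ : ℝ} (hκ : 0 < κ) (hg : 5 * κ ≤ g) : ∃ S, IsU P x y n1 n2 κ S := by
  have hN := P.hmN
  obtain ⟨S, hQ, l0, l1, l2, l3⟩ := hLab (P5 P) (OU n1 n2 P.m) (LX x κ) (LX y κ)
    (H57.W.Gap.le (H57.W.gap_LX hx hκ hg) (by norm_num)) (H57.W.Gap.le (H57.W.gap_LX hy hκ hg) (by norm_num))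
    (AU P.N n1 n2 P.m) (by
      unfold AU
      have := marks_mk4 (P := P5 P) (a := 1) (b := 5 * n1 - 2) (c := 5 * n2 + 1) (d := 5 * P.m - 2)
        (s := -1) (by omega) (by omega) (by omega) (by rw [H57.W.P5_N]; omega)
      rwa [H57.W.P5_N] at this)
  exact ⟨S, hQ, l0, l1, l2, l3⟩

lemma exists_L (hLab : StLab) (hx : GapR x g) (hy : GapR y g) (h1 : 0 < n1) (h2 : n1 < n2)
    (h3 : n2 < P.m) {κ : ℝ} (hκ : 0 < κ) (hg : 5 * κ ≤ g) : ∃ S, IsL P x y n1 n2 κ S := by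
  have hN := P.hmN
  obtain ⟨S, hQ, l0, l1, l2, l3⟩ := hLab (P5 P) (OL P.N n1 n2 P.m) (LX x κ) (LX y κ)
    (H57.W.Gap.le (H57.W.gap_LX hx hκ hg) (by norm_num)) (H57.W.Gap.le (H57.W.gap_LX hy hκ hg) (by norm_num))
    (AL P.N n1 n2 P.m) (by
      unfold AL
      have := marks_mk4 (P := P5 P) (a := 5 * n1 + 1) (b := 5 * n2 - 2) (c := 5 * P.m + 1)
        (d := 5 * P.N - 2) (s := 0) (by omega) (by omega) (by omega) (by rw [H57.W.P5_N]; omega)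
      rwa [H57.W.P5_N] at this)
  exact ⟨S, hQ, l0, l1, l2, l3⟩

/-- a sequence of parameters -/
lemma exists_seq {κ0 g : ℝ} (h0 : 0 < κ0) (hg : 0 < g) : ∃ κ : ℕ → ℝ, (∀ n, 0 < κ n) ∧
    (∀ n, κ n < κ0) ∧ (∀ n, 5 * κ n ≤ g) ∧ Tendsto κ atTop (𝓝 0) := by
  have hm : 0 < min κ0 (g / 5) := lt_min h0 (by linarith)
  refine ⟨fun n => min κ0 (g / 5) / (n + 2), fun n => by positivity, fun n => ?_, fun n => ?_, ?_⟩
  · have h1 : min κ0 (g / 5) / ((n : ℝ) + 2) < min κ0 (g / 5) :=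
      div_lt_self hm (by have : (0 : ℝ) ≤ n := n.cast_nonneg; linarith)
    exact h1.trans_le (min_le_left _ _)
  · have h1 : min κ0 (g / 5) / ((n : ℝ) + 2) ≤ min κ0 (g / 5) :=
      div_le_self hm.le (by have : (0 : ℝ) ≤ n := n.cast_nonneg; linarith)
    have h2 := min_le_right κ0 (g / 5)
    simp only
    linarith
  · have h1 : Tendsto (fun n : ℕ => (n : ℝ) + 2) atTop atTop :=
      tendsto_atTop_add_const_right _ _ tendsto_natCast_atTop_atTop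
    exact h1.const_div_atTop _

end

/-- **T9.** -/
theorem stTopG (hLab : StLab) (hPos : StPos) (hLam : StLam) (hU : StCIUG) (hL : StCILG)
    (hGen : StGen) (hPert : StPert) (hPL : StPertLam) : StTopG := by
  intro hSh P x y hx hy n1 n2 h1 h2 h3
  have hN := P.hmN
  obtain ⟨K, hK0, hK⟩ := exists_K P.Q
  obtain ⟨x', hxd⟩ : ∃ x', x' = xcl x K := ⟨_, rfl⟩
  obtain ⟨y', hyd⟩ : ∃ y', y' = xcl y K := ⟨_, rfl⟩
  have hx' : ∀ i, |i| ≤ K → x' i = x i := fun i hi => by rw [hxd]; exact xcl_eq x hi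
  have hy' : ∀ i, |i| ≤ K → y' i = y i := fun i hi => by rw [hyd]; exact xcl_eq y hi
  obtain ⟨gx, hgx⟩ : ∃ g, GapR x' g := by rw [hxd]; exact gapR_xcl hx hK0
  obtain ⟨gy, hgy⟩ : ∃ g, GapR y' g := by rw [hyd]; exact gapR_xcl hy hK0
  have g1 : GapR x' (min gx gy) :=
    H57.W.GapR.le hgx (lt_min hgx.g0 hgy.g0) (min_le_left _ _)
  have g2 : GapR y' (min gx gy) :=
    H57.W.GapR.le hgy (lt_min hgx.g0 hgy.g0) (min_le_right _ _)
  have eOm : Om P.Q x' y' = Om P.Q x y := Om_congr hK hx' hy'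
  have eAr : ∀ a b, arR P x' y' a b = arR P x y a b := arR_congr hK hx' hy'
  obtain ⟨φ, hφ⟩ := exists_cht P (H57.W.gapR_mono g1) (H57.W.gapR_mono g2)
  obtain ⟨κ0, hκ0, hpos⟩ := hPos P x' y' _ g1 g2 n1 n2 h1 h2 h3
  obtain ⟨κ, k1, k2, k3, k4⟩ := exists_seq hκ0 g1.g0
  obtain ⟨l0, hl0⟩ : ∃ l0, lam P x' y' n1 n2 P.m φ = l0 := ⟨_, rfl⟩
  have hlam := lam_mem hφ h1 h2 h3 hN
  rw [hl0] at hlam
  have hcont : ContinuousAt cardy l0 := cardy_cont.continuousAt (Icc_mem_nhds hlam.1 hlam.2)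
  refine ⟨1 - cardy l0, fun R X Y hApp => ?_⟩
  rw [Metric.tendsto_atTop]
  intro ε hε
  obtain ⟨η, hη, hη'⟩ := Metric.continuousAt_iff.1 hcont (ε / 3) (by linarith)
  -- the common step
  have common : ∀ S : ℕ → Shape, (∀ n, IsU P x' y' n1 n2 (κ n) (S n) ∨
      IsL P x' y' n1 n2 (κ n) (S n)) → ∃ n, ∀ δ > 0, ∃ (S' : Shape) (M M' : ℕ), Pert (S n) S' M δ ∧
      0 < M' ∧ ∀ᶠ h : ℕ in atTop, |qn S' (M' * h) - cardy l0| ≤ 2 * (ε / 3) := by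
    intro S hS
    have hch : ∀ n, ∃ ψ, Cht (S n).P ic ic ψ := fun n => exists_cht _ ic_mono ic_mono
    choose ψ hψ using hch
    have t1 := hLam P x' y' _ g1 g2 n1 n2 h1 h2 h3 φ hφ κ k1 k4 S ψ hψ hS
    rw [hl0] at t1
    obtain ⟨n, hn⟩ := (Metric.tendsto_atTop.1 t1) (η / 2) (by linarith)
    refine ⟨n, fun δ hδ => ?_⟩
    have hn := hn n le_rfl
    obtain ⟨S', M, ψ', q1, q2, q3, q4⟩ := exists_gen hGen hPL (S n) (hψ n) hδ
      (show (0 : ℝ) < η / 2 by linarith)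
    obtain ⟨M', r1, r2⟩ := hSh S' q1 ψ' q3 (ε / 3) (by linarith)
    refine ⟨S', M, M', q2, r1, r2.mono fun h hh => ?_⟩
    have d1 : dist (lam S'.P ic ic S'.m2 S'.m3 S'.m4 ψ') l0 < η := by
      have e1 := dist_triangle (lam S'.P ic ic S'.m2 S'.m3 S'.m4 ψ')
        (lam (S n).P ic ic (S n).m2 (S n).m3 (S n).m4 (ψ n)) l0
      rw [Real.dist_eq (lam S'.P ic ic S'.m2 S'.m3 S'.m4 ψ')
        (lam (S n).P ic ic (S n).m2 (S n).m3 (S n).m4 (ψ n))] at e1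
      linarith
    have d2 := hη' d1
    rw [Real.dist_eq] at d2
    have e2 := abs_sub_le (qn S' (M' * h)) (cardy (lam S'.P ic ic S'.m2 S'.m3 S'.m4 ψ')) (cardy l0)
    linarith
  -- upper bound
  have up : ∀ᶠ j in atTop, Pr (EL P (X j) (Y j)) (CI P (X j) (Y j) n1 n2) ≤
      1 - (cardy l0 - 2 * (ε / 3)) := by
    have hex : ∀ n, ∃ S, IsU P x' y' n1 n2 (κ n) S := fun n =>
      exists_U hLab g1 g2 h1 h2 h3 (k1 n) (k3 n)
    choose S hS using hex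
    obtain ⟨n, hn⟩ := common S (fun n => Or.inl (hS n))
    obtain ⟨ρ, N2, N4, hup⟩ := (hpos (κ n) (k1 n) (k2 n) (S n)).1 (hS n)
    obtain ⟨δ, hδ, ρ', N2', N4', hst⟩ := (hPert (S n) _ _ _ _ ρ N2 N4).1 hup
    obtain ⟨S', M, M', p1, p2, p3⟩ := hn δ hδ
    have hup' := hst S' M p1
    rw [eOm, eAr, eAr] at hup'
    exact hU P x y n1 n2 hx hy h1 h2 h3 S' _ ρ' N2' N4' hup' M' (cardy l0 - 2 * (ε / 3)) p2
      (p3.mono fun h hh => by have := (abs_le.1 hh).1; linarith) R X Y hApp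
  -- lower bound
  have lo : ∀ᶠ j in atTop, 1 - (cardy l0 + 2 * (ε / 3)) ≤
      Pr (EL P (X j) (Y j)) (CI P (X j) (Y j) n1 n2) := by
    have hex : ∀ n, ∃ S, IsL P x' y' n1 n2 (κ n) S := fun n =>
      exists_L hLab g1 g2 h1 h2 h3 (k1 n) (k3 n)
    choose S hS using hex
    obtain ⟨n, hn⟩ := common S (fun n => Or.inr (hS n))
    obtain ⟨ρ, N2, N4, hlo⟩ := (hpos (κ n) (k1 n) (k2 n) (S n)).2 (hS n)
    obtain ⟨δ, hδ, ρ', N2', N4', hst⟩ := (hPert (S n) _ _ _ _ ρ N2 N4).2 hlo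
    obtain ⟨S', M, M', p1, p2, p3⟩ := hn δ hδ
    have hlo' := hst S' M p1
    rw [eOm, eAr, eAr] at hlo'
    exact hL P x y n1 n2 hx hy h1 h2 h3 S' _ ρ' N2' N4' hlo' M' (cardy l0 + 2 * (ε / 3)) p2
      (p3.mono fun h hh => by have := (abs_le.1 hh).2; linarith) R X Y hApp
  obtain ⟨J, hJ⟩ := eventually_atTop.1 (up.and lo)
  refine ⟨J, fun j hj => ?_⟩
  have := hJ j hj
  rw [Real.dist_eq, abs_lt]
  constructor <;> linarith [this.1, this.2]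

end Pool.Agent.H5.C3
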