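import Mathlib
import Pool.Agent.H5.C3.TopB

set_option autoImplicit false
open Finset Filter Topology

/-! # T9 with the explicit value: Cardy's formula for grid polygons -/

namespace Pool.Agent.H5.C3

open Pool.Agent.H75.Perc (dir dir_cases Pr)
open Pool.Agent.Q1.M4 (Cell Good IsSide nextSide tail head Adj4 Conn4 PType pt rect Reg Om)
open Pool.Agent.H21.FM (Shape qn)
open Pool.Agent.H5.FM (UpG LoG gr OnS)
open Pool.Agent.H19.RH (Cht lam exists_cht crv cc)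
open Pool.Agent.H13.Q1.Four (cardy cardy_cont)
open Pool.Agent.H14.FM (ic)
open Pool.Agent.Q1.M5 (App EL CI StC3)

/-- **Cardy's formula for grid polygons.** -/
def StC3V : Prop := ∀ (P : PType) (x y : ℤ → ℝ), StrictMono x → StrictMono y →
  ∀ n1 n2 : ℕ, 0 < n1 → n1 < n2 → n2 < P.m → ∀ φ : ℂ → ℂ, Cht P x y φ →
  ∀ (R : ℕ → ℝ) (X Y : ℕ → ℤ → ℤ), App x y R X Y →
    Tendsto (fun j => Pr (EL P (X j) (Y j)) (CI P (X j) (Y j) n1 n2)) atTop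
      (𝓝 (1 - cardy (lam P x y n1 n2 P.m φ)))

theorem stC3_of_val (h : StC3V) : StC3 := fun P x y hx hy n1 n2 h1 h2 h3 => by
  obtain ⟨φ, hφ⟩ := exists_cht P hx hy
  exact ⟨_, fun R X Y hA => h P x y hx hy n1 n2 h1 h2 h3 φ hφ R X Y hA⟩

section
variable {P : PType} {x y x' y' : ℤ → ℝ} {K : ℤ}

lemma crv_congr (hK : ∀ c ∈ P.Q, |c.1| + 1 ≤ K ∧ |c.2| + 1 ≤ K) (hx : ∀ i, |i| ≤ K → x' i = x i)
    (hy : ∀ i, |i| ≤ K → y' i = y i) : crv P x' y' = crv P x y := by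
  funext u
  unfold crv PType.sidePt
  rw [pt_congr hK hx hy, pt_congr hK hx hy]

lemma lam_congr (hK : ∀ c ∈ P.Q, |c.1| + 1 ≤ K ∧ |c.2| + 1 ≤ K) (hx : ∀ i, |i| ≤ K → x' i = x i)
    (hy : ∀ i, |i| ≤ K → y' i = y i) (φ : ℂ → ℂ) (m2 m3 m4 : ℕ) :
    lam P x' y' m2 m3 m4 φ = lam P x y m2 m3 m4 φ := by
  have h : ∀ n, cc P x' y' φ n = cc P x y φ n := by
    intro n
    show Pool.Agent.H19.RH.Cht.sg P x' y' φ (n : ℝ) = Pool.Agent.H19.RH.Cht.sg P x y φ (n : ℝ)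
    unfold Pool.Agent.H19.RH.Cht.sg
    rw [crv_congr hK hx hy]
  unfold lam
  rw [h, h, h, h]

lemma cht_congr (hK : ∀ c ∈ P.Q, |c.1| + 1 ≤ K ∧ |c.2| + 1 ≤ K) (hx : ∀ i, |i| ≤ K → x' i = x i)
    (hy : ∀ i, |i| ≤ K → y' i = y i) (hx' : StrictMono x') (hy' : StrictMono y') {φ : ℂ → ℂ}
    (h : Cht P x y φ) : Cht P x' y' φ := by
  refine ⟨hx', hy', ?_⟩
  have h1 := h.half
  unfold PType.sidePt at h1 ⊢
  rw [Om_congr hK hx hy, pt_congr hK hx hy, pt_congr hK hx hy, pt_congr hK hx hy]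
  exact h1

end

/-- **T9 with the value.** -/
theorem stC3V_of (hLab : StLab) (hPos : StPos) (hLam : StLam) (hU : StCIUG) (hL : StCILG)
    (hGen : StGen) (hPert : StPert) (hPL : StPertLam) (hSh : StShapeG) : StC3V := by
  intro P x y hx hy n1 n2 h1 h2 h3 φ hφ R X Y hApp
  have hN := P.hmN
  obtain ⟨K, hK0, hK⟩ := exists_K P.Q
  obtain ⟨x', hxd⟩ : ∃ x', x' = xcl x K := ⟨_, rfl⟩
  obtain ⟨y', hyd⟩ : ∃ y', y' = xcl y K := ⟨_, rfl⟩
  have hx' : ∀ i, |i| ≤ K → x' i = x i := fun i hi => by rw [hxd]; exact xcl_eq x hi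
  have hy' : ∀ i, |i| ≤ K → y' i = y i := fun i hi => by rw [hyd]; exact xcl_eq y hi
  obtain ⟨gx, hgx⟩ : ∃ g, GapR x' g := by rw [hxd]; exact gapR_xcl hx hK0
  obtain ⟨gy, hgy⟩ : ∃ g, GapR y' g := by rw [hyd]; exact gapR_xcl hy hK0
  have g1 : GapR x' (min gx gy) :=
    H57.W.GapR.le hgx (lt_min hgx.g0 hgy.g0) (min_le_left _ _)
  have g2 : GapR y' (min gx gy) :=
    H57.W.GapR.le hgy (lt_min hgx.g0 hgy.g0) (min_le_right _ _)
  have eOm : Om P.Q x' y' = Om P.Q x y := Om_congr hK hx' hy'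
  have eAr : ∀ a b, arR P x' y' a b = arR P x y a b := arR_congr hK hx' hy'
  have hφ' := cht_congr hK hx' hy' (H57.W.gapR_mono g1) (H57.W.gapR_mono g2) hφ
  obtain ⟨κ0, hκ0, hpos⟩ := hPos P x' y' _ g1 g2 n1 n2 h1 h2 h3
  obtain ⟨κ, k1, k2, k3, k4⟩ := exists_seq hκ0 g1.g0
  obtain ⟨l0, hl0⟩ : ∃ l0, lam P x' y' n1 n2 P.m φ = l0 := ⟨_, rfl⟩
  have hlam := lam_mem hφ' h1 h2 h3 hN
  rw [hl0] at hlam
  have hcont : ContinuousAt cardy l0 := cardy_cont.continuousAt (Icc_mem_nhds hlam.1 hlam.2)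
  rw [← lam_congr hK hx' hy', hl0]
  rw [Metric.tendsto_atTop]
  intro ε hε
  obtain ⟨η, hη, hη'⟩ := Metric.continuousAt_iff.1 hcont (ε / 3) (by linarith)
  -- the common step
  have common : ∀ S : ℕ → Shape, (∀ n, IsU P x' y' n1 n2 (κ n) (S n) ∨
      IsL P x' y' n1 n2 (κ n) (S n)) → ∃ n, ∀ δ > 0, ∃ (S' : Shape) (M M' : ℕ), Pert (S n) S' M δ ∧
      0 < M' ∧ ∀ᶠ h : ℕ in atTop, |qn S' (M' * h) - cardy l0| ≤ 2 * (ε / 3) := by
    intro S hS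
    have hch : ∀ n, ∃ ψ, Cht (S n).P ic ic ψ := fun n => exists_cht _ ic_mono ic_mono
    choose ψ hψ using hch
    have t1 := hLam P x' y' _ g1 g2 n1 n2 h1 h2 h3 φ hφ' κ k1 k4 S ψ hψ hS
    rw [hl0] at t1
    obtain ⟨n, hn⟩ := (Metric.tendsto_atTop.1 t1) (η / 2) (by linarith)
    refine ⟨n, fun δ hδ => ?_⟩
    have hn := hn n le_rfl
    obtain ⟨S', M, ψ', q1, q2, q3, q4⟩ := exists_gen hGen hPL (S n) (hψ n) hδ
      (show (0 : ℝ) < η / 2 by linarith)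
    obtain ⟨M', r1, r2⟩ := hSh S' q1 ψ' q3 (ε / 3) (by linarith)
    refine ⟨S', M, M', q2, r1, r2.mono fun h hh => ?_⟩
    have d1 : dist (lam S'.P ic ic S'.m2 S'.m3 S'.m4 ψ') l0 < η := by
      have e1 := dist_triangle (lam S'.P ic ic S'.m2 S'.m3 S'.m4 ψ')
        (lam (S n).P ic ic (S n).m2 (S n).m3 (S n).m4 (ψ n)) l0
      rw [Real.dist_eq (lam S'.P ic ic S'.m2 S'.m3 S'.m4 ψ')
        (lam (S n).P ic ic (S n).m2 (S n).m3 (S n).m4 (ψ n))] at e1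
      linarith
    have d2 := hη' d1
    rw [Real.dist_eq] at d2
    have e2 := abs_sub_le (qn S' (M' * h)) (cardy (lam S'.P ic ic S'.m2 S'.m3 S'.m4 ψ')) (cardy l0)
    linarith
  -- upper bound
  have up : ∀ᶠ j in atTop, Pr (EL P (X j) (Y j)) (CI P (X j) (Y j) n1 n2) ≤
      1 - (cardy l0 - 2 * (ε / 3)) := by
    have hex : ∀ n, ∃ S, IsU P x' y' n1 n2 (κ n) S := fun n =>
      exists_U hLab g1 g2 h1 h2 h3 (k1 n) (k3 n)
    choose S hS using hex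
    obtain ⟨n, hn⟩ := common S (fun n => Or.inl (hS n))
    obtain ⟨ρ, N2, N4, hup⟩ := (hpos (κ n) (k1 n) (k2 n) (S n)).1 (hS n)
    obtain ⟨δ, hδ, ρ', N2', N4', hst⟩ := (hPert (S n) _ _ _ _ ρ N2 N4).1 hup
    obtain ⟨S', M, M', p1, p2, p3⟩ := hn δ hδ
    have hup' := hst S' M p1
    rw [eOm, eAr, eAr] at hup'
    exact hU P x y n1 n2 hx hy h1 h2 h3 S' _ ρ' N2' N4' hup' M' (cardy l0 - 2 * (ε / 3)) p2
      (p3.mono fun h hh => by have := (abs_le.1 hh).1; linarith) R X Y hApp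
  -- lower bound
  have lo : ∀ᶠ j in atTop, 1 - (cardy l0 + 2 * (ε / 3)) ≤
      Pr (EL P (X j) (Y j)) (CI P (X j) (Y j) n1 n2) := by
    have hex : ∀ n, ∃ S, IsL P x' y' n1 n2 (κ n) S := fun n =>
      exists_L hLab g1 g2 h1 h2 h3 (k1 n) (k3 n)
    choose S hS using hex
    obtain ⟨n, hn⟩ := common S (fun n => Or.inr (hS n))
    obtain ⟨ρ, N2, N4, hlo⟩ := (hpos (κ n) (k1 n) (k2 n) (S n)).2 (hS n)
    obtain ⟨δ, hδ, ρ', N2', N4', hst⟩ := (hPert (S n) _ _ _ _ ρ N2 N4).2 hlo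
    obtain ⟨S', M, M', p1, p2, p3⟩ := hn δ hδ
    have hlo' := hst S' M p1
    rw [eOm, eAr, eAr] at hlo'
    exact hL P x y n1 n2 hx hy h1 h2 h3 S' _ ρ' N2' N4' hlo' M' (cardy l0 + 2 * (ε / 3)) p2
      (p3.mono fun h hh => by have := (abs_le.1 hh).2; linarith) R X Y hApp
  obtain ⟨J, hJ⟩ := eventually_atTop.1 (up.and lo)
  refine ⟨J, fun j hj => ?_⟩
  have := hJ j hj
  rw [Real.dist_eq, abs_lt]
  constructor <;> linarith [this.1, this.2]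

end Pool.Agent.H5.C3
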