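import Mathlib
import Pool.Agent.H5.C3.Val
import Pool.Agent.H5.C3.T4
import Pool.Agent.H5.C3.T8G
import Pool.Agent.H68.W.Coll
import Pool.Agent.H86.W.T7F
import Pool.Agent.H86.W.T12
import Pool.Agent.H57.W.Pos
import Pool.Agent.H45.W.ShearP
import Pool.Agent.H22.W.Pert
import Pool.Agent.H14.NB.Done

set_option autoImplicit false

/-! # W-F: Cardy's formula for generic shapes implies Q1 (top of route W) -/

namespace Pool.Agent.H5.C3

/-- **Cardy's formula for grid polygons** of the lattice frame, from Cardy's formula for generic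
shapes of the tile frame. -/
theorem stC3V_of_shapeG (h : StShapeG) : StC3V :=
  stC3V_of (stLab H68.W.stGood stStep) H57.W.stPos H86.W.stLamF stCIUG stCILG H45.W.stGen
    Pool.Agent.H22.W.Pert.stPert H86.W.stPertLam h

theorem stC3_of_shapeG (h : StShapeG) : Pool.Agent.Q1.M5.StC3 := stC3_of_val (stC3V_of_shapeG h)

/-- **Top of route W**: Q1 from Cardy's formula for generic shapes. -/
theorem q1_of_shapeG (h : StShapeG) : Pool.Agent.H81.Q1.Q1 :=
  Pool.Agent.H14.NB.Q1_of_StC3 (stC3_of_shapeG h)

end Pool.Agent.H5.C3
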